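import Mathlib

/-!
The discriminant as a form in the coefficients.
-/

set_option autoImplicit false

namespace Pool.Agent.H85.X

open MvPolynomial Finset

/-- a determinant whose rows are homogeneous -/
theorem det_hom {σ R : Type} [CommRing R] {n : ℕ} (M : Matrix (Fin n) (Fin n) (MvPolynomial σ R))
    (d : Fin n → ℕ) (h : ∀ i j, (M i j).IsHomogeneous (d i)) : M.det.IsHomogeneous (∑ i, d i) := by
  classical
  rw [Matrix.det_apply]
  refine IsHomogeneous.sum _ _ _ fun τ _ => ?_
  have h1 : (∏ i, M (τ i) i).IsHomogeneous (∑ i, d (τ i)) :=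
    IsHomogeneous.prod _ _ _ fun i _ => h (τ i) i
  rw [Equiv.sum_comp τ d] at h1
  rw [Units.smul_def, zsmul_eq_mul]
  have h2 : (((Equiv.Perm.sign τ : ℤˣ) : ℤ) : MvPolynomial σ R) =
      C (((Equiv.Perm.sign τ : ℤˣ) : ℤ) : R) := by
    simp
  rw [h2]
  exact h1.C_mul _

/-- the generic polynomial -/
noncomputable def U (r : ℕ) : Polynomial (MvPolynomial (Fin (r + 1)) ℤ) :=
  ∑ j : Fin (r + 1), Polynomial.C (X j) * Polynomial.X ^ (j : ℕ)

/-- the polynomial with given coefficients -/
noncomputable def PF {F : Type} [CommRing F] {r : ℕ} (c : Fin (r + 1) → F) : Polynomial F :=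
  ∑ j : Fin (r + 1), Polynomial.C (c j) * Polynomial.X ^ (j : ℕ)

lemma PF_coeff {F : Type} [CommRing F] {r : ℕ} (c : Fin (r + 1) → F) (j : ℕ) :
    (PF c).coeff j = if h : j < r + 1 then c ⟨j, h⟩ else 0 := by
  classical
  unfold PF
  rw [Polynomial.finsetSum_coeff]
  simp only [Polynomial.coeff_C_mul, Polynomial.coeff_X_pow]
  split_ifs with h
  · rw [Finset.sum_eq_single (⟨j, h⟩ : Fin (r + 1))]
    · simp
    · intro b _ hb
      rw [if_neg, mul_zero]
      intro h2
      exact hb (Fin.ext h2.symm)
    · intro h2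
      exact absurd (Finset.mem_univ _) h2
  · refine Finset.sum_eq_zero fun b _ => ?_
    rw [if_neg, mul_zero]
    intro h2
    have := b.2
    omega

lemma PF_natDegree_le {F : Type} [CommRing F] {r : ℕ} (c : Fin (r + 1) → F) :
    (PF c).natDegree ≤ r := by
  rw [Polynomial.natDegree_le_iff_coeff_eq_zero]
  intro N hN
  rw [PF_coeff, dif_neg (by omega)]

lemma PF_natDegree {F : Type} [CommRing F] {r : ℕ} (c : Fin (r + 1) → F)
    (h : c (Fin.last r) ≠ 0) : (PF c).natDegree = r := by
  refine Polynomial.natDegree_eq_of_le_of_coeff_ne_zero (PF_natDegree_le c) ?_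
  rw [PF_coeff, dif_pos (by omega : r < r + 1)]
  exact h

lemma U_eq (r : ℕ) : U r = PF (fun j : Fin (r + 1) => (X j : MvPolynomial (Fin (r + 1)) ℤ)) := rfl

lemma U_natDegree (r : ℕ) : (U r).natDegree = r := by
  rw [U_eq]
  exact PF_natDegree _ (X_ne_zero _)

/-- the discriminant as a form -/
noncomputable def De (r : ℕ) : MvPolynomial (Fin (r + 1)) ℤ := (U r).discr

lemma U_coeff_hom (r j : ℕ) : ((U r).coeff j).IsHomogeneous 1 := by
  rw [U_eq, PF_coeff]
  split_ifs
  · exact isHomogeneous_X _ _
  · exact isHomogeneous_zero _ _ _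

theorem De_hom (r : ℕ) (hr : 2 ≤ r) : (De r).IsHomogeneous (2 * r - 2) := by
  classical
  set n := (U r).natDegree with hn
  have hnr : n = r := U_natDegree r
  have hlast : 2 * n - 2 < n - 1 + n := by omega
  set d : Fin (n - 1 + n) → ℕ := fun i => if i = ⟨2 * n - 2, hlast⟩ then 0 else 1 with hd
  have h1 : ∀ i j, ((U r).sylvesterDeriv i j).IsHomogeneous (d i) := by
    intro i j
    unfold Polynomial.sylvesterDeriv
    rw [dif_neg (by omega : ¬ (U r).natDegree = 0)]
    by_cases hi : i = ⟨2 * n - 2, hlast⟩
    · subst hi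
      rw [Matrix.updateRow_self]
      simp only [hd, if_true]
      split_ifs
      · exact isHomogeneous_one _ _
      · have : (((U r).natDegree : ℕ) : MvPolynomial (Fin (r + 1)) ℤ) =
            C (((U r).natDegree : ℕ) : ℤ) := by simp
        rw [this]
        exact isHomogeneous_C _ _
      · exact isHomogeneous_zero _ _ _
    · rw [Matrix.updateRow_ne hi]
      simp only [hd, if_neg hi]
      unfold Polynomial.sylvester
      rw [Matrix.of_apply]
      refine Fin.addCases (fun k => ?_) (fun k => ?_) j
      · rw [Fin.addCases_left]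
        split_ifs
        · exact U_coeff_hom r _
        · exact isHomogeneous_zero _ _ _
      · rw [Fin.addCases_right]
        split_ifs
        · rw [Polynomial.coeff_derivative]
          have h2 : (((((i : ℕ) - (k : ℕ) : ℕ) : MvPolynomial (Fin (r + 1)) ℤ)) + 1) =
            C ((((i : ℕ) - (k : ℕ) : ℕ) : ℤ) + 1) := by simp
          rw [h2, mul_comm]
          exact (U_coeff_hom r _).C_mul _
        · exact isHomogeneous_zero _ _ _
  have h2 := det_hom _ d h1
  have h3 : ∑ i, d i = 2 * r - 2 := by
    have h4 : ∑ i, d i + 1 = n - 1 + n := by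
      have h5 : ∑ i : Fin (n - 1 + n), (d i + if i = ⟨2 * n - 2, hlast⟩ then 1 else 0) =
          ∑ i : Fin (n - 1 + n), 1 := by
        refine Finset.sum_congr rfl fun i _ => ?_
        simp only [hd]
        split_ifs <;> rfl
      rw [Finset.sum_add_distrib, Finset.sum_ite_eq' Finset.univ] at h5
      simpa using h5
    omega
  rw [h3] at h2
  unfold De Polynomial.discr
  have h4 : ((-1 : MvPolynomial (Fin (r + 1)) ℤ)) ^ ((U r).natDegree * ((U r).natDegree - 1) / 2) =
      C ((-1 : ℤ) ^ ((U r).natDegree * ((U r).natDegree - 1) / 2)) := by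
    simp
  rw [h4, mul_comm]
  exact h2.C_mul _

/-- the discriminant form at a coefficient vector -/
theorem De_eval {F : Type} [Field F] {r : ℕ} (hr : 1 ≤ r) (c : Fin (r + 1) → F)
    (h : c (Fin.last r) ≠ 0) : aeval c (De r) = (PF c).discr := by
  have hU : 0 < (U r).degree := by
    rw [← Polynomial.natDegree_pos_iff_degree_pos, U_natDegree]
    omega
  have hP : 0 < (PF c).degree := by
    rw [← Polynomial.natDegree_pos_iff_degree_pos, PF_natDegree c h]
    omega
  have h1 := Polynomial.resultant_deriv hU
  have h2 := Polynomial.resultant_deriv hP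
  set φ : MvPolynomial (Fin (r + 1)) ℤ →+* F :=
    (aeval c : MvPolynomial (Fin (r + 1)) ℤ →ₐ[ℤ] F).toRingHom with hφ
  have hmap : (U r).map φ = PF c := by
    rw [U_eq]
    unfold PF
    rw [Polynomial.map_sum]
    refine Finset.sum_congr rfl fun j _ => ?_
    rw [Polynomial.map_mul, Polynomial.map_C, Polynomial.map_pow, Polynomial.map_X]
    simp [hφ]
  have h3 := congrArg φ h1
  rw [← Polynomial.resultant_map_map, ← Polynomial.derivative_map, hmap, U_natDegree] at h3
  rw [PF_natDegree c h, h3] at h2
  rw [map_mul, map_mul, map_pow, map_neg, map_one] at h2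
  have hl1 : φ (U r).leadingCoeff = c (Fin.last r) := by
    have : (U r).leadingCoeff = X (Fin.last r) := by
      unfold Polynomial.leadingCoeff
      rw [U_natDegree, U_eq, PF_coeff, dif_pos (by omega : r < r + 1)]
      rfl
    rw [this, hφ]
    simp
  have hl2 : (PF c).leadingCoeff = c (Fin.last r) := by
    unfold Polynomial.leadingCoeff
    rw [PF_natDegree c h, PF_coeff, dif_pos (by omega : r < r + 1)]
    rfl
  rw [hl1, hl2] at h2
  have hne : (-1 : F) ^ (r * (r - 1) / 2) * c (Fin.last r) ≠ 0 :=
    mul_ne_zero (pow_ne_zero _ (by simp)) h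
  exact mul_left_cancel₀ hne h2

/-- the absolute value of the discriminant of a product of linear factors -/
theorem disc_prod {F ι : Type} [Field F] (f : AbsoluteValue F ℝ) [Fintype ι] [DecidableEq ι]
    (hr : 1 ≤ Fintype.card ι) (t : ι → F) :
    f ((∏ k, (Polynomial.X - Polynomial.C (t k))).discr) =
      ∏ k, ∏ l ∈ Finset.univ.erase k, f (t k - t l) := by
  set P : Polynomial F := ∏ k, (Polynomial.X - Polynomial.C (t k)) with hP
  have hmon : P.Monic := Polynomial.monic_prod_of_monic _ _ fun k _ => Polynomial.monic_X_sub_C _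
  have hdeg : P.natDegree = Fintype.card ι := by
    rw [hP, Polynomial.natDegree_prod_of_monic _ _ fun k _ => Polynomial.monic_X_sub_C _]
    simp
  have hpos : 0 < P.degree := by
    rw [← Polynomial.natDegree_pos_iff_degree_pos, hdeg]
    omega
  have h1 := Polynomial.resultant_deriv hpos
  have hspl : P.Splits := by
    rw [hP]
    exact Polynomial.Splits.prod fun k _ => Polynomial.Splits.X_sub_C _
  have h2 := Polynomial.resultant_eq_prod_eval P P.derivative (P.natDegree - 1)
    (Polynomial.natDegree_derivative_le P) hspl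
  rw [h1, hmon.leadingCoeff, one_pow, one_mul, mul_one] at h2
  have hroots : P.roots = Multiset.map t Finset.univ.val := by
    rw [hP]
    exact Polynomial.roots_multiset_prod_X_sub_C (Multiset.map t Finset.univ.val) ▸ by
      rw [Multiset.map_map]
      rfl
  rw [hroots, Multiset.map_map] at h2
  have h4 : ∀ k, P.derivative.eval (t k) = ∏ l ∈ Finset.univ.erase k, (t k - t l) := by
    intro k
    rw [hP, Polynomial.derivative_prod_finset, Polynomial.eval_finsetSum,
      Finset.sum_eq_single k]
    · rw [Polynomial.eval_mul, Polynomial.eval_prod]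
      simp
    · intro b _ hb
      rw [Polynomial.eval_mul, Polynomial.eval_prod]
      rw [Finset.prod_eq_zero (i := k) (Finset.mem_erase.2 ⟨Ne.symm hb, Finset.mem_univ _⟩)]
      · simp
      · simp
    · intro h
      exact absurd (Finset.mem_univ _) h
  have h5 := congrArg f h2
  rw [map_mul, map_pow, f.map_neg, map_one, one_pow, one_mul] at h5
  rw [h5]
  have h6 : (Multiset.map ((fun x => Polynomial.eval x P.derivative) ∘ t) Finset.univ.val).prod =
      ∏ k, ∏ l ∈ Finset.univ.erase k, (t k - t l) := by
    have : (Multiset.map ((fun x => Polynomial.eval x P.derivative) ∘ t) Finset.univ.val).prod =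
      ∏ k, P.derivative.eval (t k) := rfl
    rw [this]
    exact Finset.prod_congr rfl fun k _ => h4 k
  rw [h6, map_prod]
  exact Finset.prod_congr rfl fun k _ => map_prod f _ _

end Pool.Agent.H85.X
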