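import Pool.Agent.H85.X.Ht

/-!
Each place is near to at most one of the points.
-/

set_option autoImplicit false

namespace Pool.Agent.H85.X

open NumberField IsDedekindDomain Finset Module IntermediateField
open Pool.Agent.W180.OP (Pl av wt wt_nonneg)
open Pool.Agent.W180.TP (wt_pos)
open Pool.Agent.NH28

variable {K : Type} [Field K] [NumberField K]

lemma one_le_wt {L : Type} [Field L] [NumberField L] (w : Pl L) : 1 ≤ wt w := by
  cases w with
  | inl w =>
    show (1 : ℝ) ≤ w.mult
    exact_mod_cast InfinitePlace.mult_pos
  | inr w => exact le_rfl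

lemma nn_le {L : Type} [Field L] [NumberField L] [Algebra K L] {v : Pl K} {w : Pl L}
    (hw : w ∈ ab L v) : nn v w ≤ finrank K L := by
  rw [← sum_nn L v]
  exact Finset.single_le_sum (f := fun w => nn v w) (fun w _ => nn_nonneg v w) hw

/-- absolute values of elements of `K` at the places above `v` -/
lemma av_K {L : Type} [Field L] [NumberField L] [Algebra K L] {v : Pl K} {w : Pl L} (r : ℕ)
    (hr : finrank K L = r) (hw : w ∈ ab L v) (a : K) :
    av w (algebraMap K L a) ≤ Real.exp (r * |wt v * Real.log (av v a)|) ∧
      (a ≠ 0 → Real.exp (-(r * |wt v * Real.log (av v a)|)) ≤ av w (algebraMap K L a)) := by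
  have hov := mem_ab.1 hw
  have h1 := nn_ext hov a
  have h2 : |wt w * Real.log (av w (algebraMap K L a))| ≤ r * |wt v * Real.log (av v a)| := by
    rw [h1, abs_mul, abs_of_nonneg (nn_nonneg v w)]
    refine mul_le_mul_of_nonneg_right ?_ (abs_nonneg _)
    rw [← hr]
    exact nn_le hw
  have h3 : |Real.log (av w (algebraMap K L a))| ≤ r * |wt v * Real.log (av v a)| := by
    refine le_trans ?_ h2
    rw [abs_mul, abs_of_nonneg (wt_nonneg w)]
    exact le_mul_of_one_le_left (abs_nonneg _) (one_le_wt w)
  by_cases ha : a = 0
  · subst ha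
    refine ⟨?_, fun h => absurd rfl h⟩
    rw [map_zero, map_zero]
    exact (Real.exp_pos _).le
  · have hpos : 0 < av w (algebraMap K L a) := by
      apply (av w).pos
      rw [Ne, map_eq_zero]
      exact ha
    rw [abs_le] at h3
    refine ⟨(Real.log_le_iff_le_exp hpos).1 h3.2, fun _ => ?_⟩
    exact (Real.le_log_iff_exp_le hpos).1 h3.1

theorem far (v : Pl K) (r : ℕ) (hr : 2 ≤ r) {q : ℕ} (a : Fin q → K) (ha : Function.Injective a) :
    ∃ c0 c1 : ℝ, 0 ≤ c0 ∧ 0 ≤ c1 ∧ ∀ (L : Type) [Field L] [NumberField L] [Algebra K L],
      finrank K L = r → ∀ x : L, K⟮x⟯ = ⊤ → ∀ w ∈ ab L v,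
        (∀ i, -c1 ≤ la v (a i) x w) ∧
        ∀ i i', c0 < la v (a i) x w → c0 < la v (a i') x w → i = i' := by
  classical
  set B : ℝ := ∑ i, Real.exp (r * |wt v * Real.log (av v (a i))|) with hB
  have hB0 : 0 ≤ B := Finset.sum_nonneg fun _ _ => (Real.exp_pos _).le
  set M : ℝ := ∑ p : Fin q × Fin q, |wt v * Real.log (av v (a p.1 - a p.2))| with hM
  have hM0 : 0 ≤ M := Finset.sum_nonneg fun _ _ => abs_nonneg _
  have hr0 : (0 : ℝ) ≤ r := Nat.cast_nonneg r
  set T : ℝ := r * M + Real.log (4 * (B + 1)) with hT
  have hT0 : 0 ≤ T := add_nonneg (by positivity) (Real.log_nonneg (by linarith))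
  refine ⟨2 * T, 2 * Real.log (1 + B), by positivity,
    mul_nonneg (by norm_num) (Real.log_nonneg (by linarith)), ?_⟩
  intro L _ _ _ hrL x hx w hw
  have h2L : 2 ≤ finrank K L := by omega
  have hov := mem_ab.1 hw
  have hww := wt_pos w
  have hnn := one_le_nn hov
  have hnn0 : 0 < nn v w := by linarith
  have hw2 := wt_le_two w
  set m : ℝ := max 1 (av w x) with hm
  have hm1 : 1 ≤ m := le_max_left _ _
  have hm0 : 0 < m := by linarith
  have haB : ∀ i, av w (algebraMap K L (a i)) ≤ B := by
    intro i
    refine (av_K r hrL hw (a i)).1.trans ?_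
    exact Finset.single_le_sum (f := fun i => Real.exp (r * |wt v * Real.log (av v (a i))|))
      (fun _ _ => (Real.exp_pos _).le) (Finset.mem_univ i)
  constructor
  · intro i
    have hxa := irr_ne h2L hx (a i)
    have hxa' : 0 < av w (x - algebraMap K L (a i)) := (av w).pos hxa
    have h1 : av w (x - algebraMap K L (a i)) ≤ (1 + B) * m := by
      rw [sub_eq_add_neg]
      refine ((av w).add_le _ _).trans ?_
      rw [(av w).map_neg]
      have h3 := haB i
      have h4 : av w x ≤ m := le_max_right _ _
      nlinarith
    have h2 : -Real.log (1 + B) ≤ Real.log (m / av w (x - algebraMap K L (a i))) := by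
      rw [Real.log_div hm0.ne' hxa'.ne']
      have h3 := Real.log_le_log hxa' h1
      rw [Real.log_mul (by positivity) hm0.ne'] at h3
      linarith
    have h3 : wt w / nn v w ≤ 2 := by
      rw [div_le_iff₀ hnn0]
      linarith
    have h4 : 0 ≤ wt w / nn v w := by positivity
    have h5 : 0 ≤ Real.log (1 + B) := Real.log_nonneg (by linarith)
    show -(2 * Real.log (1 + B)) ≤ wt w / nn v w * Real.log (m / av w (x - algebraMap K L (a i)))
    have h6 := mul_le_mul_of_nonneg_left h2 h4
    have h7 := mul_le_mul_of_nonneg_right h3 h5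
    linarith
  · -- closeness
    have hcl : ∀ i, 2 * T < la v (a i) x w → av w (x - algebraMap K L (a i)) < Real.exp (-T) * m := by
      intro i hi
      have hxa := irr_ne h2L hx (a i)
      have hxa' : 0 < av w (x - algebraMap K L (a i)) := (av w).pos hxa
      have h1 : 2 * T < wt w / nn v w * Real.log (m / av w (x - algebraMap K L (a i))) := hi
      have h2 : T < Real.log (m / av w (x - algebraMap K L (a i))) := by
        by_contra hcon
        push Not at hcon
        have h3 : wt w / nn v w ≤ 2 := by
          rw [div_le_iff₀ hnn0]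
          linarith
        have h4 : 0 < wt w / nn v w := by positivity
        have h5 : wt w / nn v w * Real.log (m / av w (x - algebraMap K L (a i))) ≤
            wt w / nn v w * T := mul_le_mul_of_nonneg_left hcon h4.le
        have h6 : wt w / nn v w * T ≤ 2 * T := mul_le_mul_of_nonneg_right h3 hT0
        linarith
      rw [Real.log_div hm0.ne' hxa'.ne'] at h2
      have h3 : Real.log (av w (x - algebraMap K L (a i))) < -T + Real.log m := by linarith
      rw [Real.log_lt_iff_lt_exp hxa', Real.exp_add, Real.exp_log hm0] at h3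
      exact h3
    intro i i' h1 h2
    by_contra hii
    have h3 := hcl i h1
    have h4 := hcl i' h2
    set δ : ℝ := Real.exp (-T) with hδ
    have hδ0 : 0 < δ := Real.exp_pos _
    have hδ1 : δ ≤ 1 / (4 * (B + 1)) := by
      rw [hδ, hT, neg_add, Real.exp_add, Real.exp_neg (Real.log _), Real.exp_log (by positivity)]
      have h5 : Real.exp (-(r * M)) ≤ 1 := by
        rw [Real.exp_le_one_iff]
        have : 0 ≤ r * M := by positivity
        linarith
      have h6 : 0 < (4 * (B + 1))⁻¹ := by positivity
      rw [one_div]
      nlinarith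
    have hδ2 : δ ≤ 1 / 2 := hδ1.trans (by
      rw [div_le_div_iff₀ (by positivity) (by norm_num)]
      linarith)
    have hm2 : m ≤ 2 * (B + 1) := by
      have h5 : av w x ≤ δ * m + B := by
        have e1 : x = (x - algebraMap K L (a i)) + algebraMap K L (a i) := by ring
        have h6 : av w x ≤ av w (x - algebraMap K L (a i)) + av w (algebraMap K L (a i)) := by
          conv_lhs => rw [e1]
          exact (av w).add_le _ _
        have h7 := haB i
        linarith
      have h6 : m ≤ δ * m + (B + 1) := by
        refine max_le ?_ ?_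
        · have : 0 ≤ δ * m := by positivity
          linarith
        · linarith
      nlinarith
    have h5 : av w (algebraMap K L (a i - a i')) < δ * (4 * (B + 1)) := by
      have e1 : algebraMap K L (a i - a i') = (x - algebraMap K L (a i')) +
          -(x - algebraMap K L (a i)) := by
        rw [map_sub]
        ring
      have h6 : av w (algebraMap K L (a i - a i')) ≤ av w (x - algebraMap K L (a i')) +
          av w (x - algebraMap K L (a i)) := by
        rw [e1]
        refine ((av w).add_le _ _).trans ?_
        rw [(av w).map_neg]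
      have h7 : δ * m ≤ δ * (2 * (B + 1)) := mul_le_mul_of_nonneg_left hm2 hδ0.le
      linarith
    have h6 : δ * (4 * (B + 1)) = Real.exp (-(r * M)) := by
      rw [hδ, hT, neg_add, Real.exp_add, Real.exp_neg (Real.log _), Real.exp_log (by positivity)]
      field_simp
    have hne : a i - a i' ≠ 0 := by
      rw [sub_ne_zero]
      exact fun h => hii (ha h)
    have h7 := (av_K r hrL hw (a i - a i')).2 hne
    have h8 : |wt v * Real.log (av v (a i - a i'))| ≤ M :=
      Finset.single_le_sum (f := fun p : Fin q × Fin q => |wt v * Real.log (av v (a p.1 - a p.2))|)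
        (fun _ _ => abs_nonneg _) (Finset.mem_univ (i, i'))
    have h9 : Real.exp (-(r * M)) ≤ Real.exp (-(r * |wt v * Real.log (av v (a i - a i'))|)) := by
      rw [Real.exp_le_exp]
      have := mul_le_mul_of_nonneg_left h8 hr0
      linarith
    rw [h6] at h5
    linarith

end Pool.Agent.H85.X
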