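import Pool.Agent.H85.X.Sums
import Pool.Agent.H85.X.Disc

/-!
Linear substitutions, adapted bases of the forms of degree `N`, coefficient vectors.
-/

set_option autoImplicit false

namespace Pool.Agent.H85.X

open MvPolynomial Finset

variable {K : Type} [Field K] {n : ℕ}

/-- a linear substitution -/
noncomputable def sub (A : Matrix (Fin n) (Fin n) K) :
    MvPolynomial (Fin n) K →ₐ[K] MvPolynomial (Fin n) K :=
  aeval fun k => ∑ l, C (A k l) * X l

lemma eval_sub (A : Matrix (Fin n) (Fin n) K) (c : Fin n → K) (G : MvPolynomial (Fin n) K) :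
    eval c (sub A G) = eval (A.mulVec c) G := by
  have h : (aeval c : MvPolynomial (Fin n) K →ₐ[K] K).comp (sub A) = aeval (A.mulVec c) := by
    apply MvPolynomial.algHom_ext
    intro i
    simp [sub, Matrix.mulVec, dotProduct]
  have h1 := DFunLike.congr_fun h G
  rw [AlgHom.comp_apply] at h1
  rw [← MvPolynomial.coe_aeval_eq_eval, ← MvPolynomial.coe_aeval_eq_eval]
  exact h1

lemma sub_sub (A : Matrix (Fin n) (Fin n) K) (hA : IsUnit A.det) (G : MvPolynomial (Fin n) K) :
    sub A (sub A⁻¹ G) = G := by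
  have h : (sub A).comp (sub A⁻¹) = AlgHom.id K _ := by
    apply MvPolynomial.algHom_ext
    intro i
    simp only [sub, AlgHom.comp_apply, aeval_X, map_sum, map_mul, algHom_C, AlgHom.id_apply]
    simp only [algebraMap_eq, Finset.mul_sum]
    rw [Finset.sum_comm]
    have h1 : ∀ l, ∑ k, C (A⁻¹ i k) * (C (A k l) * X l) =
        (if i = l then (1 : MvPolynomial (Fin n) K) else 0) * X l := by
      intro l
      have h2 : (A⁻¹ * A) i l = (1 : Matrix (Fin n) (Fin n) K) i l := by
        rw [Matrix.nonsing_inv_mul A hA]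
      rw [Matrix.mul_apply, Matrix.one_apply] at h2
      have h3 : ∑ k, (C (A⁻¹ i k) * (C (A k l) * X l) : MvPolynomial (Fin n) K) =
          C (∑ k, A⁻¹ i k * A k l) * X l := by
        rw [map_sum, Finset.sum_mul]
        refine Finset.sum_congr rfl fun k _ => ?_
        rw [map_mul]
        ring
      rw [h3, h2]
      split_ifs <;> simp
    simp only [h1, ite_mul, one_mul, zero_mul, Finset.sum_ite_eq, Finset.mem_univ, if_true]
  exact DFunLike.congr_fun h G

lemma sub_inj (A : Matrix (Fin n) (Fin n) K) (hA : IsUnit A.det) :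
    Function.Injective (sub A) := by
  have hA' : IsUnit (A⁻¹).det := Matrix.isUnit_nonsing_inv_det A hA
  intro G G' h
  have h1 := sub_sub A⁻¹ hA' G
  have h2 := sub_sub A⁻¹ hA' G'
  rw [Matrix.nonsing_inv_nonsing_inv A hA] at h1 h2
  rw [← h1, ← h2, h]

lemma sub_hom (A : Matrix (Fin n) (Fin n) K) {G : MvPolynomial (Fin n) K} {N : ℕ}
    (hG : G.IsHomogeneous N) : (sub A G).IsHomogeneous N := by
  have h := hG.aeval (g := fun k => ∑ l, C (A k l) * X l) (n := 1) (fun k =>
    IsHomogeneous.sum _ _ _ fun l _ => isHomogeneous_C_mul_X _ _)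
  rwa [one_mul] at h

/-- the form with the exponent `α` -/
noncomputable def sf (A : Matrix (Fin n) (Fin n) K) (D : MvPolynomial (Fin n) K)
    (μ α : Fin n →₀ ℕ) : MvPolynomial (Fin n) K :=
  sub A (monomial (α - mu μ α • μ) 1) * D ^ mu μ α

lemma eval_sf (A : Matrix (Fin n) (Fin n) K) (D : MvPolynomial (Fin n) K) (μ α : Fin n →₀ ℕ)
    (c : Fin n → K) : eval c (sf A D μ α) =
      (∏ j, (A.mulVec c) j ^ ((α - mu μ α • μ) j)) * eval c D ^ mu μ α := by
  unfold sf
  rw [map_mul, eval_sub, map_pow, eval_monomial, one_mul, Finsupp.prod_fintype _ _ (by simp)]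

lemma sf_hom (A : Matrix (Fin n) (Fin n) K) {D : MvPolynomial (Fin n) K} {δ N : ℕ}
    (hD : D.IsHomogeneous δ) {μ α : Fin n →₀ ℕ} (hμ : ∑ j, μ j = δ) (hα : ∑ j, α j = N) :
    (sf A D μ α).IsHomogeneous N := by
  unfold sf
  have h1 : ((monomial (α - mu μ α • μ) 1 : MvPolynomial (Fin n) K)).IsHomogeneous
      (N - mu μ α * δ) := by
    refine isHomogeneous_monomial _ ?_
    rw [degree_eq_sum]
    have h2 := mu_le μ α
    have h3 : ∑ j, (α - mu μ α • μ) j + ∑ j, (mu μ α • μ) j = ∑ j, α j := by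
      rw [← Finset.sum_add_distrib]
      refine Finset.sum_congr rfl fun j _ => ?_
      rw [← Finsupp.add_apply, tsub_add_cancel_of_le h2]
    have h4 : ∑ j, (mu μ α • μ) j = mu μ α * δ := by
      simp only [Finsupp.smul_apply, smul_eq_mul]
      rw [← Finset.mul_sum, hμ]
    omega
  have h2 := (sub_hom A h1).mul (hD.pow (mu μ α))
  have h3 : N - mu μ α * δ + δ * mu μ α = N := by
    have h4 := mu_le μ α
    have h5 : ∑ j, (mu μ α • μ) j ≤ ∑ j, α j := Finset.sum_le_sum fun j _ => h4 j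
    have h6 : ∑ j, (mu μ α • μ) j = mu μ α * δ := by
      simp only [Finsupp.smul_apply, smul_eq_mul]
      rw [← Finset.mul_sum, hμ]
    rw [h6, hα] at h5
    rw [mul_comm δ]
    omega
  rwa [h3] at h2

/-- **the adapted basis** -/
theorem sf_indep (A : Matrix (Fin n) (Fin n) K) (hA : IsUnit A.det) (D : MvPolynomial (Fin n) K)
    (b : Fin n → ℝ) (μ : Fin n →₀ ℕ) (hμ : Low b μ (sub A⁻¹ D)) :
    LinearIndependent K (fun α : Fin n →₀ ℕ => sf A D μ α) := by
  have h1 := indep_pow b (sub A⁻¹ D) μ hμ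
  have h2 := h1.map' (sub A).toLinearMap (LinearMap.ker_eq_bot.2 (sub_inj A hA))
  have h3 : (fun α : Fin n →₀ ℕ => sf A D μ α) = (sub A).toLinearMap ∘ fun α : Fin n →₀ ℕ =>
      monomial (α - mu μ α • μ) (1 : K) * sub A⁻¹ D ^ mu μ α := by
    funext α
    show _ = sub A (monomial (α - mu μ α • μ) 1 * sub A⁻¹ D ^ mu μ α)
    rw [map_mul, map_pow, sub_sub A hA]
    rfl
  rw [h3]
  exact h2

lemma exists_low (b : Fin n → ℝ) (P : MvPolynomial (Fin n) K) (hP : P ≠ 0) :
    ∃ μ ∈ P.support, Low b μ P := by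
  obtain ⟨μ, h1, h2⟩ := exists_min b P.support (by
    rw [Finset.nonempty_iff_ne_empty, Ne, MvPolynomial.support_eq_empty]
    exact hP)
  exact ⟨μ, h1, mem_support_iff.1 h1, fun ν hν => h2 ν (mem_support_iff.2 hν)⟩

/-- enumeration of the exponents of degree `N` -/
noncomputable def en (n N : ℕ) : Fin (Ex n N).card ≃ {α // α ∈ Ex n N} := (Ex n N).equivFin.symm

/-- coefficient vector -/
noncomputable def vc (N : ℕ) (s : MvPolynomial (Fin n) K) : Fin (Ex n N).card → K :=
  fun k => coeff (en n N k).1 s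

/-- the Veronese vector -/
noncomputable def ver (N : ℕ) (c : Fin n → K) : Fin (Ex n N).card → K :=
  fun k => ∏ j, c j ^ ((en n N k).1 j)

lemma coeff_of_hom {s : MvPolynomial (Fin n) K} {N : ℕ} (hs : s.IsHomogeneous N)
    {α : Fin n →₀ ℕ} (h : coeff α s ≠ 0) : α ∈ Ex n N := by
  rw [mem_Ex, ← degree_eq_sum]
  by_contra hne
  exact h (hs.coeff_eq_zero hne)

lemma eval_vc {s : MvPolynomial (Fin n) K} {N : ℕ} (hs : s.IsHomogeneous N) (c : Fin n → K) :
    eval c s = ∑ k, vc N s k * ver N c k := by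
  classical
  rw [eval_eq', Finset.sum_subset (s₁ := s.support) (s₂ := Ex n N)]
  · rw [← Finset.sum_coe_sort]
    exact (Equiv.sum_comp (en n N) (fun α : {α // α ∈ Ex n N} =>
      coeff α.1 s * ∏ j, c j ^ (α.1 j))).symm
  · intro α hα
    exact coeff_of_hom hs (mem_support_iff.1 hα)
  · intro α _ hα
    rw [notMem_support_iff.1 hα, zero_mul]

lemma vc_indep {ι : Type} {N : ℕ} (s : ι → MvPolynomial (Fin n) K)
    (hs : ∀ i, (s i).IsHomogeneous N) (h : LinearIndependent K s) :
    LinearIndependent K fun i => vc N (s i) := by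
  rw [linearIndependent_iff'] at h ⊢
  intro t g hg
  refine h t g ?_
  ext α
  rw [coeff_sum, coeff_zero]
  by_cases hα : α ∈ Ex n N
  · have h1 := congrFun hg ((en n N).symm ⟨α, hα⟩)
    rw [Finset.sum_apply] at h1
    simp only [Pi.smul_apply, vc, Equiv.apply_symm_apply, Pi.zero_apply] at h1
    rw [← h1]
    exact Finset.sum_congr rfl fun i _ => coeff_smul _ _ _
  · refine Finset.sum_eq_zero fun i _ => ?_
    rw [coeff_smul]
    by_contra hc
    have h2 : coeff α (s i) ≠ 0 := by
      intro h0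
      exact hc (by rw [h0, smul_zero])
    exact hα (coeff_of_hom (hs i) h2)

end Pool.Agent.H85.X
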