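import Pool.Agent.H85.X.Norm

/-!
Interpolation: bounds for the coefficients of a polynomial by its values.
-/

set_option autoImplicit false

namespace Pool.Agent.H85.X

open Finset

theorem interp (r : ℕ) : ∃ γ : Fin (r + 1) → Fin (r + 1) → ℚ, ∀ (F : Type) [Field F] [CharZero F]
    (P : Polynomial F), P.natDegree ≤ r → ∀ j : Fin (r + 1),
      P.coeff j = ∑ k : Fin (r + 1), (γ j k : F) * P.eval ((k : ℕ) : F) := by
  classical
  set V : Matrix (Fin (r + 1)) (Fin (r + 1)) ℚ := Matrix.vandermonde fun k => ((k : ℕ) : ℚ) with hV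
  have hdet : IsUnit V.det := by
    rw [isUnit_iff_ne_zero, hV, Matrix.det_vandermonde_ne_zero_iff]
    intro a b hab
    have : ((a : ℕ) : ℚ) = (b : ℕ) := hab
    exact Fin.ext (by exact_mod_cast this)
  refine ⟨fun j k => V⁻¹ j k, ?_⟩
  intro F _ _ P hP j
  have hev : ∀ k : Fin (r + 1), P.eval ((k : ℕ) : F) =
      ∑ i : Fin (r + 1), ((V k i : ℚ) : F) * P.coeff i := by
    intro k
    rw [Polynomial.eval_eq_sum_range' (Nat.lt_succ_of_le hP), Finset.sum_range]
    refine Finset.sum_congr rfl fun i _ => ?_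
    rw [hV, Matrix.vandermonde_apply]
    push_cast
    ring
  have h1 : ∀ i : Fin (r + 1), ∑ k : Fin (r + 1), ((V⁻¹ j k : ℚ) : F) * ((V k i : ℚ) : F) =
      if j = i then 1 else 0 := by
    intro i
    have h2 : (V⁻¹ * V) j i = (1 : Matrix (Fin (r + 1)) (Fin (r + 1)) ℚ) j i := by
      rw [Matrix.nonsing_inv_mul V hdet]
    rw [Matrix.mul_apply, Matrix.one_apply] at h2
    have h3 : ((∑ k, V⁻¹ j k * V k i : ℚ) : F) = (((if j = i then 1 else 0 : ℚ)) : F) := by rw [h2]
    rw [Rat.cast_sum] at h3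
    simp only [Rat.cast_mul] at h3
    rw [h3]
    split_ifs <;> simp
  simp only [hev, Finset.mul_sum]
  rw [Finset.sum_comm]
  have h2 : ∀ i : Fin (r + 1), ∑ k : Fin (r + 1), ((V⁻¹ j k : ℚ) : F) * (((V k i : ℚ) : F) *
      P.coeff i) = (if j = i then 1 else 0) * P.coeff i := by
    intro i
    rw [← h1 i, Finset.sum_mul]
    exact Finset.sum_congr rfl fun k _ => by ring
  simp only [h2, ite_mul, one_mul, zero_mul, Finset.sum_ite_eq, Finset.mem_univ, if_true]

/-- the coefficients are bounded by the values at the points `a + k π` -/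
theorem coeff_bd (r : ℕ) (F : Type) [Field F] [CharZero F] (f : AbsoluteValue F ℝ) :
    ∃ C : ℝ, 1 ≤ C ∧ ∀ (P : Polynomial F), P.natDegree ≤ r → ∀ (a π : F) (B : ℝ),
      (∀ k : Fin (r + 1), f (P.eval (a + ((k : ℕ) : F) * π)) ≤ B) → ∀ j : ℕ, j ≤ r →
        f ((Polynomial.taylor a P).coeff j) * f π ^ j ≤ C * B := by
  classical
  obtain ⟨γ, hγ⟩ := interp r
  refine ⟨1 + ∑ j : Fin (r + 1), ∑ k : Fin (r + 1), f ((γ j k : ℚ) : F), ?_, ?_⟩
  · have : 0 ≤ ∑ j : Fin (r + 1), ∑ k : Fin (r + 1), f ((γ j k : ℚ) : F) :=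
      Finset.sum_nonneg fun _ _ => Finset.sum_nonneg fun _ _ => f.nonneg _
    linarith
  intro P hP a π B hB j hj
  have hB0 : 0 ≤ B := (f.nonneg _).trans (hB 0)
  set Q : Polynomial F := (Polynomial.taylor a P).comp (Polynomial.C π * Polynomial.X) with hQ
  have hQd : Q.natDegree ≤ r := by
    rw [hQ]
    refine (Polynomial.natDegree_comp_le).trans ?_
    rw [Polynomial.natDegree_taylor]
    calc P.natDegree * (Polynomial.C π * Polynomial.X : Polynomial F).natDegree ≤ P.natDegree * 1 :=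
          Nat.mul_le_mul_left _ ((Polynomial.natDegree_C_mul_le _ _).trans Polynomial.natDegree_X_le)
      _ ≤ r := by omega
  have h1 := hγ F Q hQd ⟨j, by omega⟩
  have h2 : Q.coeff j = (Polynomial.taylor a P).coeff j * π ^ j := by
    rw [hQ, Polynomial.comp_C_mul_X_coeff]
  have h3 : ∀ k : Fin (r + 1), Q.eval ((k : ℕ) : F) = P.eval (a + ((k : ℕ) : F) * π) := by
    intro k
    rw [hQ, Polynomial.eval_comp, Polynomial.taylor_eval]
    congr 1
    simp only [Polynomial.eval_mul, Polynomial.eval_C, Polynomial.eval_X]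
    ring
  have h4 : f ((Polynomial.taylor a P).coeff j) * f π ^ j = f (Q.coeff j) := by
    rw [h2, map_mul, map_pow]
  rw [h4]
  have h5 : Q.coeff j = ∑ k : Fin (r + 1), ((γ ⟨j, by omega⟩ k : ℚ) : F) * Q.eval ((k : ℕ) : F) := h1
  rw [h5]
  refine (f.sum_le _ _).trans ?_
  have h6 : ∀ k : Fin (r + 1), f (((γ ⟨j, by omega⟩ k : ℚ) : F) * Q.eval ((k : ℕ) : F)) ≤
      f ((γ ⟨j, by omega⟩ k : ℚ) : F) * B := by
    intro k
    rw [map_mul, h3]
    exact mul_le_mul_of_nonneg_left (hB k) (f.nonneg _)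
  refine (Finset.sum_le_sum fun k _ => h6 k).trans ?_
  rw [← Finset.sum_mul]
  refine mul_le_mul_of_nonneg_right ?_ hB0
  have h7 := Finset.single_le_sum (f := fun j : Fin (r + 1) => ∑ k : Fin (r + 1),
    f ((γ j k : ℚ) : F)) (fun _ _ => Finset.sum_nonneg fun _ _ => f.nonneg _)
    (Finset.mem_univ (⟨j, by omega⟩ : Fin (r + 1)))
  have h8 : ∑ k : Fin (r + 1), f ((γ ⟨j, by omega⟩ k : ℚ) : F) ≤
    ∑ j : Fin (r + 1), ∑ k : Fin (r + 1), f ((γ j k : ℚ) : F) := h7
  linarith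

end Pool.Agent.H85.X
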