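import Pool.Agent.H85.X.Prof
import Pool.Agent.H85.X.Interp

/-!
Polynomials with given distances of their zeros to given points: the order of the discriminant.
-/

set_option autoImplicit false

namespace Pool.Agent.H85.X

open Finset

lemma exists_dist {q : ℕ} (a : Fin q → ℂ) (ha : Function.Injective a) :
    ∃ d : ℝ, 0 < d ∧ d ≤ 1 ∧ ∀ i i', i ≠ i' → d ≤ ‖a i - a i'‖ := by
  classical
  set S : ℝ := ∑ p : Fin q × Fin q, ‖a p.1 - a p.2‖⁻¹ with hS
  have hS0 : 0 ≤ S := Finset.sum_nonneg fun _ _ => inv_nonneg.2 (norm_nonneg _)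
  refine ⟨(1 + S)⁻¹, by positivity, inv_le_one_of_one_le₀ (by linarith), ?_⟩
  intro i i' hii
  have hpos : 0 < ‖a i - a i'‖ := by
    rw [norm_pos_iff, sub_ne_zero]
    exact fun h => hii (ha h)
  have h1 := Finset.single_le_sum (f := fun p : Fin q × Fin q => ‖a p.1 - a p.2‖⁻¹)
    (fun _ _ => inv_nonneg.2 (norm_nonneg _)) (Finset.mem_univ (i, i'))
  have h2 : ‖a i - a i'‖⁻¹ ≤ 1 + S := by
    have : ‖a i - a i'‖⁻¹ ≤ S := h1
    linarith
  exact inv_le_of_inv_le₀ hpos h2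

section setup

variable {q r : ℕ} (a : Fin q → ℂ) (N : Fin q → ℕ) (κ T : ℝ) (Λ : Fin q → ℕ → ℝ)

/-- the zeros -/
noncomputable def zr : ((Σ i, Fin (N i)) ⊕ Fin (r - ∑ i, N i)) → ℂ
  | Sum.inl x => a x.1 + (((((x.2 : ℕ) : ℝ) + 1) * κ * Real.exp (-Λ x.1 x.2) : ℝ) : ℂ)
  | Sum.inr k => ((T + ((k : ℕ) : ℝ) : ℝ) : ℂ)

/-- the interaction of the zeros -/
noncomputable def wz : ((Σ i, Fin (N i)) ⊕ Fin (r - ∑ i, N i)) →
    ((Σ i, Fin (N i)) ⊕ Fin (r - ∑ i, N i)) → ℝ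
  | Sum.inl x, Sum.inl y => if x.1 = y.1 then Λ x.1 (max (x.2 : ℕ) y.2) else 0
  | _, _ => 0

/-- the weight of a zero, seen from the point `a i` at the scale `s` -/
noncomputable def oz (i : Fin q) (s : ℝ) : ((Σ i, Fin (N i)) ⊕ Fin (r - ∑ i, N i)) → ℝ
  | Sum.inl x => if x.1 = i then min (Λ i x.2) s else 0
  | Sum.inr _ => 0

lemma sum_oz (hN : ∑ i, N i ≤ r) (h0 : ∀ i k, N i ≤ k → Λ i k = 0) (i : Fin q) {s : ℝ}
    (hs : 0 ≤ s) : ∑ x, oz (r := r) N Λ i s x = ∑ l ∈ range r, min (Λ i l) s := by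
  classical
  rw [Fintype.sum_sum_type]
  have h1 : ∑ x : Fin (r - ∑ i, N i), oz (r := r) N Λ i s (Sum.inr x) = 0 :=
    Finset.sum_eq_zero fun _ _ => rfl
  rw [h1, add_zero, Fintype.sum_sigma, Finset.sum_eq_single i]
  · have hNi : N i ≤ r := (Finset.single_le_sum (f := N) (fun _ _ => Nat.zero_le _)
      (Finset.mem_univ i)).trans hN
    have h2 : ∑ y : Fin (N i), oz (r := r) N Λ i s (Sum.inl ⟨i, y⟩) =
        ∑ y : Fin (N i), min (Λ i y) s := by
      refine Finset.sum_congr rfl fun y _ => ?_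
      simp [oz]
    rw [h2, ← Finset.sum_range (fun l => min (Λ i l) s)]
    refine Finset.sum_subset (Finset.range_subset_range.2 hNi) fun l _ hl => ?_
    rw [Finset.mem_range, not_lt] at hl
    rw [h0 i l hl, min_eq_left hs]
  · intro i' _ hii
    refine Finset.sum_eq_zero fun y _ => ?_
    simp [oz, hii]
  · intro h
    exact absurd (Finset.mem_univ _) h

lemma sum_wz (hN : ∑ i, N i ≤ r) (h0 : ∀ i k, N i ≤ k → Λ i k = 0) :
    ∑ x, ∑ y ∈ univ.erase x, wz (r := r) N Λ x y = ∑ i, ∑ l ∈ range r, 2 * (l : ℝ) * Λ i l := by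
  classical
  have h1 : ∀ x, ∑ y ∈ univ.erase x, wz (r := r) N Λ x y =
      ∑ y, wz (r := r) N Λ x y - wz (r := r) N Λ x x := by
    intro x
    rw [← Finset.add_sum_erase univ _ (Finset.mem_univ x)]
    ring
  rw [Finset.sum_congr rfl fun x _ => h1 x, Finset.sum_sub_distrib]
  have h2 : ∀ x : Σ i, Fin (N i), ∑ y, wz (r := r) N Λ (Sum.inl x) y =
      ∑ p' ∈ range (N x.1), Λ x.1 (max (x.2 : ℕ) p') := by
    intro x
    rw [Fintype.sum_sum_type]
    have h3 : ∑ y : Fin (r - ∑ i, N i), wz (r := r) N Λ (Sum.inl x) (Sum.inr y) = 0 :=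
      Finset.sum_eq_zero fun _ _ => rfl
    rw [h3, add_zero, Fintype.sum_sigma, Finset.sum_eq_single x.1]
    · rw [Finset.sum_range (fun p' => Λ x.1 (max (x.2 : ℕ) p'))]
      refine Finset.sum_congr rfl fun y _ => ?_
      simp [wz]
    · intro i' _ hii
      refine Finset.sum_eq_zero fun y _ => ?_
      simp [wz, Ne.symm hii]
    · intro h
      exact absurd (Finset.mem_univ _) h
  have h3 : ∑ x, ∑ y, wz (r := r) N Λ x y = ∑ i, ∑ p ∈ range (N i), (2 * (p : ℝ) + 1) * Λ i p := by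
    rw [Fintype.sum_sum_type]
    have h4 : ∑ x : Fin (r - ∑ i, N i), ∑ y, wz (r := r) N Λ (Sum.inr x) y = 0 :=
      Finset.sum_eq_zero fun x _ => Finset.sum_eq_zero fun y _ => by
        cases y <;> rfl
    rw [h4, add_zero, Finset.sum_congr rfl fun x _ => h2 x, Fintype.sum_sigma]
    refine Finset.sum_congr rfl fun i _ => ?_
    rw [← lemS, Finset.sum_range (fun p => ∑ p' ∈ range (N i), Λ i (max p p'))]
  have h4 : ∑ x, wz (r := r) N Λ x x = ∑ i, ∑ p ∈ range (N i), Λ i p := by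
    rw [Fintype.sum_sum_type]
    have h5 : ∑ x : Fin (r - ∑ i, N i), wz (r := r) N Λ (Sum.inr x) (Sum.inr x) = 0 :=
      Finset.sum_eq_zero fun x _ => rfl
    rw [h5, add_zero, Fintype.sum_sigma]
    refine Finset.sum_congr rfl fun i _ => ?_
    rw [Finset.sum_range]
    refine Finset.sum_congr rfl fun p _ => ?_
    simp [wz]
  rw [h3, h4, ← Finset.sum_sub_distrib]
  refine Finset.sum_congr rfl fun i _ => ?_
  have hNi : N i ≤ r := (Finset.single_le_sum (f := N) (fun _ _ => Nat.zero_le _)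
      (Finset.mem_univ i)).trans hN
  rw [← Finset.sum_sub_distrib]
  have h5 : ∑ p ∈ range (N i), ((2 * (p : ℝ) + 1) * Λ i p - Λ i p) =
      ∑ p ∈ range (N i), 2 * (p : ℝ) * Λ i p := Finset.sum_congr rfl fun p _ => by ring
  rw [h5]
  refine Finset.sum_subset (Finset.range_subset_range.2 hNi) fun l _ hl => ?_
  rw [Finset.mem_range, not_lt] at hl
  rw [h0 i l hl, mul_zero]

/-- upper bounds for the values -/
lemma zr_up {A0 : ℝ} (hA : ∀ i, ‖a i‖ ≤ A0) (hκ0 : 0 < κ) (hκ1 : κ * (r + 1) ≤ 1)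
    (hT : T = A0 + 2) (hN : ∑ i, N i ≤ r) (hΛ : ∀ i k, 0 ≤ Λ i k) (i : Fin q) {s : ℝ} (hs : 0 ≤ s)
    (k : ℕ) (hk : k ≤ r) (x : (Σ i, Fin (N i)) ⊕ Fin (r - ∑ i, N i)) :
    ‖a i + (k : ℂ) * ((Real.exp (-s) : ℝ) : ℂ) - zr a N κ T Λ x‖ ≤
      (2 * A0 + 2 * r + 5) * Real.exp (-oz N Λ i s x) := by
  have hr0 : (0 : ℝ) ≤ r := Nat.cast_nonneg r
  have hA0 : 0 ≤ A0 := (norm_nonneg _).trans (hA i)
  have hkr : (k : ℝ) ≤ r := by exact_mod_cast hk
  have hk0 : (0 : ℝ) ≤ k := Nat.cast_nonneg k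
  have hes : Real.exp (-s) ≤ 1 := by
    rw [Real.exp_le_one_iff]
    linarith
  have hes0 := Real.exp_pos (-s)
  have hκ2 : κ ≤ 1 := by nlinarith
  have hp : ∀ (i : Fin q) (p : Fin (N i)), ((p : ℕ) : ℝ) + 1 ≤ r + 1 := by
    intro i p
    have h1 := p.2
    have h2 : N i ≤ r := (Finset.single_le_sum (f := N) (fun _ _ => Nat.zero_le _)
      (Finset.mem_univ i)).trans hN
    have h3 : (p : ℕ) ≤ r := by omega
    have : ((p : ℕ) : ℝ) ≤ r := by exact_mod_cast h3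
    linarith
  have hz1 : ‖(k : ℂ) * ((Real.exp (-s) : ℝ) : ℂ)‖ ≤ r := by
    rw [norm_mul, Complex.norm_real, Complex.norm_natCast, Real.norm_of_nonneg hes0.le]
    calc (k : ℝ) * Real.exp (-s) ≤ r * 1 := mul_le_mul hkr hes hes0.le hr0
      _ = r := mul_one _
  rcases x with ⟨i', p⟩ | x
  · have hel : Real.exp (-Λ i' p) ≤ 1 := by
      rw [Real.exp_le_one_iff]
      linarith [hΛ i' p]
    have hel0 := Real.exp_pos (-Λ i' p)
    have hpp := hp i' p
    have hp0 : (0 : ℝ) ≤ ((p : ℕ) : ℝ) + 1 := by positivity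
    have hz2 : ‖((((((p : ℕ) : ℝ) + 1) * κ * Real.exp (-Λ i' p) : ℝ)) : ℂ)‖ =
        (((p : ℕ) : ℝ) + 1) * κ * Real.exp (-Λ i' p) := by
      rw [Complex.norm_real, Real.norm_of_nonneg (by positivity)]
    have hz3 : (((p : ℕ) : ℝ) + 1) * κ ≤ 1 := by
      calc (((p : ℕ) : ℝ) + 1) * κ ≤ (r + 1) * κ := mul_le_mul_of_nonneg_right hpp hκ0.le
        _ ≤ 1 := by linarith
    by_cases hii : i' = i
    · subst hii
      simp only [zr, oz, if_true]
      set mn := min (Λ i' p) s with hmn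
      have hm1 : Real.exp (-s) ≤ Real.exp (-mn) := by
        rw [Real.exp_le_exp]
        have := min_le_right (Λ i' p) s
        linarith
      have hm2 : Real.exp (-Λ i' p) ≤ Real.exp (-mn) := by
        rw [Real.exp_le_exp]
        have := min_le_left (Λ i' p) s
        linarith
      have hm0 := Real.exp_pos (-mn)
      have e1 : a i' + (k : ℂ) * ((Real.exp (-s) : ℝ) : ℂ) -
          (a i' + ((((((p : ℕ) : ℝ) + 1) * κ * Real.exp (-Λ i' p) : ℝ)) : ℂ)) =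
          (k : ℂ) * ((Real.exp (-s) : ℝ) : ℂ) -
            ((((((p : ℕ) : ℝ) + 1) * κ * Real.exp (-Λ i' p) : ℝ)) : ℂ) := by ring
      rw [e1]
      refine (norm_sub_le _ _).trans ?_
      rw [hz2, norm_mul, Complex.norm_real, Complex.norm_natCast, Real.norm_of_nonneg hes0.le]
      have h1 : (k : ℝ) * Real.exp (-s) ≤ r * Real.exp (-mn) := mul_le_mul hkr hm1 hes0.le hr0
      have h2 : (((p : ℕ) : ℝ) + 1) * κ * Real.exp (-Λ i' p) ≤ 1 * Real.exp (-mn) :=
        mul_le_mul hz3 hm2 hel0.le zero_le_one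
      nlinarith
    · simp only [zr, oz, if_neg hii, neg_zero, Real.exp_zero, mul_one]
      have h1 : (((p : ℕ) : ℝ) + 1) * κ * Real.exp (-Λ i' p) ≤ 1 * 1 :=
        mul_le_mul hz3 hel hel0.le zero_le_one
      have h2 := hA i
      have h3 := hA i'
      refine (norm_sub_le _ _).trans ?_
      have h4 := norm_add_le (a i) ((k : ℂ) * ((Real.exp (-s) : ℝ) : ℂ))
      have h5 := norm_add_le (a i') ((((((p : ℕ) : ℝ) + 1) * κ * Real.exp (-Λ i' p) : ℝ)) : ℂ)
      rw [hz2] at h5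
      linarith
  · simp only [zr, oz, neg_zero, Real.exp_zero, mul_one]
    have h1 : ‖((T + ((x : ℕ) : ℝ) : ℝ) : ℂ)‖ ≤ A0 + 2 + r := by
      rw [Complex.norm_real, Real.norm_of_nonneg (by rw [hT]; positivity), hT]
      have h2 := x.2
      have h3 : (x : ℕ) ≤ r := by omega
      have : ((x : ℕ) : ℝ) ≤ r := by exact_mod_cast h3
      linarith
    refine (norm_sub_le _ _).trans ?_
    have h4 := norm_add_le (a i) ((k : ℂ) * ((Real.exp (-s) : ℝ) : ℂ))
    have h2 := hA i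
    linarith

/-- lower bounds for the differences -/
lemma zr_low {A0 d : ℝ} (hA : ∀ i, ‖a i‖ ≤ A0) (hκ0 : 0 < κ) (hκ1 : κ * (4 * (r + 1)) ≤ d)
    (hd1 : d ≤ 1) (hd : ∀ i i', i ≠ i' → d ≤ ‖a i - a i'‖)
    (hT : T = A0 + 2) (hN : ∑ i, N i ≤ r) (hΛ : ∀ i k, 0 ≤ Λ i k) (hanti : ∀ i, Antitone (Λ i))
    (x y : (Σ i, Fin (N i)) ⊕ Fin (r - ∑ i, N i)) (hxy : x ≠ y) :
    κ * Real.exp (-wz N Λ x y) ≤ ‖zr a N κ T Λ x - zr a N κ T Λ y‖ := by
  have hr0 : (0 : ℝ) ≤ r := Nat.cast_nonneg r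
  have hκ4 : κ ≤ 1 / 4 := by nlinarith
  have hp : ∀ (i : Fin q) (p : Fin (N i)), ((p : ℕ) : ℝ) + 1 ≤ r + 1 := by
    intro i p
    have h1 := p.2
    have h2 : N i ≤ r := (Finset.single_le_sum (f := N) (fun _ _ => Nat.zero_le _)
      (Finset.mem_univ i)).trans hN
    have h3 : (p : ℕ) ≤ r := by omega
    have : ((p : ℕ) : ℝ) ≤ r := by exact_mod_cast h3
    linarith
  -- small displacement
  have hsm : ∀ (i : Fin q) (p : Fin (N i)),
      ‖((((((p : ℕ) : ℝ) + 1) * κ * Real.exp (-Λ i p) : ℝ)) : ℂ)‖ ≤ d / 4 := by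
    intro i p
    have hel : Real.exp (-Λ i p) ≤ 1 := by
      rw [Real.exp_le_one_iff]
      linarith [hΛ i p]
    have hel0 := Real.exp_pos (-Λ i p)
    have hpp := hp i p
    rw [Complex.norm_real, Real.norm_of_nonneg (by positivity)]
    have h1 : (((p : ℕ) : ℝ) + 1) * κ ≤ (r + 1) * κ := mul_le_mul_of_nonneg_right hpp hκ0.le
    have h2 : (((p : ℕ) : ℝ) + 1) * κ * Real.exp (-Λ i p) ≤ (r + 1) * κ * 1 :=
      mul_le_mul h1 hel hel0.le (by positivity)
    linarith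
  -- the case of different types
  have hgen : ∀ (i : Fin q) (p : Fin (N i)) (k : ℕ), κ ≤
      ‖(a i + ((((((p : ℕ) : ℝ) + 1) * κ * Real.exp (-Λ i p) : ℝ)) : ℂ)) -
        ((T + ((k : ℕ) : ℝ) : ℝ) : ℂ)‖ := by
    intro i p k
    have h1 := hsm i p
    have h2 := hA i
    have h3 : ‖((T + ((k : ℕ) : ℝ) : ℝ) : ℂ)‖ = T + k := by
      have hA0 : 0 ≤ A0 := (norm_nonneg _).trans (hA i)
      rw [Complex.norm_real, Real.norm_of_nonneg (by rw [hT]; positivity)]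
    have h4 := norm_sub_norm_le ((T + ((k : ℕ) : ℝ) : ℝ) : ℂ)
      (a i + ((((((p : ℕ) : ℝ) + 1) * κ * Real.exp (-Λ i p) : ℝ)) : ℂ))
    rw [norm_sub_rev] at h4
    have h5 := norm_add_le (a i) ((((((p : ℕ) : ℝ) + 1) * κ * Real.exp (-Λ i p) : ℝ)) : ℂ)
    have h6 : (0 : ℝ) ≤ k := Nat.cast_nonneg k
    rw [h3] at h4
    linarith
  rcases x with ⟨i, p⟩ | x <;> rcases y with ⟨i', p'⟩ | y
  · by_cases hii : i = i'
    · subst hii
      have hpp : (p : ℕ) ≠ (p' : ℕ) := by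
        intro h
        exact hxy (by rw [Fin.ext h])
      simp only [zr, wz, if_true]
      have e1 : a i + ((((((p : ℕ) : ℝ) + 1) * κ * Real.exp (-Λ i p) : ℝ)) : ℂ) -
          (a i + ((((((p' : ℕ) : ℝ) + 1) * κ * Real.exp (-Λ i p') : ℝ)) : ℂ)) =
          (((((p : ℕ) : ℝ) + 1) * κ * Real.exp (-Λ i p) -
            (((p' : ℕ) : ℝ) + 1) * κ * Real.exp (-Λ i p') : ℝ) : ℂ) := by
        push_cast
        ring
      rw [e1, Complex.norm_real, Real.norm_eq_abs]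
      -- ordered version
      have hord : ∀ u u' : ℕ, u < u' → κ * Real.exp (-Λ i u') ≤
          ((u' : ℝ) + 1) * κ * Real.exp (-Λ i u') - ((u : ℝ) + 1) * κ * Real.exp (-Λ i u) := by
        intro u u' huu
        have h1 : Real.exp (-Λ i u) ≤ Real.exp (-Λ i u') := by
          rw [Real.exp_le_exp]
          have := hanti i huu.le
          linarith
        have h2 : (u : ℝ) + 1 ≤ u' := by exact_mod_cast huu
        have h3 := Real.exp_pos (-Λ i u')
        have h4 := Real.exp_pos (-Λ i u)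
        have h5 : ((u : ℝ) + 1) * κ * Real.exp (-Λ i u) ≤ u' * κ * Real.exp (-Λ i u') :=
          mul_le_mul (mul_le_mul_of_nonneg_right h2 hκ0.le) h1 h4.le (by positivity)
        linarith
      rcases lt_or_gt_of_ne hpp with h | h
      · rw [max_eq_right h.le, abs_sub_comm]
        exact (hord _ _ h).trans (le_abs_self _)
      · rw [max_eq_left h.le]
        exact (hord _ _ h).trans (le_abs_self _)
    · simp only [zr, wz, if_neg hii, neg_zero, Real.exp_zero, mul_one]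
      have h1 := hd i i' hii
      have h2 := hsm i p
      have h3 := hsm i' p'
      have e1 : a i + ((((((p : ℕ) : ℝ) + 1) * κ * Real.exp (-Λ i p) : ℝ)) : ℂ) -
          (a i' + ((((((p' : ℕ) : ℝ) + 1) * κ * Real.exp (-Λ i' p') : ℝ)) : ℂ)) =
          (a i - a i') - (((((((p' : ℕ) : ℝ) + 1) * κ * Real.exp (-Λ i' p') : ℝ)) : ℂ) -
          ((((((p : ℕ) : ℝ) + 1) * κ * Real.exp (-Λ i p) : ℝ)) : ℂ)) := by ring
      rw [e1]
      have h4 := norm_sub_norm_le (a i - a i') (((((((p' : ℕ) : ℝ) + 1) * κ *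
        Real.exp (-Λ i' p') : ℝ)) : ℂ) -
          ((((((p : ℕ) : ℝ) + 1) * κ * Real.exp (-Λ i p) : ℝ)) : ℂ))
      have h5 := norm_sub_le ((((((p' : ℕ) : ℝ) + 1) * κ * Real.exp (-Λ i' p') : ℝ)) : ℂ)
        ((((((p : ℕ) : ℝ) + 1) * κ * Real.exp (-Λ i p) : ℝ)) : ℂ)
      nlinarith
  · simp only [zr, wz, neg_zero, Real.exp_zero, mul_one]
    exact hgen i p y
  · simp only [zr, wz, neg_zero, Real.exp_zero, mul_one]
    rw [norm_sub_rev]
    exact hgen i' p' x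
  · have hne : (x : ℕ) ≠ (y : ℕ) := by
      intro h
      exact hxy (by rw [Fin.ext h])
    simp only [zr, wz, neg_zero, Real.exp_zero, mul_one]
    have e1 : ((T + ((x : ℕ) : ℝ) : ℝ) : ℂ) - ((T + ((y : ℕ) : ℝ) : ℝ) : ℂ) =
        ((((x : ℕ) : ℝ) - ((y : ℕ) : ℝ) : ℝ) : ℂ) := by
      push_cast
      ring
    rw [e1, Complex.norm_real, Real.norm_eq_abs]
    have h1 : (1 : ℝ) ≤ |((x : ℕ) : ℝ) - ((y : ℕ) : ℝ)| := by
      rcases lt_or_gt_of_ne hne with h | h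
      · rw [abs_sub_comm]
        have : ((x : ℕ) : ℝ) + 1 ≤ ((y : ℕ) : ℝ) := by exact_mod_cast h
        exact le_trans (by linarith) (le_abs_self _)
      · have : ((y : ℕ) : ℝ) + 1 ≤ ((x : ℕ) : ℝ) := by exact_mod_cast h
        exact le_trans (by linarith) (le_abs_self _)
    linarith

end setup

end Pool.Agent.H85.X
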