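import Pool.Agent.H85.X.Gen

/-!
The weight of the discriminant.
-/

set_option autoImplicit false

namespace Pool.Agent.H85.X

open Finset

/-- the absolute value on `ℂ` -/
noncomputable def cab : AbsoluteValue ℂ ℝ := IsAbsoluteValue.toAbsoluteValue (norm : ℂ → ℝ)

lemma cab_apply (z : ℂ) : cab z = ‖z‖ := rfl

/-- the discriminant form over `K` -/
noncomputable def DK (K : Type) [Field K] (r : ℕ) : MvPolynomial (Fin (r + 1)) K :=
  MvPolynomial.map (Int.castRingHom K) (De r)

lemma DK_hom (K : Type) [Field K] {r : ℕ} (hr : 2 ≤ r) : (DK K r).IsHomogeneous (2 * r - 2) :=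
  (De_hom r hr).map _

lemma DK_eval {K : Type} [Field K] {r : ℕ} (hr : 1 ≤ r) (c : Fin (r + 1) → K)
    (h : c (Fin.last r) ≠ 0) : MvPolynomial.eval c (DK K r) = (PF c).discr := by
  unfold DK
  rw [MvPolynomial.eval_map, ← De_eval hr c h, MvPolynomial.aeval_def]
  rfl

lemma DK_eval₂ {K : Type} [Field K] (σ : K →+* ℂ) {r : ℕ} (hr : 1 ≤ r) (c : Fin (r + 1) → ℂ)
    (h : c (Fin.last r) ≠ 0) : MvPolynomial.eval₂ σ c (DK K r) = (PF c).discr := by
  unfold DK
  rw [MvPolynomial.eval₂_map, ← De_eval hr c h, MvPolynomial.aeval_def]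
  congr 1
  ext x
  simp

lemma eval₂_sub {K : Type} [Field K] (σ : K →+* ℂ) {n : ℕ} (A : Matrix (Fin n) (Fin n) K)
    (c : Fin n → ℂ) (G : MvPolynomial (Fin n) K) :
    MvPolynomial.eval₂ σ c (sub A G) = MvPolynomial.eval₂ σ ((A.map σ).mulVec c) G := by
  have h : (MvPolynomial.eval₂Hom σ c).comp (sub A).toRingHom =
      MvPolynomial.eval₂Hom σ ((A.map σ).mulVec c) := by
    apply MvPolynomial.ringHom_ext
    · intro x
      simp [sub]
    · intro i
      simp [sub, Matrix.mulVec, dotProduct]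
  exact DFunLike.congr_fun h G

lemma HM_map {K : Type} [Field K] (σ : K →+* ℂ) {q r : ℕ} (a : Fin q → K) (m : Fin q → ℕ)
    (e : Fin (r + 1) ≃ Σ i, Fin (m i)) : (HM a m e).map σ = HM (fun i => σ (a i)) m e := by
  ext k l
  rw [Matrix.map_apply]
  unfold HM
  rw [← Polynomial.coeff_map, Polynomial.map_taylor, Polynomial.map_pow, Polynomial.map_X]

theorem gen_min {K : Type} [Field K] (σ : K →+* ℂ) {q r : ℕ} (hr : 2 ≤ r) (a : Fin q → K)
    (ha : Function.Injective a) (m : Fin q → ℕ) (e : Fin (r + 1) ≃ Σ i, Fin (m i))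
    (N : Fin q → ℕ) (hN : ∑ i, N i ≤ r) :
    ∃ C : ℝ, 0 ≤ C ∧ ∀ Λ : Fin q → ℕ → ℝ, (∀ i, Antitone (Λ i)) → (∀ i k, 0 ≤ Λ i k) →
      (∀ i k, N i ≤ k → Λ i k = 0) → ∀ μ : Fin (r + 1) →₀ ℕ,
        (∀ ν ∈ (sub (HM a m e)⁻¹ (DK K r)).support, bw (bb e Λ) μ ≤ bw (bb e Λ) ν) →
          bw (bb e Λ) μ ≤ ∑ i, ∑ l ∈ range r, 2 * (l : ℝ) * Λ i l + C := by
  classical
  set a' : Fin q → ℂ := fun i => σ (a i) with ha'
  have ha'i : Function.Injective a' := σ.injective.comp ha
  obtain ⟨d, hd0, hd1, hd⟩ := exists_dist a' ha'i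
  have hr0 : (0 : ℝ) ≤ r := Nat.cast_nonneg r
  set κ : ℝ := d / (4 * (r + 1)) with hκ
  have hκ0 : 0 < κ := by positivity
  have hκ1 : κ * (4 * (r + 1)) ≤ d := by
    rw [hκ, div_mul_cancel₀ _ (by positivity)]
  have hκ2 : κ * (r + 1) ≤ 1 := by
    have : κ * (r + 1) = d / 4 := by
      rw [hκ]
      field_simp
    rw [this]
    linarith
  set A0 : ℝ := ∑ i, ‖a' i‖ with hA0
  have hA : ∀ i, ‖a' i‖ ≤ A0 := fun i => Finset.single_le_sum (f := fun i => ‖a' i‖)
    (fun _ _ => norm_nonneg _) (Finset.mem_univ i)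
  have hA00 : 0 ≤ A0 := Finset.sum_nonneg fun _ _ => norm_nonneg _
  set T : ℝ := A0 + 2 with hT
  set M1 : ℝ := 2 * A0 + 2 * r + 5 with hM1
  have hM1' : 1 ≤ M1 := by linarith
  obtain ⟨C0, hC01, hC0⟩ := coeff_bd r ℂ cab
  set C2 : ℝ := C0 * M1 ^ r with hC2
  have hC21 : 1 ≤ C2 := by
    have := one_le_pow₀ hM1' (n := r)
    nlinarith
  set A := HM a m e with hAm
  have hAdet : IsUnit A.det := HM_det a ha m e
  set P := sub A⁻¹ (DK K r) with hP
  have hPhom : P.IsHomogeneous (2 * r - 2) := sub_hom _ (DK_hom K hr)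
  set W : ℝ := ∑ ν ∈ P.support, ‖σ (P.coeff ν)‖ * C2 ^ (2 * r - 2) with hW
  have hW0 : 0 ≤ W := Finset.sum_nonneg fun _ _ => by positivity
  set R := ((Σ i, Fin (N i)) ⊕ Fin (r - ∑ i, N i)) with hR
  have hcardR : Fintype.card R = r := by
    rw [Fintype.card_sum, Fintype.card_sigma, Fintype.card_fin]
    simp only [Fintype.card_fin]
    omega
  set κE : ℝ := ∏ x : R, ∏ y ∈ univ.erase x, κ with hκE
  have hκE0 : 0 < κE := Finset.prod_pos fun _ _ => Finset.prod_pos fun _ _ => hκ0
  refine ⟨|Real.log W - Real.log κE|, abs_nonneg _, ?_⟩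
  intro Λ hanti hΛ h0 μ hμ
  set t : R → ℂ := zr a' N κ T Λ with ht
  set F : Polynomial ℂ := ∏ x, (Polynomial.X - Polynomial.C (t x)) with hF
  have hFd : F.natDegree = r := by
    rw [hF, Polynomial.natDegree_prod_of_monic _ _ fun k _ => Polynomial.monic_X_sub_C _]
    simp only [Polynomial.natDegree_X_sub_C, Finset.sum_const, Finset.card_univ, hcardR,
      smul_eq_mul, mul_one]
  have hFm : F.Monic := Polynomial.monic_prod_of_monic _ _ fun k _ => Polynomial.monic_X_sub_C _
  set c : Fin (r + 1) → ℂ := fun j => F.coeff j with hc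
  have hPFc : PF c = F := by
    ext j
    rw [PF_coeff]
    split_ifs with h
    · rfl
    · rw [Polynomial.coeff_eq_zero_of_natDegree_lt]
      omega
  have hclast : c (Fin.last r) ≠ 0 := by
    have : c (Fin.last r) = 1 := by
      rw [hc]
      simp only [Fin.val_last]
      rw [← hFd]
      exact hFm
    rw [this]
    exact one_ne_zero
  set b := bb e Λ with hb
  -- the coordinates are small
  have hy : ∀ k, ‖((A.map σ).mulVec c) k‖ ≤ C2 * Real.exp (-b k) := by
    intro k
    rw [hAm, HM_map, HM_mulVec, hPFc]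
    set i := (e k).1 with hi
    set j : ℕ := ((e k).2 : ℕ) with hj
    have hjr : j ≤ r := by
      have h1 := (e k).2.2
      have h2 : ∑ i, m i = r + 1 := by
        have := Fintype.card_congr e
        rw [Fintype.card_fin, Fintype.card_sigma] at this
        simpa using this.symm
      have h3 := Finset.single_le_sum (f := m) (fun _ _ => Nat.zero_le _) (Finset.mem_univ (e k).1)
      omega
    set s := Λ i j with hs
    have hs0 : 0 ≤ s := hΛ i j
    have hval : ∀ k' : Fin (r + 1), cab (F.eval (a' i + ((k' : ℕ) : ℂ) *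
        ((Real.exp (-s) : ℝ) : ℂ))) ≤ M1 ^ r * Real.exp (-∑ l ∈ range r, min (Λ i l) s) := by
      intro k'
      rw [cab_apply, hF, Polynomial.eval_prod, norm_prod]
      have h1 : ∀ x ∈ (univ : Finset R), ‖Polynomial.eval (a' i + ((k' : ℕ) : ℂ) *
          ((Real.exp (-s) : ℝ) : ℂ)) (Polynomial.X - Polynomial.C (t x))‖ ≤
          M1 * Real.exp (-oz N Λ i s x) := by
        intro x _
        rw [Polynomial.eval_sub, Polynomial.eval_X, Polynomial.eval_C]
        exact zr_up a' N κ T Λ hA hκ0 hκ2 hT hN hΛ i hs0 k' (by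
          have := k'.2
          omega) x
      refine (Finset.prod_le_prod (fun _ _ => norm_nonneg _) h1).trans ?_
      rw [Finset.prod_mul_distrib, Finset.prod_const, Finset.card_univ, hcardR, ← Real.exp_sum,
        Finset.sum_neg_distrib, sum_oz N Λ hN h0 i hs0]
    have h1 := hC0 F hFd.le (a' i) ((Real.exp (-s) : ℝ) : ℂ) _ hval j hjr
    rw [cab_apply, cab_apply, Complex.norm_real, Real.norm_of_nonneg (Real.exp_pos _).le,
      ← Real.exp_nat_mul] at h1
    have h2 : ‖(Polynomial.taylor (a' i) F).coeff j‖ ≤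
        C0 * (M1 ^ r * Real.exp (-∑ l ∈ range r, min (Λ i l) s)) * Real.exp (j * s) := by
      have h3 := mul_le_mul_of_nonneg_right h1 (Real.exp_pos (j * s)).le
      rw [mul_assoc, ← Real.exp_add] at h3
      have h4 : (j : ℝ) * -s + j * s = 0 := by ring
      rwa [h4, Real.exp_zero, mul_one] at h3
    refine h2.trans (le_of_eq ?_)
    have h3 := lemT (Λ i) (hanti i) hjr
    have h4 : -b k = j * s - ∑ l ∈ range r, min (Λ i l) s := h3.symm
    rw [h4, hC2, mul_assoc, mul_assoc, mul_assoc, ← Real.exp_add]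
    congr 3
    ring
  -- the value
  have hev : MvPolynomial.eval₂ σ ((A.map σ).mulVec c) P = F.discr := by
    rw [← eval₂_sub, hP, sub_sub A hAdet, DK_eval₂ σ (by omega) c hclast, hPFc]
  have hup : ‖MvPolynomial.eval₂ σ ((A.map σ).mulVec c) P‖ ≤ W * Real.exp (-bw b μ) := by
    rw [MvPolynomial.eval₂_eq', hW, Finset.sum_mul]
    refine (norm_sum_le _ _).trans (Finset.sum_le_sum fun ν hν => ?_)
    rw [norm_mul, mul_assoc]
    refine mul_le_mul_of_nonneg_left ?_ (norm_nonneg _)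
    rw [norm_prod]
    have h1 : ∏ k, ‖((A.map σ).mulVec c) k ^ ν k‖ ≤ ∏ k, (C2 * Real.exp (-b k)) ^ ν k := by
      refine Finset.prod_le_prod (fun _ _ => norm_nonneg _) fun k _ => ?_
      rw [norm_pow]
      exact pow_le_pow_left₀ (norm_nonneg _) (hy k) _
    refine h1.trans ?_
    have h2 : ∏ k, (C2 * Real.exp (-b k)) ^ ν k = C2 ^ (2 * r - 2) * Real.exp (-bw b ν) := by
      simp only [mul_pow]
      rw [Finset.prod_mul_distrib, Finset.prod_pow_eq_pow_sum]
      have h3 : ∑ k, ν k = 2 * r - 2 := by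
        have := coeff_of_hom hPhom (MvPolynomial.mem_support_iff.1 hν)
        exact mem_Ex.1 this
      rw [h3]
      congr 1
      simp only [← Real.exp_nat_mul]
      rw [← Real.exp_sum]
      congr 1
      unfold bw
      rw [← Finset.sum_neg_distrib]
      exact Finset.sum_congr rfl fun k _ => by ring
    rw [h2]
    refine mul_le_mul_of_nonneg_left ?_ (by positivity)
    rw [Real.exp_le_exp]
    have := hμ ν hν
    linarith
  have hlow : κE * Real.exp (-∑ i, ∑ l ∈ range r, 2 * (l : ℝ) * Λ i l) ≤ ‖F.discr‖ := by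
    have h1 := disc_prod cab (by rw [hcardR]; omega) t
    rw [cab_apply] at h1
    rw [hF, h1, ← sum_wz N Λ hN h0, ← Finset.sum_neg_distrib, Real.exp_sum, hκE,
      ← Finset.prod_mul_distrib]
    refine Finset.prod_le_prod (fun x _ => by positivity) fun x _ => ?_
    rw [← Finset.sum_neg_distrib, Real.exp_sum, ← Finset.prod_mul_distrib]
    refine Finset.prod_le_prod (fun y _ => by positivity) fun y hy' => ?_
    rw [cab_apply]
    exact zr_low a' N κ T Λ hA hκ0 hκ1 hd1 hd hT hN hΛ hanti x y (Finset.ne_of_mem_erase hy').symm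
  rw [← hev] at hlow
  have h1 := hlow.trans hup
  have hWpos : 0 < W := by
    rcases hW0.lt_or_eq with h | h
    · exact h
    · exfalso
      rw [← h, zero_mul] at h1
      have : 0 < κE * Real.exp (-∑ i, ∑ l ∈ range r, 2 * (l : ℝ) * Λ i l) := by positivity
      linarith
  have h2 := Real.log_le_log (by positivity) h1
  rw [Real.log_mul hκE0.ne' (Real.exp_pos _).ne', Real.log_mul hWpos.ne' (Real.exp_pos _).ne',
    Real.log_exp, Real.log_exp] at h2
  have h3 := le_abs_self (Real.log W - Real.log κE)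
  linarith

end Pool.Agent.H85.X
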