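import Pool.Agent.H85.X.Place

/-!
The subspace theorem for the forms of degree `N` in the coefficients.
-/

set_option autoImplicit false

namespace Pool.Agent.H85.X

open NumberField IsDedekindDomain Finset Module IntermediateField Height
open Pool.Agent.W180.OP (Pl av wt wt_nonneg nrm le_nrm nrm_pos nrm_nonneg exists_nrm)
open Pool.Agent.W180.TP (wt_pos)
open Pool.Agent.NH28

section alg

variable {K : Type} [Field K]

lemma PF_cf {r : ℕ} {L : Type} [Field L] [Algebra K L] (x : L)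
    (hd : (minpoly K x).natDegree ≤ r) : PF (cf (K := K) r x) = minpoly K x := by
  ext j
  rw [PF_coeff]
  split_ifs with h
  · rfl
  · rw [Polynomial.coeff_eq_zero_of_natDegree_lt]
    omega

lemma ver_nrm {n : ℕ} (hn : 0 < n) (f : AbsoluteValue K ℝ) (c : Fin n → K) (N : ℕ) :
    nrm f c ^ N ≤ nrm f (ver N c) := by
  classical
  obtain ⟨j, hj⟩ := exists_nrm f hn c
  have hmem : (Finsupp.single j N : Fin n →₀ ℕ) ∈ Ex n N := by
    rw [mem_Ex]
    simp [Finsupp.single_apply]
  have h1 := le_nrm f (ver N c) ((en n N).symm ⟨_, hmem⟩)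
  refine le_trans (le_of_eq ?_) h1
  unfold ver
  rw [Equiv.apply_symm_apply]
  have h2 : ∏ k, c k ^ ((Finsupp.single j N : Fin n →₀ ℕ) k) = c j ^ N := by
    rw [Finset.prod_eq_single j]
    · simp
    · intro k _ hk
      simp [Finsupp.single_apply, Ne.symm hk]
    · intro h
      exact absurd (Finset.mem_univ _) h
  rw [h2, map_pow, hj]

lemma ver_ne {n : ℕ} (hn : 0 < n) {c : Fin n → K} (hc : c ≠ 0) (N : ℕ) : ver N c ≠ 0 := by
  classical
  obtain ⟨j, hj⟩ := Function.ne_iff.1 hc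
  have hmem : (Finsupp.single j N : Fin n →₀ ℕ) ∈ Ex n N := by
    rw [mem_Ex]
    simp [Finsupp.single_apply]
  intro h
  have h1 := congrFun h ((en n N).symm ⟨_, hmem⟩)
  unfold ver at h1
  rw [Equiv.apply_symm_apply] at h1
  have h2 : ∏ k, c k ^ ((Finsupp.single j N : Fin n →₀ ℕ) k) = c j ^ N := by
    rw [Finset.prod_eq_single j]
    · simp
    · intro k _ hk
      simp [Finsupp.single_apply, Ne.symm hk]
    · intro h
      exact absurd (Finset.mem_univ _) h
  simp only [h2] at h1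
  exact pow_ne_zero N hj h1

lemma DK_ne (r : ℕ) (hr : 2 ≤ r) [CharZero K] : DK K r ≠ 0 := by
  classical
  intro h0
  -- the polynomial with the zeros `0, …, r - 1`
  set t : Fin r → K := fun k => ((k : ℕ) : K) with ht
  set F : Polynomial K := ∏ k, (Polynomial.X - Polynomial.C (t k)) with hF
  have hFd : F.natDegree = r := by
    rw [hF, Polynomial.natDegree_prod_of_monic _ _ fun k _ => Polynomial.monic_X_sub_C _]
    simp
  have hFm : F.Monic := Polynomial.monic_prod_of_monic _ _ fun k _ => Polynomial.monic_X_sub_C _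
  set c : Fin (r + 1) → K := fun j => F.coeff j with hc
  have hPFc : PF c = F := by
    ext j
    rw [PF_coeff]
    split_ifs with h
    · rfl
    · rw [Polynomial.coeff_eq_zero_of_natDegree_lt]
      omega
  have hclast : c (Fin.last r) ≠ 0 := by
    have : c (Fin.last r) = 1 := by
      rw [hc]
      simp only [Fin.val_last]
      rw [← hFd]
      exact hFm
    rw [this]
    exact one_ne_zero
  have h1 := DK_eval (by omega : 1 ≤ r) c hclast
  rw [h0, map_zero, hPFc] at h1
  have h2 := disc_prod (AbsoluteValue.trivial : AbsoluteValue K ℝ)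
    (by rw [Fintype.card_fin]; omega : 1 ≤ Fintype.card (Fin r)) t
  rw [← hF, ← h1, map_zero] at h2
  have h3 : ∏ k, ∏ l ∈ univ.erase k, (AbsoluteValue.trivial : AbsoluteValue K ℝ) (t k - t l) ≠ 0 := by
    refine Finset.prod_ne_zero_iff.2 fun k _ => Finset.prod_ne_zero_iff.2 fun l hl => ?_
    rw [Ne, AbsoluteValue.eq_zero, sub_eq_zero]
    intro h
    have h4 : ((k : ℕ) : K) = ((l : ℕ) : K) := h
    have h4 : (k : ℕ) = (l : ℕ) := by exact_mod_cast h4
    exact (Finset.ne_of_mem_erase hl) (Fin.ext h4.symm)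
  exact h3 h2.symm

/-- the sum of the weights of a type -/
lemma sum_bt {q r : ℕ} (τ : Idx q r) (Λ : Fin q → ℕ → ℝ)
    (h0 : ∀ i k, (τ.1 i : ℕ) ≤ k → Λ i k = 0) :
    ∑ k, bt τ Λ k = ∑ i, ∑ l ∈ range r, ((l : ℝ) + 1) * Λ i l := by
  classical
  have h1 : ∑ k, bt τ Λ k = ∑ x : (Σ i, Fin (τ.1 i : ℕ)), ∑ l ∈ Ico (x.2 : ℕ) r, Λ x.1 l :=
    Equiv.sum_comp τ.2 (fun x : (Σ i, Fin (τ.1 i : ℕ)) => ∑ l ∈ Ico (x.2 : ℕ) r, Λ x.1 l)
  rw [h1, Fintype.sum_sigma]
  refine Finset.sum_congr rfl fun i _ => ?_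
  have h2 : ∀ j : Fin (τ.1 i : ℕ), ∑ l ∈ Ico (j : ℕ) r, Λ i l =
      ∑ l ∈ range r, if (j : ℕ) ≤ l then Λ i l else 0 := by
    intro j
    rw [← Finset.sum_filter]
    refine Finset.sum_congr ?_ fun _ _ => rfl
    ext l
    rw [Finset.mem_Ico, Finset.mem_filter, Finset.mem_range]
    tauto
  show ∑ j : Fin (τ.1 i : ℕ), ∑ l ∈ Ico (j : ℕ) r, Λ i l = _
  rw [Finset.sum_congr rfl fun j _ => h2 j, Finset.sum_comm]
  refine Finset.sum_congr rfl fun l _ => ?_
  by_cases hl : l < (τ.1 i : ℕ)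
  · rw [← Finset.sum_range (fun j => if j ≤ l then Λ i l else 0), ← Finset.sum_filter,
      Finset.sum_const, nsmul_eq_mul]
    have h3 : ((range (τ.1 i : ℕ)).filter fun j => j ≤ l) = range (l + 1) := by
      ext j
      rw [Finset.mem_filter, Finset.mem_range, Finset.mem_range]
      omega
    rw [h3, Finset.card_range]
    push_cast
    rfl
  · rw [h0 i l (not_lt.1 hl), mul_zero]
    refine Finset.sum_eq_zero fun j _ => ?_
    simp

end alg

section place

variable {K : Type} [Field K] [NumberField K]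

/-- the size of the discriminant in the coordinates -/
lemma disc_size (v : Pl K) {r q : ℕ} (hr : 2 ≤ r) (a : Fin q → K) (ha : Function.Injective a)
    (C0 : ℝ) (hC0 : 0 ≤ C0) :
    ∃ C : ℝ, 0 ≤ C ∧ ∀ (τ : Idx q r) (c : Fin (r + 1) → K) (R : ℝ) (b : Fin (r + 1) → ℝ),
      (∀ k, av v ((AM a τ).mulVec c k) ≤ Real.exp ((R - b k + C0) / wt v)) →
      MvPolynomial.eval c (DK K r) ≠ 0 → ∀ μ : Fin (r + 1) →₀ ℕ,
        (∀ ν ∈ (PM a τ).support, bw b μ ≤ bw b ν) →
        wt v * Real.log (av v (MvPolynomial.eval c (DK K r))) ≤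
          ((2 * r - 2 : ℕ) : ℝ) * R - bw b μ + C := by
  classical
  have hwv := wt_pos v
  set W : ℝ := ∑ τ : Idx q r, ∑ ν ∈ (PM a τ).support, av v ((PM a τ).coeff ν) with hW
  have hW0 : 0 ≤ W := Finset.sum_nonneg fun _ _ => Finset.sum_nonneg fun _ _ => (av v).nonneg _
  refine ⟨((2 * r - 2 : ℕ) : ℝ) * C0 + wt v * Real.log (1 + W), by
    have := Real.log_nonneg (by linarith : (1 : ℝ) ≤ 1 + W)
    positivity, ?_⟩
  intro τ c R b hc hne μ hμ
  set P := PM a τ with hP
  have hPhom : P.IsHomogeneous (2 * r - 2) := sub_hom _ (DK_hom K hr)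
  have hev : MvPolynomial.eval ((AM a τ).mulVec c) P = MvPolynomial.eval c (DK K r) := by
    rw [← eval_sub, hP]
    unfold PM
    rw [sub_sub (AM a τ) (HM_det a ha _ τ.2)]
  have hup : av v (MvPolynomial.eval c (DK K r)) ≤
      (1 + W) * Real.exp ((((2 * r - 2 : ℕ) : ℝ) * (R + C0) - bw b μ) / wt v) := by
    rw [← hev, MvPolynomial.eval_eq']
    refine ((av v).sum_le _ _).trans ?_
    have h1 : ∀ ν ∈ P.support, av v (MvPolynomial.coeff ν P * ∏ k, ((AM a τ).mulVec c) k ^ ν k) ≤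
        av v (P.coeff ν) * Real.exp ((((2 * r - 2 : ℕ) : ℝ) * (R + C0) - bw b μ) / wt v) := by
      intro ν hν
      rw [map_mul, map_prod]
      refine mul_le_mul_of_nonneg_left ?_ ((av v).nonneg _)
      have h2 : ∏ k, av v (((AM a τ).mulVec c) k ^ ν k) ≤
          ∏ k, Real.exp ((R - b k + C0) / wt v) ^ ν k := by
        refine Finset.prod_le_prod (fun _ _ => (av v).nonneg _) fun k _ => ?_
        rw [map_pow]
        exact pow_le_pow_left₀ ((av v).nonneg _) (hc k) _
      refine h2.trans ?_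
      simp only [← Real.exp_nat_mul]
      rw [← Real.exp_sum, Real.exp_le_exp]
      have h3 : ∑ k, ν k = 2 * r - 2 := by
        have := coeff_of_hom hPhom (MvPolynomial.mem_support_iff.1 hν)
        exact mem_Ex.1 this
      have h4 : ∑ k, (ν k : ℝ) * ((R - b k + C0) / wt v) =
          (((2 * r - 2 : ℕ) : ℝ) * (R + C0) - bw b ν) / wt v := by
        unfold bw
        rw [← h3]
        push_cast
        rw [Finset.sum_mul, ← Finset.sum_sub_distrib, Finset.sum_div]
        refine Finset.sum_congr rfl fun k _ => ?_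
        field_simp
        ring
      rw [h4]
      refine div_le_div_of_nonneg_right ?_ hwv.le
      have := hμ ν hν
      linarith
    refine (Finset.sum_le_sum h1).trans ?_
    rw [← Finset.sum_mul]
    refine mul_le_mul_of_nonneg_right ?_ (Real.exp_pos _).le
    have h2 := Finset.single_le_sum (f := fun τ : Idx q r => ∑ ν ∈ (PM a τ).support,
      av v ((PM a τ).coeff ν)) (fun _ _ => Finset.sum_nonneg fun _ _ => (av v).nonneg _)
      (Finset.mem_univ τ)
    have h3 : ∑ ν ∈ P.support, av v (P.coeff ν) ≤ W := h2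
    linarith
  have hpos : 0 < av v (MvPolynomial.eval c (DK K r)) := (av v).pos hne
  have h1 := Real.log_le_log hpos hup
  rw [Real.log_mul (by positivity) (Real.exp_pos _).ne', Real.log_exp] at h1
  have h2 := mul_le_mul_of_nonneg_left h1 hwv.le
  rw [mul_add, mul_div_cancel₀ _ hwv.ne'] at h2
  linarith

lemma bw_sub {n : ℕ} (b : Fin n → ℝ) (μ α : Fin n →₀ ℕ) :
    bw b (α - mu μ α • μ) = bw b α - mu μ α * bw b μ := by
  have h1 : bw b α = bw b (α - mu μ α • μ) + bw b (mu μ α • μ) := by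
    rw [← bw_add, tsub_add_cancel_of_le (mu_le μ α)]
  rw [bw_smul] at h1
  linarith

/-- the size of one form -/
lemma form_size (v : Pl K) {r q Nd : ℕ} (hr : 2 ≤ r) (a : Fin q → K) (τ : Idx q r)
    (c : Fin (r + 1) → K) (R C0 : ℝ) (hC0 : 0 ≤ C0) (b : Fin (r + 1) → ℝ)
    (hc : ∀ k, av v ((AM a τ).mulVec c k) ≤ Real.exp ((R - b k + C0) / wt v))
    (μ α : Fin (r + 1) →₀ ℕ) (hμ : ∑ j, μ j = 2 * r - 2) (hα : α ∈ Ex (r + 1) Nd)
    (hne : MvPolynomial.eval c (sf (AM a τ) (DK K r) μ α) ≠ 0)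
    (hD : MvPolynomial.eval c (DK K r) ≠ 0) :
    wt v * Real.log (av v (MvPolynomial.eval c (sf (AM a τ) (DK K r) μ α))) ≤
      Nd * R - bw b α - mu μ α * (((2 * r - 2 : ℕ) : ℝ) * R -
        wt v * Real.log (av v (MvPolynomial.eval c (DK K r))) - bw b μ) + Nd * C0 := by
  classical
  have hwv := wt_pos v
  rw [eval_sf] at hne ⊢
  set β := α - mu μ α • μ with hβ
  have hprod : ∏ j, ((AM a τ).mulVec c) j ^ (β j) ≠ 0 := left_ne_zero_of_mul hne
  rw [map_mul, map_pow, map_prod, Real.log_mul (by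
      rw [← map_prod]
      exact ((av v).pos hprod).ne') (pow_ne_zero _ ((av v).pos hD).ne'), Real.log_pow,
    Real.log_prod (fun j _ => by
      have := (Finset.prod_ne_zero_iff.1 hprod) j (Finset.mem_univ j)
      exact ((av v).pos this).ne')]
  have h1 : ∀ j, wt v * Real.log (av v (((AM a τ).mulVec c) j ^ β j)) ≤
      β j * (R - b j + C0) := by
    intro j
    rw [map_pow, Real.log_pow]
    by_cases hj : β j = 0
    · rw [hj]
      simp
    · have h2 := (Finset.prod_ne_zero_iff.1 hprod) j (Finset.mem_univ j)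
      have h3 : ((AM a τ).mulVec c) j ≠ 0 := fun h => h2 (by rw [h, zero_pow hj])
      have h4 := Real.log_le_log ((av v).pos h3) (hc j)
      rw [Real.log_exp, le_div_iff₀ hwv] at h4
      have h5 := mul_le_mul_of_nonneg_left h4 (Nat.cast_nonneg (α := ℝ) (β j))
      linarith
  have h2 := Finset.sum_le_sum (s := Finset.univ) fun j _ => h1 j
  rw [← Finset.mul_sum] at h2
  have h3 : ∑ j, β j + mu μ α * (2 * r - 2) = Nd := by
    have e1 : ∑ j, β j + ∑ j, (mu μ α • μ) j = ∑ j, α j := by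
      rw [← Finset.sum_add_distrib]
      refine Finset.sum_congr rfl fun j _ => ?_
      rw [← Finsupp.add_apply, hβ, tsub_add_cancel_of_le (mu_le μ α)]
    have e2 : ∑ j, (mu μ α • μ) j = mu μ α * (2 * r - 2) := by
      simp only [Finsupp.smul_apply, smul_eq_mul]
      rw [← Finset.mul_sum, hμ]
    rw [e2, mem_Ex.1 hα] at e1
    exact e1
  have h3' : ((∑ j, β j : ℕ) : ℝ) = Nd - mu μ α * ((2 * r - 2 : ℕ) : ℝ) := by
    have : ((∑ j, β j + mu μ α * (2 * r - 2) : ℕ) : ℝ) = Nd := by rw [h3]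
    push_cast at this ⊢
    linarith
  have h4 : ∑ j, (β j : ℝ) * (R - b j + C0) = ((∑ j, β j : ℕ) : ℝ) * (R + C0) - bw b β := by
    unfold bw
    push_cast
    rw [Finset.sum_mul, ← Finset.sum_sub_distrib]
    exact Finset.sum_congr rfl fun j _ => by ring
  rw [h4, h3', hβ, bw_sub] at h2
  have h5 : 0 ≤ (mu μ α : ℝ) * ((2 * r - 2 : ℕ) : ℝ) * C0 := by positivity
  rw [mul_add]
  linarith

end place

end Pool.Agent.H85.X
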