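import Pool.Agent.H85.X.PlaceS

/-!
All places together.
-/

set_option autoImplicit false

namespace Pool.Agent.H85.X

open NumberField IsDedekindDomain Finset Module IntermediateField Height
open Pool.Agent.W180.OP (Pl av wt wt_nonneg nrm le_nrm nrm_pos nrm_nonneg exists_nrm)
open Pool.Agent.W180.TP (wt_pos)
open Pool.Agent.NH28

variable {K : Type} [Field K] [NumberField K]

/-- the form with a given coefficient vector -/
noncomputable def lfz {n N : ℕ} (z : Fin (Ex n N).card → K) : MvPolynomial (Fin n) K :=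
  ∑ k, MvPolynomial.monomial (en n N k).1 (z k)

lemma lfz_hom {n N : ℕ} (z : Fin (Ex n N).card → K) : (lfz z).IsHomogeneous N := by
  unfold lfz
  refine MvPolynomial.IsHomogeneous.sum _ _ _ fun k _ => ?_
  refine MvPolynomial.isHomogeneous_monomial _ ?_
  rw [degree_eq_sum]
  exact mem_Ex.1 (en n N k).2

lemma lfz_ne {n N : ℕ} {z : Fin (Ex n N).card → K} (hz : z ≠ 0) : lfz z ≠ 0 := by
  classical
  intro h0
  apply hz
  funext k
  have h1 := congrArg (MvPolynomial.coeff (en n N k).1) h0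
  unfold lfz at h1
  rw [MvPolynomial.coeff_sum, MvPolynomial.coeff_zero, Finset.sum_eq_single k] at h1
  · rw [MvPolynomial.coeff_monomial, if_pos rfl] at h1
    exact h1
  · intro k' _ hk'
    rw [MvPolynomial.coeff_monomial, if_neg]
    intro h
    exact hk' ((en n N).injective (Subtype.ext h))
  · intro h
    exact absurd (Finset.mem_univ _) h

lemma eval_lfz {n N : ℕ} (z : Fin (Ex n N).card → K) (c : Fin n → K) :
    MvPolynomial.eval c (lfz z) = ∑ k, z k * ver N c k := by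
  unfold lfz
  rw [map_sum]
  refine Finset.sum_congr rfl fun k _ => ?_
  rw [MvPolynomial.eval_monomial, Finsupp.prod_fintype _ _ (by simp)]
  rfl

lemma ver_height (n N : ℕ) : ∃ C : ℝ, ∀ c : Fin n → K,
    logHeight (ver N c) ≤ C + N * logHeight c := by
  obtain ⟨C, hC⟩ := logHeight_eval_le' (K := K) (ι := Fin n) (ι' := Fin (Ex n N).card) (N := N)
    (p := fun k => MvPolynomial.monomial (en n N k).1 (1 : K)) (fun k => by
      refine MvPolynomial.isHomogeneous_monomial _ ?_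
      rw [degree_eq_sum]
      exact mem_Ex.1 (en n N k).2)
  refine ⟨C, fun c => ?_⟩
  have h1 := hC c
  have h2 : (fun k => MvPolynomial.eval c (MvPolynomial.monomial (en n N k).1 (1 : K))) = ver N c := by
    funext k
    rw [MvPolynomial.eval_monomial, Finsupp.prod_fintype _ _ (by simp), one_mul]
    rfl
  rwa [h2] at h1

theorem glob_x {r q : ℕ} (hr : 2 ≤ r) (hq : 0 < q) (a : Fin q → K) (ha : Function.Injective a)
    (J Nd D : ℕ) (hJ : r ≤ J) (hNd : Nd = (2 * r - 2) * (J + 1)) (hDd : D = (Ex (r + 1) Nd).card)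
    (ε : ℝ) (hε : 0 < ε) :
    ∃ Z : MvPolynomial (Fin (r + 1)) K, Z ≠ 0 ∧ (∃ t, Z.IsHomogeneous t) ∧
      ∀ S : Finset (Pl K), ∃ C : ℝ, 0 ≤ C ∧ ∀ (L : Type) [Field L] [NumberField L] [Algebra K L],
        finrank K L = r → ∀ x : L, K⟮x⟯ = ⊤ → MvPolynomial.eval (cf (K := K) r x) Z ≠ 0 →
          MvPolynomial.eval (cf (K := K) r x) (DK K r) ≠ 0 ∧
          ∃ Λ : Pl K → Fin q → ℕ → ℝ, (∀ v i k, 0 ≤ Λ v i k) ∧
          (∀ v ∈ S, ∀ i, ∑ w ∈ ab L v, nn v w * la v (a i) x w ≤ ∑ l ∈ range r, Λ v i l + C) ∧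
          (∀ v ∈ S, ∀ i, ∑ w ∈ ab L v, ∑ w' ∈ ab L v, nn v w * nn v w' *
            min (la v (a i) x w) (la v (a i) x w') - ∑ w ∈ ab L v, nn v w * la v (a i) x w ≤
            ∑ l ∈ range r, 2 * (l : ℝ) * Λ v i l + C) ∧
          ∑ v ∈ S, ((Nd * D / (r + 1) : ℝ) * ∑ i, ∑ l ∈ range r, ((l : ℝ) + 1) * Λ v i l +
            (((Nd : ℝ) / (r + 1) - ((2 * r - 2 : ℕ) : ℝ)) * D / ((2 * r - 2 : ℕ) : ℝ)) *
              (((2 * r - 2 : ℕ) : ℝ) * (wt v * Real.log (nrm (av v) (cf (K := K) r x))) -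
                wt v * Real.log (av v (MvPolynomial.eval (cf (K := K) r x) (DK K r))) -
                ∑ i, ∑ l ∈ range r, 2 * (l : ℝ) * Λ v i l)) ≤
            (D + ε) * (Nd * logHeight (cf (K := K) r x)) + C := by
  classical
  have hD1 : 1 ≤ (Ex (r + 1) Nd).card := by
    rw [card_Ex]
    exact Nat.choose_pos (by omega)
  have hDK := DK_ne (K := K) r hr
  have hDKh := DK_hom K hr
  set ι : Type := Σ τ : Idx q r, {μ // μ ∈ (PM a τ).support} × {α // α ∈ Ex (r + 1) Nd} with hι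
  set Lf : ι → Fin (Ex (r + 1) Nd).card → K := fun l =>
    vc Nd (sf (AM a l.1) (DK K r) l.2.1.1 l.2.2.1) with hLf
  obtain ⟨Z0, hZ0, hsub⟩ := sch_rat (k := K) hD1 Lf
  have hPhom : ∀ τ : Idx q r, (PM a τ).IsHomogeneous (2 * r - 2) := fun τ =>
    sub_hom _ (DK_hom K hr)
  have hsfh : ∀ (τ : Idx q r) (μ α : Fin (r + 1) →₀ ℕ), μ ∈ (PM a τ).support →
      α ∈ Ex (r + 1) Nd → (sf (AM a τ) (DK K r) μ α).IsHomogeneous Nd := by
    intro τ μ α hμ hα
    exact sf_hom (AM a τ) hDKh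
      (mem_Ex.1 (coeff_of_hom (hPhom τ) (MvPolynomial.mem_support_iff.1 hμ))) (mem_Ex.1 hα)
  set Z1 : MvPolynomial (Fin (r + 1)) K := ∏ z ∈ Z0, lfz z with hZ1
  set Z2 : MvPolynomial (Fin (r + 1)) K := ∏ τ : Idx q r, ∏ k : Fin (r + 1),
    sub (AM a τ) (MvPolynomial.X k) with hZ2
  refine ⟨Z1 * DK K r * Z2, ?_, ?_, ?_⟩
  · refine mul_ne_zero (mul_ne_zero ?_ hDK) ?_
    · exact Finset.prod_ne_zero_iff.2 fun z hz => lfz_ne (hZ0 z hz)
    · refine Finset.prod_ne_zero_iff.2 fun τ _ => Finset.prod_ne_zero_iff.2 fun k _ => ?_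
      intro h
      have h1 := sub_inj (AM a τ) (HM_det a ha _ τ.2) (h.trans (map_zero _).symm)
      exact MvPolynomial.X_ne_zero k h1
  · refine ⟨_, (MvPolynomial.IsHomogeneous.mul (MvPolynomial.IsHomogeneous.mul
      (MvPolynomial.IsHomogeneous.prod Z0 _ (fun _ => Nd) fun z _ => lfz_hom z) hDKh)
      (MvPolynomial.IsHomogeneous.prod Finset.univ _ (fun _ => ∑ _k : Fin (r + 1), 1) fun τ _ =>
        MvPolynomial.IsHomogeneous.prod Finset.univ _ (fun _ => 1) fun k _ =>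
          sub_hom _ (MvPolynomial.isHomogeneous_X _ k)))⟩
  intro S
  obtain ⟨Cs, hCs0, hCs⟩ := hsub S ε hε
  choose Cp hCp0 hCp using fun v : Pl K => place_sum v hr hq a ha J Nd D hJ hNd hDd
  obtain ⟨Ch, hCh⟩ := ver_height (K := K) (r + 1) Nd
  have hSCp : 0 ≤ ∑ v ∈ S, Cp v := Finset.sum_nonneg fun v _ => hCp0 v
  refine ⟨∑ v ∈ S, Cp v + Cs + (D + ε) * |Ch|, by positivity, ?_⟩
  intro L _ _ _ hrL x hx hZx
  set c := cf (K := K) r x with hc
  rw [map_mul, map_mul] at hZx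
  have hcn : c ≠ 0 := cf_ne hrL hx
  have hZ1x : MvPolynomial.eval c Z1 ≠ 0 := left_ne_zero_of_mul (left_ne_zero_of_mul hZx)
  have hDx : MvPolynomial.eval c (DK K r) ≠ 0 := right_ne_zero_of_mul (left_ne_zero_of_mul hZx)
  have hZ2x : MvPolynomial.eval c Z2 ≠ 0 := right_ne_zero_of_mul hZx
  have hcoord : ∀ (τ : Idx q r) (k : Fin (r + 1)), (AM a τ).mulVec c k ≠ 0 := by
    intro τ k
    rw [hZ2, map_prod] at hZ2x
    have h1 := (Finset.prod_ne_zero_iff.1 hZ2x) τ (Finset.mem_univ τ)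
    rw [map_prod] at h1
    have h2 := (Finset.prod_ne_zero_iff.1 h1) k (Finset.mem_univ k)
    rwa [eval_sub, MvPolynomial.eval_X] at h2
  have hsfne : ∀ (τ : Idx q r) (μ α : Fin (r + 1) →₀ ℕ),
      MvPolynomial.eval c (sf (AM a τ) (DK K r) μ α) ≠ 0 := by
    intro τ μ α
    rw [eval_sf]
    exact mul_ne_zero (Finset.prod_ne_zero_iff.2 fun j _ => pow_ne_zero _ (hcoord τ j))
      (pow_ne_zero _ hDx)
  refine ⟨hDx, ?_⟩
  have hplace := fun v => hCp v L hrL x hx hDx (fun τ μ _ α _ => hsfne τ μ α)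
  choose τ μ Λ hμs hind hΛ0 hla1 hla2 hsum using hplace
  have hCpS : ∀ v ∈ S, Cp v ≤ ∑ v ∈ S, Cp v + Cs + (D + ε) * |Ch| := by
    intro v hv
    have h1 := Finset.single_le_sum (f := Cp) (fun v _ => hCp0 v) hv
    have h2 : 0 ≤ (D + ε) * |Ch| := by positivity
    linarith
  refine ⟨Λ, hΛ0, ?_, ?_, ?_⟩
  · intro v hv i
    have h1 := hla1 v i
    have h2 := hCpS v hv
    linarith
  · intro v hv i
    have h1 := hla2 v i
    have h2 := hCpS v hv
    linarith
  · -- the subspace theorem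
    set β : Pl K → Fin (Ex (r + 1) Nd).card → ι := fun v k =>
      ⟨τ v, ⟨μ v, hμs v⟩, en (r + 1) Nd k⟩ with hβ
    have hdot : ∀ l : ι, ∑ j, Lf l j * ver Nd c j =
        MvPolynomial.eval c (sf (AM a l.1) (DK K r) l.2.1.1 l.2.2.1) := fun l =>
      (eval_vc (hsfh l.1 l.2.1.1 l.2.2.1 l.2.1.2 l.2.2.2) c).symm
    have h1 := hCs (ver Nd c) (ver_ne (by omega) hcn Nd) (by
        intro z hz
        rw [← eval_lfz]
        rw [hZ1, map_prod] at hZ1x
        exact (Finset.prod_ne_zero_iff.1 hZ1x) z hz) (by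
        intro l
        rw [hdot]
        exact hsfne _ _ _) β (by
        intro v _
        have h2 := (hind v).comp (fun k : Fin (Ex (r + 1) Nd).card => (en (r + 1) Nd k).1)
          (Subtype.val_injective.comp (en (r + 1) Nd).injective)
        exact vc_indep (N := Nd) _ (fun k => hsfh (τ v) (μ v) _ (hμs v) (en (r + 1) Nd k).2) h2)
    have h2 : ∀ v, wt v * ∑ k, (Real.log (nrm (av v) (ver Nd c)) -
        Real.log (av v (∑ j, Lf (β v k) j * ver Nd c j))) =
        ∑ α ∈ Ex (r + 1) Nd, wt v * (Real.log (nrm (av v) (ver Nd c)) -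
              Real.log (av v (MvPolynomial.eval c (sf (AM a (τ v)) (DK K r) (μ v) α)))) := by
      intro v
      rw [Finset.mul_sum, ← Finset.sum_coe_sort (Ex (r + 1) Nd)]
      have h3 := Equiv.sum_comp (en (r + 1) Nd) (fun α : {α // α ∈ Ex (r + 1) Nd} =>
        wt v * (Real.log (nrm (av v) (ver Nd c)) -
              Real.log (av v (MvPolynomial.eval c (sf (AM a (τ v)) (DK K r) (μ v) α.1)))))
      rw [← h3]
      refine Finset.sum_congr rfl fun k _ => ?_
      rw [hdot]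
    rw [Finset.sum_congr rfl fun v _ => h2 v] at h1
    have h3 := (Finset.sum_le_sum (s := S) fun v _ => hsum v).trans_eq Finset.sum_add_distrib
    simp only [← hc] at h3
    have h4 := hCh c
    have h5 : (((Ex (r + 1) Nd).card : ℕ) : ℝ) = D := by rw [hDd]
    rw [h5] at h1
    have h6 : ((D : ℝ) + ε) * logHeight (ver Nd c) ≤
        (D + ε) * (Nd * logHeight c) + (D + ε) * |Ch| := by
      have h7 : (0 : ℝ) ≤ D + ε := by positivity
      have h8 : logHeight (ver Nd c) ≤ Nd * logHeight c + |Ch| := by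
        have := le_abs_self Ch
        linarith
      have := mul_le_mul_of_nonneg_left h8 h7
      linarith
    linarith

end Pool.Agent.H85.X
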