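import Pool.Agent.H85.X.Forms

/-!
Taylor coefficients at several points as coordinates on the polynomials of degree at most `r`.
-/

set_option autoImplicit false

namespace Pool.Agent.H85.X

open Finset

variable {F : Type} [Field F] {q r : ℕ}

lemma dvd_of_taylor (P : Polynomial F) (a : F) (m : ℕ)
    (h : ∀ j < m, (Polynomial.taylor a P).coeff j = 0) :
    (Polynomial.X - Polynomial.C a) ^ m ∣ P := by
  have h1 : Polynomial.X ^ m ∣ Polynomial.taylor a P := Polynomial.X_pow_dvd_iff.2 h
  obtain ⟨Q, hQ⟩ := h1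
  refine ⟨Q.comp (Polynomial.X - Polynomial.C a), ?_⟩
  have h2 : P = (Polynomial.taylor a P).comp (Polynomial.X - Polynomial.C a) := by
    rw [Polynomial.taylor_apply, Polynomial.comp_assoc]
    simp
  conv_lhs => rw [h2, hQ]
  rw [Polynomial.mul_comp, Polynomial.X_pow_comp]

lemma PF_add_smul (c : Fin (r + 1) → F) : PF c = ∑ l : Fin (r + 1), c l • (Polynomial.X ^ (l : ℕ) : Polynomial F) := by
  unfold PF
  exact Finset.sum_congr rfl fun l _ => (Polynomial.smul_eq_C_mul _).symm

/-- the matrix of the Taylor coefficients -/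
noncomputable def HM (a : Fin q → F) (m : Fin q → ℕ) (e : Fin (r + 1) ≃ Σ i, Fin (m i)) :
    Matrix (Fin (r + 1)) (Fin (r + 1)) F :=
  fun k l => (Polynomial.taylor (a (e k).1) (Polynomial.X ^ (l : ℕ) : Polynomial F)).coeff (e k).2

lemma HM_mulVec (a : Fin q → F) (m : Fin q → ℕ) (e : Fin (r + 1) ≃ Σ i, Fin (m i))
    (c : Fin (r + 1) → F) (k : Fin (r + 1)) :
    (HM a m e).mulVec c k = (Polynomial.taylor (a (e k).1) (PF c)).coeff (e k).2 := by
  rw [PF_add_smul, map_sum, Polynomial.finsetSum_coeff]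
  unfold Matrix.mulVec dotProduct HM
  refine Finset.sum_congr rfl fun l _ => ?_
  rw [LinearMap.map_smul, Polynomial.coeff_smul, smul_eq_mul, mul_comm]

theorem HM_det (a : Fin q → F) (ha : Function.Injective a) (m : Fin q → ℕ)
    (e : Fin (r + 1) ≃ Σ i, Fin (m i)) : IsUnit (HM a m e).det := by
  classical
  rw [isUnit_iff_ne_zero]
  intro h0
  obtain ⟨c, hc, hc0⟩ := Matrix.exists_mulVec_eq_zero_iff.2 h0
  apply hc
  have hcard : ∑ i, m i = r + 1 := by
    have := Fintype.card_congr e
    rw [Fintype.card_fin, Fintype.card_sigma] at this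
    simpa using this.symm
  have h1 : ∀ i, (Polynomial.X - Polynomial.C (a i)) ^ m i ∣ PF c := by
    intro i
    refine dvd_of_taylor _ _ _ fun j hj => ?_
    have h2 := congrFun hc0 (e.symm ⟨i, ⟨j, hj⟩⟩)
    rw [HM_mulVec, Equiv.apply_symm_apply] at h2
    exact h2
  have h2 : (∏ i, (Polynomial.X - Polynomial.C (a i)) ^ m i) ∣ PF c := by
    refine Finset.prod_dvd_of_coprime ?_ fun i _ => h1 i
    intro i _ i' _ hii
    refine IsCoprime.pow ?_
    exact Polynomial.isCoprime_X_sub_C_of_isUnit_sub (by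
      rw [isUnit_iff_ne_zero, sub_ne_zero]
      exact fun h => hii (ha h))
  have h3 : PF c = 0 := by
    refine Polynomial.eq_zero_of_dvd_of_natDegree_lt h2 ?_
    rw [Polynomial.natDegree_prod_of_monic _ _ fun i _ =>
      (Polynomial.monic_X_sub_C _).pow _]
    simp only [Polynomial.natDegree_pow, Polynomial.natDegree_X_sub_C, mul_one]
    rw [hcard]
    have := PF_natDegree_le c
    omega
  funext j
  have h4 := PF_coeff c (j : ℕ)
  rw [h3, Polynomial.coeff_zero, dif_pos j.2] at h4
  exact h4.symm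

end Pool.Agent.H85.X
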