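import Pool.Agent.H85.X.Low

/-!
Heights as sums over places; the height of the coefficient vector.
-/

set_option autoImplicit false

namespace Pool.Agent.H85.X

open NumberField IsDedekindDomain Finset Module IntermediateField Height
open Pool.Agent.W180.OP (Pl av wt fv fv_apply wt_nonneg nrm le_nrm nrm_pos nrm_nonneg exists_nrm
  fv_support_finite)
open Pool.Agent.W180.TP (wt_pos fin_le_one)
open Pool.Agent.NH28

lemma fv_nonarch {L : Type} [Field L] [NumberField L] (v : HeightOneSpectrum (𝓞 L)) (x y : L) :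
    fv v (x + y) ≤ max (fv v x) (fv v y) := by
  have h := (FinitePlace.mk v).2
  have h1 := FinitePlace.add_le (v := FinitePlace.mk v) x y
  exact h1

lemma fv_nat {L : Type} [Field L] [NumberField L] (v : HeightOneSpectrum (𝓞 L)) (k : ℕ) :
    fv v ((k : ℕ) : L) ≤ 1 :=
  fin_le_one (FinitePlace.mk v) (by
    have : ((k : ℕ) : L) = algebraMap ℤ L k := by simp
    rw [this]
    exact isIntegral_algebraMap)

section one

variable {K : Type} [Field K] [NumberField K]

lemma sum_S (S : Finset (Pl K)) (hS : ∀ v : InfinitePlace K, Sum.inl v ∈ S) (G : Pl K → ℝ) :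
    ∑ v ∈ S, G v = ∑ v : InfinitePlace K, G (Sum.inl v) + ∑ v ∈ S.toRight, G (Sum.inr v) := by
  have h1 : S = (Finset.univ : Finset (InfinitePlace K)).disjSum S.toRight := by
    ext w
    cases w with
    | inl w => simp [hS]
    | inr w => simp
  conv_lhs => rw [h1]
  rw [Finset.sum_disjSum]

lemma height_S {n : ℕ} {x : Fin n → K} (hx : x ≠ 0) (S : Finset (Pl K))
    (hS : ∀ v : InfinitePlace K, Sum.inl v ∈ S)
    (hT : ∀ v : HeightOneSpectrum (𝓞 K), nrm (fv v) x ≠ 1 → Sum.inr v ∈ S) :
    logHeight x = ∑ v ∈ S, wt v * Real.log (nrm (av v) x) := by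
  rw [sum_S S hS, height_sum hx S.toRight (fun v hv => by
    rw [Finset.mem_toRight]
    exact hT v hv)]
  congr 1
  refine Finset.sum_congr rfl fun v _ => ?_
  show _ = 1 * _
  rw [one_mul]
  rfl

lemma prod_S {x : K} (hx : x ≠ 0) (S : Finset (Pl K))
    (hS : ∀ v : InfinitePlace K, Sum.inl v ∈ S)
    (hT : ∀ v : HeightOneSpectrum (𝓞 K), fv v x ≠ 1 → Sum.inr v ∈ S) :
    ∑ v ∈ S, wt v * Real.log (av v x) = 0 := by
  rw [sum_S S hS, ← prod_formula hx S.toRight (fun v hv => by
    rw [Finset.mem_toRight]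
    exact hT v hv)]
  congr 1
  refine Finset.sum_congr rfl fun v _ => ?_
  show 1 * _ = _
  rw [one_mul]
  rfl

end one

section two

variable {K L : Type} [Field K] [NumberField K] [Field L] [NumberField L] [Algebra K L]

lemma height_up {n : ℕ} {x : Fin n → L} (hx : x ≠ 0) (S : Finset (Pl K))
    (hS : ∀ v : InfinitePlace K, Sum.inl v ∈ S)
    (hT : ∀ (w : HeightOneSpectrum (𝓞 L)), nrm (fv w) x ≠ 1 → ∃ v ∈ S, Ov v (Sum.inr w : Pl L)) :
    logHeight x = ∑ v ∈ S, ∑ w ∈ ab L v, wt w * Real.log (nrm (av w) x) := by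
  rw [sum_split S hS, height_sum hx (fab L S) (fun v hv => mem_fab.2 (hT v hv))]
  congr 1
  refine Finset.sum_congr rfl fun v _ => ?_
  show _ = 1 * _
  rw [one_mul]
  rfl

lemma nrm_pair (f : AbsoluteValue L ℝ) (x : L) : nrm f ![x, 1] = max 1 (f x) := by
  apply le_antisymm
  · obtain ⟨j, hj⟩ := exists_nrm f (by norm_num : 0 < 2) ![x, 1]
    rw [← hj]
    fin_cases j
    · exact le_max_right _ _
    · have : f ((![x, 1] : Fin 2 → L) 1) = 1 := by simp
      exact this.le.trans (le_max_left _ _)
  · have h0 := le_nrm f ![x, 1] 0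
    have h1 := le_nrm f ![x, 1] 1
    have e0 : (![x, 1] : Fin 2 → L) 0 = x := rfl
    have e1 : (![x, 1] : Fin 2 → L) 1 = 1 := rfl
    rw [e0] at h0
    rw [e1, map_one] at h1
    exact max_le h1 h0

/-- the height of a point as a sum of local heights -/
theorem height_rho (x : L) (S : Finset (Pl K)) (hS : ∀ v : InfinitePlace K, Sum.inl v ∈ S)
    (hT : ∀ (w : HeightOneSpectrum (𝓞 L)), nrm (fv w) ![x, 1] ≠ 1 →
      ∃ v ∈ S, Ov v (Sum.inr w : Pl L)) :
    logHeight₁ x = ∑ v ∈ S, rho v x := by
  have hne : (![x, 1] : Fin 2 → L) ≠ 0 := fun h => one_ne_zero (congrFun h 1)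
  rw [logHeight₁_eq_logHeight, height_up hne S hS hT]
  refine Finset.sum_congr rfl fun v _ => ?_
  unfold rho
  refine Finset.sum_congr rfl fun w _ => ?_
  rw [nrm_pair]

lemma rho_nonneg (v : Pl K) (x : L) : 0 ≤ rho v x :=
  Finset.sum_nonneg fun w _ => mul_nonneg (wt_nonneg w) (Real.log_nonneg (le_max_left _ _))

/-- a partial sum of local heights -/
theorem rho_partial (x : L) (S : Finset (Pl K)) : ∑ v ∈ S, rho v x ≤ logHeight₁ x := by
  classical
  have hne : (![x, 1] : Fin 2 → L) ≠ 0 := fun h => one_ne_zero (congrFun h 1)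
  choose bel hbel using fun w : HeightOneSpectrum (𝓞 L) => exists_below K (Sum.inr w : Pl L)
  set S' : Finset (Pl K) := S ∪ ((Finset.univ : Finset (InfinitePlace K)).map
    ⟨Sum.inl, Sum.inl_injective⟩) ∪ (nrm_support hne).toFinset.image bel with hS'
  rw [height_rho x S' (fun v => by simp [hS']) (fun w hw => ⟨bel w, by
    rw [hS', Finset.mem_union]
    right
    rw [Finset.mem_image]
    exact ⟨w, by rw [Set.Finite.mem_toFinset]; exact hw, rfl⟩, hbel w⟩)]
  exact Finset.sum_le_sum_of_subset_of_nonneg (fun v hv => by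
    rw [hS', Finset.mem_union, Finset.mem_union]
    exact Or.inl (Or.inl hv)) fun v _ _ => rho_nonneg v x

end two

variable {K : Type} [Field K] [NumberField K]

/-- the height of the coefficient vector -/
theorem ht_up (r : ℕ) (hr : 2 ≤ r) : ∃ C : ℝ, 0 ≤ C ∧ ∀ (L : Type) [Field L]
    [NumberField L] [Algebra K L], finrank K L = r → ∀ x : L, K⟮x⟯ = ⊤ →
      logHeight (cf (K := K) r x) ≤ logHeight₁ x + C := by
  classical
  obtain ⟨γ, hγ⟩ := interp r
  obtain ⟨C, hC0, hC⟩ := Pool.Agent.W180.TP.lin_le (K := K) (fun j k => ((γ j k : ℚ) : K))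
  have hr0 : (0 : ℝ) ≤ r := Nat.cast_nonneg r
  have hlr : 0 ≤ Real.log (1 + r) := Real.log_nonneg (by linarith)
  refine ⟨Fintype.card (InfinitePlace K) * (r * (2 * Real.log (1 + r))) + C * finrank ℚ K,
    by positivity, ?_⟩
  intro L _ _ _ hrL x hx
  have h2L : 2 ≤ finrank K L := by omega
  set y : Fin (r + 1) → K := fun k => (minpoly K x).eval ((k : ℕ) : K) with hy
  have hyne : ∀ k, y k ≠ 0 := by
    intro k
    rw [hy]
    simp only
    rw [eval_min hx, Ne, Algebra.norm_eq_zero_iff]
    have := irr_ne h2L hx ((k : ℕ) : K)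
    intro h
    apply this
    rw [← neg_sub, h, neg_zero]
  have hy0 : y ≠ 0 := fun h => hyne 0 (congrFun h 0)
  have hcy : cf (K := K) r x = fun j => ∑ k, algebraMap K K ((γ j k : ℚ) : K) * y k := by
    funext j
    exact hγ K (minpoly K x) (by rw [deg_min hx, hrL]) j
  have h1 : logHeight (cf (K := K) r x) ≤ logHeight y + C * finrank ℚ K := by
    rw [hcy]
    exact hC K y
  have hne : (![x, 1] : Fin 2 → L) ≠ 0 := fun h => one_ne_zero (congrFun h 1)
  choose bel hbel using fun w : HeightOneSpectrum (𝓞 L) => exists_below K (Sum.inr w : Pl L)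
  set S' : Finset (Pl K) := ((Finset.univ : Finset (InfinitePlace K)).map
    ⟨Sum.inl, Sum.inl_injective⟩) ∪ (nrm_support hne).toFinset.image bel ∪
      (nrm_support hy0).toFinset.map ⟨Sum.inr, Sum.inr_injective⟩ with hS'
  have hSinf : ∀ v : InfinitePlace K, Sum.inl v ∈ S' := fun v => by simp [hS']
  have e1 := height_rho x S' hSinf (fun w hw => ⟨bel w, by
    rw [hS', Finset.mem_union, Finset.mem_union]
    left
    right
    rw [Finset.mem_image]
    exact ⟨w, by rw [Set.Finite.mem_toFinset]; exact hw, rfl⟩, hbel w⟩)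
  have e2 := height_S hy0 S' hSinf (fun v hv => by
    rw [hS', Finset.mem_union]
    right
    rw [Finset.mem_map]
    exact ⟨v, by rw [Set.Finite.mem_toFinset]; exact hv, rfl⟩)
  have hcard : ∀ v : Pl K, ((ab L v).card : ℝ) ≤ r := by
    intro v
    have := card_ab_le L v
    rw [hrL] at this
    exact_mod_cast this
  set G : Pl K → ℝ := fun v => match v with
    | Sum.inl _ => r * (2 * Real.log (1 + r))
    | Sum.inr _ => 0 with hG
  have hloc : ∀ v ∈ S', wt v * Real.log (nrm (av v) y) ≤ rho v x + G v := by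
    intro v _
    obtain ⟨k, hk⟩ := exists_nrm (av v) (by omega : 0 < r + 1) y
    rw [← hk]
    have hne' : algebraMap K L ((k : ℕ) : K) - x ≠ 0 := by
      have := irr_ne h2L hx ((k : ℕ) : K)
      intro h
      apply this
      rw [← neg_sub, h, neg_zero]
    have e3 : y k = Algebra.norm K (algebraMap K L ((k : ℕ) : K) - x) := eval_min hx _
    rw [e3, norm_pl v _ hne']
    cases v with
    | inl v =>
      have h3 : ∀ w ∈ ab L (Sum.inl v : Pl K), wt w *
          Real.log (av w (algebraMap K L ((k : ℕ) : K) - x)) ≤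
          wt w * Real.log (max 1 (av w x)) + 2 * Real.log (1 + r) := by
        intro w _
        have hww := wt_pos w
        have hm1 : 1 ≤ max 1 (av w x) := le_max_left _ _
        have h4 : av w (algebraMap K L ((k : ℕ) : K) - x) ≤ (1 + r) * max 1 (av w x) := by
          rw [sub_eq_add_neg]
          refine ((av w).add_le _ _).trans ?_
          rw [(av w).map_neg, map_natCast]
          have h5 : av w ((k : ℕ) : L) ≤ r := (av_nat w k).trans (by
            have := k.2
            have h5 : (k : ℕ) ≤ r := by omega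
            exact_mod_cast h5)
          have h6 : av w x ≤ max 1 (av w x) := le_max_right _ _
          nlinarith
        have h5 := Real.log_le_log ((av w).pos hne') h4
        rw [Real.log_mul (by positivity) (by positivity)] at h5
        have h6 := mul_le_mul_of_nonneg_left h5 hww.le
        have h7 : wt w * Real.log (1 + r) ≤ 2 * Real.log (1 + r) :=
          mul_le_mul_of_nonneg_right (wt_le_two w) hlr
        linarith
      refine (Finset.sum_le_sum h3).trans ?_
      rw [Finset.sum_add_distrib, Finset.sum_const, nsmul_eq_mul]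
      have h4 : ((ab L (Sum.inl v : Pl K)).card : ℝ) * (2 * Real.log (1 + r)) ≤
        r * (2 * Real.log (1 + r)) := mul_le_mul_of_nonneg_right (hcard _) (by positivity)
      have h5 : G (Sum.inl v) = r * (2 * Real.log (1 + r)) := rfl
      rw [h5]
      unfold rho
      linarith
    | inr v =>
      have h5 : G (Sum.inr v) = 0 := rfl
      rw [h5, add_zero]
      unfold rho
      refine Finset.sum_le_sum fun w hw => ?_
      have hov := mem_ab.1 hw
      cases w with
      | inl w => exact hov.elim
      | inr w =>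
        refine mul_le_mul_of_nonneg_left ?_ (wt_nonneg _)
        refine Real.log_le_log ((av _).pos hne') ?_
        show fv w (algebraMap K L ((k : ℕ) : K) - x) ≤ max 1 (fv w x)
        rw [sub_eq_add_neg]
        refine (fv_nonarch w _ _).trans ?_
        rw [(fv w).map_neg, map_natCast]
        exact max_le_max (fv_nat w k) le_rfl
  have h2 : logHeight y ≤ logHeight₁ x + Fintype.card (InfinitePlace K) *
      (r * (2 * Real.log (1 + r))) := by
    rw [e1, e2]
    refine (Finset.sum_le_sum hloc).trans ?_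
    rw [Finset.sum_add_distrib]
    have h3 : ∑ v ∈ S', G v = Fintype.card (InfinitePlace K) * (r * (2 * Real.log (1 + r))) := by
      rw [sum_S S' hSinf]
      have h4 : ∑ v ∈ S'.toRight, G (Sum.inr v) = 0 := Finset.sum_eq_zero fun v _ => rfl
      have h5 : ∑ v : InfinitePlace K, G (Sum.inl v) =
          ∑ v : InfinitePlace K, (r * (2 * Real.log (1 + r)) : ℝ) := rfl
      rw [h4, add_zero, h5, Finset.sum_const, Finset.card_univ, nsmul_eq_mul]
    rw [h3]
  linarith

end Pool.Agent.H85.X
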