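import Pool.Agent.H85.X.Interp
import Pool.Agent.H85.V.Loc

/-!
The minimal polynomial of a point at a place.
-/

set_option autoImplicit false

namespace Pool.Agent.H85.X

open NumberField IsDedekindDomain Finset Module IntermediateField
open Pool.Agent.W180.OP (Pl av wt fv fv_apply wt_nonneg nrm le_nrm nrm_pos nrm_nonneg exists_nrm)
open Pool.Agent.W180.TP (wt_pos)
open Pool.Agent.NH28
open Pool.Agent.H85.V (mult_cases)

lemma wt_le_two {L : Type} [Field L] [NumberField L] (w : Pl L) : wt w ≤ 2 := by
  cases w with
  | inl w =>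
    show (w.mult : ℝ) ≤ 2
    rcases mult_cases w with h | h <;> rw [h] <;> norm_num
  | inr w =>
    show (1 : ℝ) ≤ 2
    norm_num

lemma av_nat {L : Type} [Field L] [NumberField L] (w : Pl L) (k : ℕ) :
    av w ((k : ℕ) : L) ≤ k := by
  induction k with
  | zero => simp
  | succ k ih =>
    push_cast
    refine ((av w).add_le _ _).trans ?_
    rw [map_one]
    linarith

variable {K : Type} [Field K] [NumberField K]

theorem exists_scale (v : Pl K) : ∃ κ : ℝ, 0 ≤ κ ∧ ∀ s : ℝ, 0 ≤ s → ∃ π : K, π ≠ 0 ∧
    wt v * Real.log (av v π) ≤ -s ∧ -s - κ ≤ wt v * Real.log (av v π) := by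
  cases v with
  | inl v =>
    have hv : (0 : ℝ) < v.mult := by exact_mod_cast InfinitePlace.mult_pos
    refine ⟨v.mult * Real.log 2, mul_nonneg hv.le (Real.log_nonneg (by norm_num)), ?_⟩
    intro s hs
    set m : ℕ := ⌈Real.exp (s / v.mult)⌉₊ with hm
    have hm1 : Real.exp (s / v.mult) ≤ m := Nat.le_ceil _
    have he1 : 1 ≤ Real.exp (s / v.mult) := Real.one_le_exp (by positivity)
    have hm2 : (m : ℝ) ≤ 2 * Real.exp (s / v.mult) := by
      have := (Nat.ceil_lt_add_one (Real.exp_pos (s / v.mult)).le).le
      linarith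
    have hm0 : (0 : ℝ) < m := by linarith [Real.exp_pos (s / v.mult)]
    have hmK : (m : K) ≠ 0 := by
      have : m ≠ 0 := by
        rintro h
        rw [h] at hm0
        simp at hm0
      exact_mod_cast this
    refine ⟨(m : K)⁻¹, inv_ne_zero hmK, ?_⟩
    have e1 : av (Sum.inl v : Pl K) ((m : K)⁻¹) = (m : ℝ)⁻¹ := by
      show v ((m : K)⁻¹) = _
      rw [map_inv₀, ← InfinitePlace.norm_embedding_eq, map_natCast, Complex.norm_natCast]
    rw [e1, Real.log_inv]
    have e2 : wt (Sum.inl v : Pl K) = v.mult := rfl
    rw [e2]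
    have h1 := Real.log_le_log (Real.exp_pos _) hm1
    rw [Real.log_exp] at h1
    have h2 := Real.log_le_log hm0 hm2
    rw [Real.log_mul (by norm_num) (Real.exp_pos _).ne', Real.log_exp] at h2
    have h3 := mul_le_mul_of_nonneg_left h1 hv.le
    have h4 := mul_le_mul_of_nonneg_left h2 hv.le
    rw [mul_div_cancel₀ _ hv.ne'] at h3
    rw [mul_add, mul_div_cancel₀ _ hv.ne'] at h4
    constructor <;> linarith
  | inr v =>
    obtain ⟨π, hπ0, hπ⟩ := exists_small_fv v
    have hπp : 0 < fv v π := (fv v).pos hπ0
    set c : ℝ := - Real.log (fv v π) with hc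
    have hc0 : 0 < c := by
      have := Real.log_neg hπp hπ
      linarith
    refine ⟨c, hc0.le, fun s hs => ?_⟩
    set m : ℕ := ⌈s / c⌉₊ with hm
    have hm1 : s ≤ m * c := by
      have := Nat.le_ceil (s / c)
      rw [div_le_iff₀ hc0] at this
      exact this
    have hm2 : m * c ≤ s + c := by
      have := (Nat.ceil_lt_add_one (div_nonneg hs hc0.le)).le
      have h1 : (m : ℝ) * c ≤ (s / c + 1) * c := mul_le_mul_of_nonneg_right this hc0.le
      rwa [add_mul, one_mul, div_mul_cancel₀ _ hc0.ne'] at h1
    refine ⟨π ^ m, pow_ne_zero _ hπ0, ?_⟩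
    have e1 : wt (Sum.inr v : Pl K) * Real.log (av (Sum.inr v : Pl K) (π ^ m)) = -(m * c) := by
      show 1 * Real.log (fv v (π ^ m)) = _
      rw [map_pow, Real.log_pow, hc]
      ring
    rw [e1]
    constructor <;> linarith

/-- the local height of a point -/
noncomputable def rho {L : Type} [Field L] [NumberField L] [Algebra K L] (v : Pl K) (x : L) : ℝ :=
  ∑ w ∈ ab L v, wt w * Real.log (max 1 (av w x))

/-- the normalised Weil function -/
noncomputable def la {L : Type} [Field L] [NumberField L] [Algebra K L] (v : Pl K) (a : K) (x : L)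
    (w : Pl L) : ℝ :=
  wt w / nn v w * Real.log (max 1 (av w x) / av w (x - algebraMap K L a))

lemma irr_ne {L : Type} [Field L] [NumberField L] [Algebra K L] (h2 : 2 ≤ finrank K L) {x : L}
    (hx : K⟮x⟯ = ⊤) (a : K) : x - algebraMap K L a ≠ 0 := by
  intro h
  have h1 : x = algebraMap K L a := sub_eq_zero.1 h
  have h3 : K⟮x⟯ = ⊥ := by
    rw [h1, IntermediateField.adjoin_simple_eq_bot_iff]
    exact IntermediateField.mem_bot.2 ⟨a, rfl⟩
  rw [h3] at hx
  have h4 : finrank K L = 1 := by
    rw [← IntermediateField.finrank_top' (F := K) (E := L), ← hx, IntermediateField.finrank_bot]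
  omega

lemma deg_min {L : Type} [Field L] [NumberField L] [Algebra K L] {x : L}
    (hx : K⟮x⟯ = ⊤) : (minpoly K x).natDegree = finrank K L := by
  have hint : IsIntegral K x := Algebra.IsIntegral.isIntegral x
  rw [← IntermediateField.adjoin.finrank hint, hx, IntermediateField.finrank_top']

/-- values of the minimal polynomial are norms -/
theorem eval_min {L : Type} [Field L] [NumberField L] [Algebra K L] {x : L} (hx : K⟮x⟯ = ⊤)
    (z : K) : (minpoly K x).eval z = Algebra.norm K (algebraMap K L z - x) := by
  have hint : IsIntegral K x := Algebra.IsIntegral.isIntegral x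
  set F : L →ₗ[K] L := Algebra.lmul K L x with hF
  have h1 := LinearMap.eval_charpoly F z
  have h2 : (algebraMap K (Module.End K L) z - F) = Algebra.lmul K L (algebraMap K L z - x) := by
    ext y
    simp [hF, Algebra.smul_def, sub_mul]
  rw [h2] at h1
  have h3 : Algebra.norm K (algebraMap K L z - x) =
    LinearMap.det (Algebra.lmul K L (algebraMap K L z - x)) := Algebra.norm_apply K _
  rw [h3, ← h1]
  congr 1
  have h4 : minpoly K x ∣ F.charpoly := by
    apply minpoly.dvd
    have h5 := LinearMap.aeval_self_charpoly F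
    have h6 : Polynomial.aeval F F.charpoly = Algebra.lmul K L (Polynomial.aeval x F.charpoly) := by
      rw [hF]
      exact (Polynomial.aeval_algHom_apply (Algebra.lmul K L) x _).symm ▸ rfl
    rw [h6] at h5
    have h7 := congrArg (fun G : Module.End K L => G 1) h5
    simpa using h7
  have h5 : F.charpoly.natDegree = finrank K L := LinearMap.charpoly_natDegree F
  refine (Polynomial.eq_of_monic_of_dvd_of_natDegree_le (minpoly.monic hint)
    (LinearMap.charpoly_monic F) h4 ?_).symm
  rw [h5, deg_min hx]

/-- upper bounds for the Taylor coefficients of the minimal polynomial -/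
theorem loc_up (v : Pl K) (r : ℕ) (hr : 2 ≤ r) (a : K) : ∃ C : ℝ, 0 ≤ C ∧ ∀ (L : Type) [Field L]
    [NumberField L] [Algebra K L], finrank K L = r → ∀ x : L, K⟮x⟯ = ⊤ → ∀ s : ℝ, 0 ≤ s →
      ∀ j : ℕ, j ≤ r → av v ((Polynomial.taylor a (minpoly K x)).coeff j) ≤
        Real.exp ((rho v x - ∑ w ∈ ab L v, nn v w * min (la v a x w) s + j * s + C) / wt v) := by
  obtain ⟨κ, hκ0, hκ⟩ := exists_scale v
  obtain ⟨C1, hC1, hC⟩ := coeff_bd r K (av v)
  have hwv := wt_pos v
  have hC10 : 0 < C1 := by linarith
  have hlC1 : 0 ≤ Real.log C1 := Real.log_nonneg hC1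
  have hr0 : (0 : ℝ) ≤ r := Nat.cast_nonneg r
  have hlr : 0 ≤ Real.log (1 + r) := Real.log_nonneg (by linarith)
  refine ⟨r * (2 * Real.log (1 + r)) + r * κ + wt v * Real.log C1, by positivity, ?_⟩
  intro L _ _ _ hrL x hx s hs j hj
  obtain ⟨π, hπ0, hπ1, hπ2⟩ := hκ s hs
  have h2L : 2 ≤ finrank K L := by omega
  set Φ : ℝ := ∑ w ∈ ab L v, nn v w * min (la v a x w) s with hΦ
  have hval : ∀ k : Fin (r + 1), av v ((minpoly K x).eval (a + ((k : ℕ) : K) * π)) ≤
      Real.exp ((rho v x - Φ + r * (2 * Real.log (1 + r))) / wt v) := by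
    intro k
    rw [eval_min hx]
    set z : K := a + ((k : ℕ) : K) * π with hz
    have hne : algebraMap K L z - x ≠ 0 := by
      have := irr_ne h2L hx z
      intro h
      apply this
      rw [← neg_sub, h, neg_zero]
    have hNne : Algebra.norm K (algebraMap K L z - x) ≠ 0 := by
      rw [Ne, Algebra.norm_eq_zero_iff]
      exact hne
    have hpos : 0 < av v (Algebra.norm K (algebraMap K L z - x)) := (av v).pos hNne
    rw [← Real.log_le_iff_le_exp hpos, le_div_iff₀ hwv, mul_comm, norm_pl v _ hne]
    have hone : ∀ w ∈ ab L v, wt w * Real.log (av w (algebraMap K L z - x)) ≤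
        wt w * Real.log (max 1 (av w x)) - nn v w * min (la v a x w) s +
          2 * Real.log (1 + r) := by
      intro w hw
      have hov := mem_ab.1 hw
      have hww := wt_pos w
      have hnn := one_le_nn hov
      have hnn0 : 0 < nn v w := by linarith
      have hxa := irr_ne h2L hx a
      have hxa' : 0 < av w (x - algebraMap K L a) := (av w).pos hxa
      have hπL : algebraMap K L π ≠ 0 := by
        rw [Ne, map_eq_zero]
        exact hπ0
      have hπw : 0 < av w (algebraMap K L π) := (av w).pos hπL
      set m : ℝ := max (av w (x - algebraMap K L a)) (av w (algebraMap K L π)) with hm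
      have hm0 : 0 < m := lt_max_of_lt_left hxa'
      have h1 : av w (algebraMap K L z - x) ≤ (1 + r) * m := by
        have e1 : algebraMap K L z - x = -(x - algebraMap K L a) +
            ((k : ℕ) : L) * algebraMap K L π := by
          rw [hz, map_add, map_mul, map_natCast]
          ring
        rw [e1]
        refine ((av w).add_le _ _).trans ?_
        rw [map_mul, (av w).map_neg]
        have h3 : av w ((k : ℕ) : L) ≤ r := (av_nat w k).trans (by
          have := k.2
          have h5 : (k : ℕ) ≤ r := by omega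
          exact_mod_cast h5)
        have h4 : av w ((k : ℕ) : L) * av w (algebraMap K L π) ≤ r * m :=
          mul_le_mul h3 (le_max_right _ _) hπw.le hr0
        have h5 : av w (x - algebraMap K L a) ≤ m := le_max_left _ _
        linarith
      have hpos' : 0 < av w (algebraMap K L z - x) := (av w).pos hne
      have h2 := Real.log_le_log hpos' h1
      rw [Real.log_mul (by positivity) hm0.ne'] at h2
      have h3 := mul_le_mul_of_nonneg_left h2 hww.le
      have h4 : wt w * Real.log (1 + r) ≤ 2 * Real.log (1 + r) :=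
        mul_le_mul_of_nonneg_right (wt_le_two w) hlr
      have h5 : wt w * Real.log m ≤ wt w * Real.log (max 1 (av w x)) -
          nn v w * min (la v a x w) s := by
        have hmax : 0 < max 1 (av w x) := lt_max_of_lt_left one_pos
        rcases le_total (av w (x - algebraMap K L a)) (av w (algebraMap K L π)) with h | h
        · rw [hm, max_eq_right h, nn_ext hov π]
          have h6 : nn v w * (wt v * Real.log (av v π)) ≤ nn v w * (-s) :=
            mul_le_mul_of_nonneg_left hπ1 hnn0.le
          have h7 : nn v w * min (la v a x w) s ≤ nn v w * s :=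
            mul_le_mul_of_nonneg_left (min_le_right _ _) hnn0.le
          have h8 : 0 ≤ wt w * Real.log (max 1 (av w x)) :=
            mul_nonneg hww.le (Real.log_nonneg (le_max_left _ _))
          linarith
        · rw [hm, max_eq_left h]
          have h6 : nn v w * la v a x w = wt w * Real.log (max 1 (av w x)) -
              wt w * Real.log (av w (x - algebraMap K L a)) := by
            unfold la
            rw [Real.log_div hmax.ne' hxa'.ne']
            field_simp
          have h7 : nn v w * min (la v a x w) s ≤ nn v w * la v a x w :=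
            mul_le_mul_of_nonneg_left (min_le_left _ _) hnn0.le
          linarith
      linarith
    refine (Finset.sum_le_sum hone).trans ?_
    rw [Finset.sum_add_distrib, Finset.sum_sub_distrib, Finset.sum_const, nsmul_eq_mul]
    have hcard : ((ab L v).card : ℝ) ≤ r := by
      have := card_ab_le L v
      rw [hrL] at this
      exact_mod_cast this
    have h1 : ((ab L v).card : ℝ) * (2 * Real.log (1 + r)) ≤ r * (2 * Real.log (1 + r)) :=
      mul_le_mul_of_nonneg_right hcard (by positivity)
    have h2 : rho v x = ∑ w ∈ ab L v, wt w * Real.log (max 1 (av w x)) := rfl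
    rw [h2]
    linarith
  have hdeg : (minpoly K x).natDegree ≤ r := by rw [deg_min hx, hrL]
  have h1 := hC (minpoly K x) hdeg a π _ hval j hj
  have hπv : 0 < av v π := (av v).pos hπ0
  have h2 : Real.exp (-(j * (s + κ)) / wt v) ≤ av v π ^ j := by
    rw [← Real.le_log_iff_exp_le (pow_pos hπv j), Real.log_pow, div_le_iff₀ hwv]
    have h3 : (-s - κ) * (j : ℝ) ≤ (wt v * Real.log (av v π)) * j :=
      mul_le_mul_of_nonneg_right hπ2 (Nat.cast_nonneg j)
    linarith
  have h3 : av v ((Polynomial.taylor a (minpoly K x)).coeff j) *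
      Real.exp (-(j * (s + κ)) / wt v) ≤
      C1 * Real.exp ((rho v x - Φ + r * (2 * Real.log (1 + r))) / wt v) :=
    (mul_le_mul_of_nonneg_left h2 ((av v).nonneg _)).trans h1
  have h4 : av v ((Polynomial.taylor a (minpoly K x)).coeff j) ≤
      C1 * Real.exp ((rho v x - Φ + r * (2 * Real.log (1 + r))) / wt v) *
        Real.exp ((j * (s + κ)) / wt v) := by
    have h5 := mul_le_mul_of_nonneg_right h3 (Real.exp_pos ((j * (s + κ)) / wt v)).le
    rw [mul_assoc, ← Real.exp_add] at h5
    have h6 : -(j * (s + κ)) / wt v + (j * (s + κ)) / wt v = 0 := by ring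
    rwa [h6, Real.exp_zero, mul_one] at h5
  refine h4.trans ?_
  have h5 : C1 = Real.exp (Real.log C1) := (Real.exp_log hC10).symm
  have h6 : C1 * Real.exp ((rho v x - Φ + r * (2 * Real.log (1 + r))) / wt v) *
        Real.exp ((j * (s + κ)) / wt v) = Real.exp (Real.log C1 +
          (rho v x - Φ + r * (2 * Real.log (1 + r))) / wt v + (j * (s + κ)) / wt v) := by
    rw [Real.exp_add, Real.exp_add, ← h5]
  rw [h6, Real.exp_le_exp]
  have h7 : Real.log C1 + (rho v x - Φ + r * (2 * Real.log (1 + r))) / wt v +
      (j * (s + κ)) / wt v = (rho v x - Φ + j * s + (r * (2 * Real.log (1 + r)) + j * κ +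
        wt v * Real.log C1)) / wt v := by
    field_simp
    ring
  rw [h7]
  refine div_le_div_of_nonneg_right ?_ hwv.le
  have h8 : (j : ℝ) * κ ≤ r * κ := mul_le_mul_of_nonneg_right (by exact_mod_cast hj) hκ0
  linarith

end Pool.Agent.H85.X
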