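import Pool.Agent.H85.X.Loc

/-!
The size of the coefficient vector of the minimal polynomial.
-/

set_option autoImplicit false

namespace Pool.Agent.H85.X

open NumberField IsDedekindDomain Finset Module IntermediateField Height
open Pool.Agent.W180.OP (Pl av wt fv fv_apply wt_nonneg nrm le_nrm nrm_pos nrm_nonneg exists_nrm
  fv_support_finite)
open Pool.Agent.W180.TP (wt_pos)
open Pool.Agent.NH28

variable {K : Type} [Field K] [NumberField K]

/-- the coefficient vector -/
noncomputable def cf (r : ℕ) {L : Type} [Field L] [Algebra K L] (x : L) : Fin (r + 1) → K :=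
  fun j => (minpoly K x).coeff j

lemma cf_last {r : ℕ} {L : Type} [Field L] [NumberField L] [Algebra K L] (hrL : finrank K L = r)
    {x : L} (hx : K⟮x⟯ = ⊤) : cf (K := K) r x (Fin.last r) = 1 := by
  have hint : IsIntegral K x := Algebra.IsIntegral.isIntegral x
  unfold cf
  rw [Fin.val_last, ← hrL, ← deg_min hx]
  exact minpoly.monic hint

lemma cf_ne {r : ℕ} {L : Type} [Field L] [NumberField L] [Algebra K L] (hrL : finrank K L = r)
    {x : L} (hx : K⟮x⟯ = ⊤) : cf (K := K) r x ≠ 0 := by
  intro h
  have := cf_last hrL hx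
  rw [h] at this
  exact zero_ne_one this

lemma eval_cf {r : ℕ} {L : Type} [Field L] [NumberField L] [Algebra K L] (hrL : finrank K L = r)
    {x : L} (hx : K⟮x⟯ = ⊤) (z : K) :
    (minpoly K x).eval z = ∑ j : Fin (r + 1), cf r x j * z ^ (j : ℕ) := by
  rw [Polynomial.eval_eq_sum_range' (n := r + 1) (by rw [deg_min hx, hrL]; omega), Finset.sum_range]
  rfl

/-- lower bound for the coefficient vector at a place -/
theorem loc_low (v : Pl K) (r : ℕ) (hr : 2 ≤ r) : ∃ C : ℝ, 0 ≤ C ∧ ∀ (L : Type) [Field L]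
    [NumberField L] [Algebra K L], finrank K L = r → ∀ x : L, K⟮x⟯ = ⊤ →
      rho v x ≤ wt v * Real.log (nrm (av v) (cf (K := K) r x)) + C := by
  classical
  have hwv := wt_pos v
  have hr0 : (0 : ℝ) ≤ r := Nat.cast_nonneg r
  -- distances of the nodes
  set P : Finset (Fin (r + 1) × Fin (r + 1)) := Finset.univ.filter fun p => p.1 ≠ p.2 with hP
  set M : ℝ := ∑ p : Fin (r + 1) × Fin (r + 1),
    |wt v * Real.log (av v (((p.1 : ℕ) : K) - ((p.2 : ℕ) : K)))| with hM
  have hM0 : 0 ≤ M := Finset.sum_nonneg fun _ _ => abs_nonneg _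
  -- threshold
  set T : ℝ := r * M + Real.log (4 * (r + 1)) with hT
  have hT0 : 0 ≤ T := add_nonneg (by positivity) (Real.log_nonneg (by linarith))
  set δ : ℝ := Real.exp (-T) with hδ
  have hδ0 : 0 < δ := Real.exp_pos _
  have hδ1 : δ ≤ 1 / (4 * (r + 1)) := by
    rw [hδ, hT, neg_add, Real.exp_add, Real.exp_neg (Real.log _), Real.exp_log (by positivity)]
    have h1 : Real.exp (-(r * M)) ≤ 1 := by
      rw [Real.exp_le_one_iff]
      have : 0 ≤ r * M := by positivity
      linarith
    have h2 : 0 < (4 * ((r : ℝ) + 1))⁻¹ := by positivity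
    rw [one_div]
    nlinarith
  have hlc : 0 ≤ Real.log ((r + 1) * (r + 1) ^ r) := by
    refine Real.log_nonneg ?_
    have h1 : (1 : ℝ) ≤ r + 1 := by linarith
    exact one_le_mul_of_one_le_of_one_le h1 (one_le_pow₀ h1)
  refine ⟨r * (2 * T) + wt v * Real.log ((r + 1) * (r + 1) ^ r), by positivity, ?_⟩
  intro L _ _ _ hrL x hx
  have h2L : 2 ≤ finrank K L := by omega
  -- each `w` is close to at most one node
  have hclose : ∀ w ∈ ab L v, ∀ k k' : Fin (r + 1),
      av w (((k : ℕ) : L) - x) < δ * max 1 (av w x) →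
      av w (((k' : ℕ) : L) - x) < δ * max 1 (av w x) → k = k' := by
    intro w hw k k' h1 h2
    by_contra hkk
    have hov := mem_ab.1 hw
    have hww := wt_pos w
    have hnn := one_le_nn hov
    have hnn0 : 0 < nn v w := by linarith
    set m : ℝ := max 1 (av w x) with hm
    have hm1 : 1 ≤ m := le_max_left _ _
    have hxk : av w x ≤ av w (((k : ℕ) : L) - x) + r := by
      have e1 : x = -(((k : ℕ) : L) - x) + ((k : ℕ) : L) := by ring
      have h3 : av w x ≤ av w (-(((k : ℕ) : L) - x)) + av w ((k : ℕ) : L) := by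
        conv_lhs => rw [e1]
        exact (av w).add_le _ _
      rw [(av w).map_neg] at h3
      have h4 : av w ((k : ℕ) : L) ≤ r := (av_nat w k).trans (by
        have := k.2
        have h5 : (k : ℕ) ≤ r := by omega
        exact_mod_cast h5)
      linarith
    have hm2 : m ≤ 2 * (r + 1) := by
      have h3 : m ≤ δ * m + (r + 1) := by
        refine max_le ?_ ?_
        · have : 0 ≤ δ * m := by positivity
          linarith
        · linarith
      have h4 : δ ≤ 1 / 2 := hδ1.trans (by
        rw [div_le_div_iff₀ (by positivity) (by norm_num)]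
        linarith)
      nlinarith
    have h3 : av w (((k : ℕ) : L) - ((k' : ℕ) : L)) < δ * (4 * (r + 1)) := by
      have e1 : ((k : ℕ) : L) - ((k' : ℕ) : L) = (((k : ℕ) : L) - x) + -(((k' : ℕ) : L) - x) := by
        ring
      have h4 : av w (((k : ℕ) : L) - ((k' : ℕ) : L)) ≤ av w (((k : ℕ) : L) - x) +
          av w (((k' : ℕ) : L) - x) := by
        rw [e1]
        refine ((av w).add_le _ _).trans ?_
        rw [(av w).map_neg]
      have h5 : δ * m ≤ δ * (2 * (r + 1)) := mul_le_mul_of_nonneg_left hm2 hδ0.le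
      linarith
    have hkne : ((k : ℕ) : K) - ((k' : ℕ) : K) ≠ 0 := by
      intro h
      have h4 : ((k : ℕ) : K) = ((k' : ℕ) : K) := sub_eq_zero.1 h
      exact hkk (Fin.ext (by exact_mod_cast h4))
    have e2 : ((k : ℕ) : L) - ((k' : ℕ) : L) = algebraMap K L (((k : ℕ) : K) - ((k' : ℕ) : K)) := by
      rw [map_sub, map_natCast, map_natCast]
    have hpos : 0 < av w (((k : ℕ) : L) - ((k' : ℕ) : L)) := by
      apply (av w).pos
      rw [e2, Ne, map_eq_zero]
      exact hkne
    have h4 := Real.log_lt_log hpos h3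
    rw [Real.log_mul hδ0.ne' (by positivity), hδ, Real.log_exp, hT] at h4
    have h5 := nn_ext hov (((k : ℕ) : K) - ((k' : ℕ) : K))
    rw [← e2] at h5
    have h6 : -M ≤ wt v * Real.log (av v (((k : ℕ) : K) - ((k' : ℕ) : K))) := by
      have h7 := Finset.single_le_sum (f := fun p : Fin (r + 1) × Fin (r + 1) =>
        |wt v * Real.log (av v (((p.1 : ℕ) : K) - ((p.2 : ℕ) : K)))|)
        (fun _ _ => abs_nonneg _) (Finset.mem_univ (k, k'))
      have h8 : |wt v * Real.log (av v (((k : ℕ) : K) - ((k' : ℕ) : K)))| ≤ M := h7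
      exact (abs_le.1 h8).1
    have h9 : nn v w ≤ r := by
      have h10 := sum_nn L v
      rw [hrL] at h10
      rw [← h10]
      exact Finset.single_le_sum (f := fun w => nn v w) (fun w _ => nn_nonneg v w) hw
    have h11 : -(r * M) ≤ wt w * Real.log (av w (((k : ℕ) : L) - ((k' : ℕ) : L))) := by
      rw [h5]
      have h12 := mul_le_mul_of_nonneg_left h6 hnn0.le
      have h13 : nn v w * M ≤ r * M := mul_le_mul_of_nonneg_right h9 hM0
      linarith
    have hw1 : 1 ≤ wt w := by
      cases w with
      | inl w =>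
        show (1 : ℝ) ≤ w.mult
        exact_mod_cast InfinitePlace.mult_pos
      | inr w => exact le_rfl
    have h14 : Real.log (av w (((k : ℕ) : L) - ((k' : ℕ) : L))) < -(r * M) := by linarith
    have h15 : wt w * Real.log (av w (((k : ℕ) : L) - ((k' : ℕ) : L))) < -(r * M) := by
      have h16 : 0 ≤ r * M := by positivity
      have h17 : Real.log (av w (((k : ℕ) : L) - ((k' : ℕ) : L))) ≤ 0 := by linarith
      have h18 : wt w * Real.log (av w (((k : ℕ) : L) - ((k' : ℕ) : L))) ≤
          1 * Real.log (av w (((k : ℕ) : L) - ((k' : ℕ) : L))) :=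
        mul_le_mul_of_nonpos_right hw1 h17
      linarith
    linarith
  -- a node far from all `w`
  have hnode : ∃ k : Fin (r + 1), ∀ w ∈ ab L v, δ * max 1 (av w x) ≤ av w (((k : ℕ) : L) - x) := by
    by_contra hcon
    push Not at hcon
    choose φ hφ1 hφ2 using hcon
    have hinj : Function.Injective φ := by
      intro k k' hkk
      exact hclose (φ k) (hφ1 k) k k' (hφ2 k) (by rw [hkk]; exact hφ2 k')
    have h1 : (Finset.univ : Finset (Fin (r + 1))).card ≤ (ab L v).card :=
      Finset.card_le_card_of_injOn φ (fun k _ => hφ1 k) hinj.injOn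
    have h2 := card_ab_le L v
    rw [hrL] at h2
    rw [Finset.card_univ, Fintype.card_fin] at h1
    omega
  obtain ⟨k, hk⟩ := hnode
  have hne : algebraMap K L ((k : ℕ) : K) - x ≠ 0 := by
    have := irr_ne h2L hx ((k : ℕ) : K)
    intro h
    apply this
    rw [← neg_sub, h, neg_zero]
  have hNne : Algebra.norm K (algebraMap K L ((k : ℕ) : K) - x) ≠ 0 := by
    rw [Ne, Algebra.norm_eq_zero_iff]
    exact hne
  have hN := norm_pl v _ hne
  rw [← eval_min hx] at hN
  have hcn := cf_ne (K := K) hrL hx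
  have hup : av v ((minpoly K x).eval ((k : ℕ) : K)) ≤
      ((r + 1) * (r + 1) ^ r) * nrm (av v) (cf (K := K) r x) := by
    rw [eval_cf hrL hx]
    refine ((av v).sum_le _ _).trans ?_
    have h1 : ∀ j : Fin (r + 1), av v (cf (K := K) r x j * ((k : ℕ) : K) ^ (j : ℕ)) ≤
        (r + 1) ^ r * nrm (av v) (cf (K := K) r x) := by
      intro j
      rw [map_mul, map_pow, mul_comm]
      have h2 : av v ((k : ℕ) : K) ≤ r + 1 := (av_nat v k).trans (by
        have := k.2
        exact_mod_cast this.le)
      have h3 : av v ((k : ℕ) : K) ^ (j : ℕ) ≤ ((r : ℝ) + 1) ^ r :=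
        (pow_le_pow_left₀ ((av v).nonneg _) h2 _).trans
          (pow_le_pow_right₀ (by linarith) (by have := j.2; omega))
      exact mul_le_mul h3 (le_nrm _ _ _) ((av v).nonneg _) (by positivity)
    refine (Finset.sum_le_sum fun j _ => h1 j).trans ?_
    rw [Finset.sum_const, Finset.card_univ, Fintype.card_fin, nsmul_eq_mul]
    push_cast
    rw [mul_assoc]
  have hpos : 0 < av v ((minpoly K x).eval ((k : ℕ) : K)) := by
    apply (av v).pos
    rw [eval_min hx]
    exact hNne
  have h1 := Real.log_le_log hpos hup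
  rw [Real.log_mul (by positivity) (nrm_pos _ hcn).ne'] at h1
  have h2 := mul_le_mul_of_nonneg_left h1 hwv.le
  rw [hN, mul_add] at h2
  have h3 : ∀ w ∈ ab L v, wt w * Real.log (max 1 (av w x)) - 2 * T ≤
      wt w * Real.log (av w (algebraMap K L ((k : ℕ) : K) - x)) := by
    intro w hw
    have hww := wt_pos w
    have h4 := hk w hw
    have hmax : 0 < max 1 (av w x) := lt_max_of_lt_left one_pos
    have h5 := Real.log_le_log (by positivity) h4
    rw [Real.log_mul hδ0.ne' hmax.ne', hδ, Real.log_exp] at h5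
    have h6 := mul_le_mul_of_nonneg_left h5 hww.le
    rw [map_natCast]
    have h7 : wt w * T ≤ 2 * T := mul_le_mul_of_nonneg_right (wt_le_two w) hT0
    linarith
  have h4 := Finset.sum_le_sum h3
  rw [Finset.sum_sub_distrib, Finset.sum_const, nsmul_eq_mul] at h4
  have hcard : ((ab L v).card : ℝ) ≤ r := by
    have := card_ab_le L v
    rw [hrL] at this
    exact_mod_cast this
  have h5 : ((ab L v).card : ℝ) * (2 * T) ≤ r * (2 * T) :=
    mul_le_mul_of_nonneg_right hcard (by positivity)
  have h6 : rho v x = ∑ w ∈ ab L v, wt w * Real.log (max 1 (av w x)) := rfl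
  rw [h6]
  linarith

end Pool.Agent.H85.X
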