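import Pool.Agent.H85.X.GlobX

/-!
The main inequality.
-/

set_option autoImplicit false

namespace Pool.Agent.H85.X

open NumberField IsDedekindDomain Finset Module IntermediateField Height
open Pool.Agent.W180.OP (Pl av wt fv fv_apply wt_nonneg nrm le_nrm nrm_pos nrm_nonneg exists_nrm
  fv_support_finite)
open Pool.Agent.W180.TP (wt_pos fin_le_one)
open Pool.Agent.NH28

variable {K : Type} [Field K] [NumberField K]

lemma fv_sum_le (v : HeightOneSpectrum (𝓞 K)) {ι : Type} (s : Finset ι) (g : ι → K) {B : ℝ}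
    (hB : 0 ≤ B) (h : ∀ i ∈ s, fv v (g i) ≤ B) : fv v (∑ i ∈ s, g i) ≤ B := by
  classical
  induction s using Finset.induction_on with
  | empty => simpa using hB
  | insert i s hi ih =>
    rw [Finset.sum_insert hi]
    exact (fv_nonarch v _ _).trans (max_le (h i (Finset.mem_insert_self i s))
      (ih fun j hj => h j (Finset.mem_insert_of_mem hj)))

lemma fv_int (v : HeightOneSpectrum (𝓞 K)) (k : ℤ) : fv v ((k : ℤ) : K) ≤ 1 :=
  fin_le_one (FinitePlace.mk v) (by
    have : ((k : ℤ) : K) = algebraMap ℤ K k := by simp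
    rw [this]
    exact isIntegral_algebraMap)

/-- the discriminant form is bounded by the norm at the finite places -/
theorem DK_le (v : HeightOneSpectrum (𝓞 K)) {r : ℕ} (hr : 2 ≤ r) (c : Fin (r + 1) → K) :
    fv v (MvPolynomial.eval c (DK K r)) ≤ nrm (fv v) c ^ (2 * r - 2) := by
  classical
  have h0 : 0 ≤ nrm (fv v) c := nrm_nonneg _ _
  unfold DK
  rw [MvPolynomial.eval_map, MvPolynomial.eval₂_eq']
  refine fv_sum_le v _ _ (by positivity) fun α hα => ?_
  have hdeg : ∑ j, α j = 2 * r - 2 := by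
    rw [← degree_eq_sum]
    have := (De_hom r hr) (MvPolynomial.mem_support_iff.1 hα)
    rw [← this]
    simp [Finsupp.weight_apply, Finsupp.degree, Finsupp.sum]
  rw [map_mul, map_prod]
  have h1 : fv v ((Int.castRingHom K) (MvPolynomial.coeff α (De r))) ≤ 1 := fv_int v _
  have h2 : ∏ j, fv v (c j ^ α j) ≤ nrm (fv v) c ^ (2 * r - 2) := by
    rw [← hdeg, ← Finset.prod_pow_eq_pow_sum]
    refine Finset.prod_le_prod (fun j _ => (fv v).nonneg _) fun j _ => ?_
    rw [map_pow]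
    exact pow_le_pow_left₀ ((fv v).nonneg _) (le_nrm _ _ _) _
  calc _ ≤ 1 * nrm (fv v) c ^ (2 * r - 2) :=
        mul_le_mul h1 h2 (Finset.prod_nonneg fun j _ => (fv v).nonneg _) zero_le_one
    _ = _ := one_mul _

/-- the local discriminant of the order -/
noncomputable def od {r : ℕ} (c : Fin (r + 1) → K) (v : HeightOneSpectrum (𝓞 K)) : ℝ :=
  ((2 * r - 2 : ℕ) : ℝ) * Real.log (nrm (fv v) c) -
    Real.log (fv v (MvPolynomial.eval c (DK K r)))

lemma od_nonneg {r : ℕ} (hr : 2 ≤ r) (c : Fin (r + 1) → K)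
    (hD : MvPolynomial.eval c (DK K r) ≠ 0) (v : HeightOneSpectrum (𝓞 K)) : 0 ≤ od c v := by
  unfold od
  have h1 := Real.log_le_log ((fv v).pos hD) (DK_le v hr c)
  rw [Real.log_pow] at h1
  linarith

lemma od_supp {r : ℕ} (c : Fin (r + 1) → K) (v : HeightOneSpectrum (𝓞 K))
    (h1 : nrm (fv v) c = 1) (h2 : fv v (MvPolynomial.eval c (DK K r)) = 1) : od c v = 0 := by
  unfold od
  rw [h1, h2]
  simp

/-- the product formula for the discriminant form -/
theorem prod_disc {r : ℕ} (c : Fin (r + 1) → K) (hc : c ≠ 0)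
    (hD : MvPolynomial.eval c (DK K r) ≠ 0) (S : Finset (Pl K))
    (hS : ∀ v : InfinitePlace K, Sum.inl v ∈ S) :
    ∑ v ∈ S, (((2 * r - 2 : ℕ) : ℝ) * (wt v * Real.log (nrm (av v) c)) -
      wt v * Real.log (av v (MvPolynomial.eval c (DK K r)))) =
    ((2 * r - 2 : ℕ) : ℝ) * logHeight c -
      ∑ᶠ v ∈ {v : HeightOneSpectrum (𝓞 K) | (Sum.inr v : Pl K) ∉ S}, od c v := by
  classical
  set T : Finset (HeightOneSpectrum (𝓞 K)) :=
    (nrm_support hc).toFinset ∪ (fv_support_finite hD).toFinset with hT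
  set R : Finset (Pl K) := (T.map ⟨Sum.inr, Sum.inr_injective⟩) \ S with hR
  have hdis : Disjoint S R := Finset.disjoint_sdiff
  have hmem : ∀ v : HeightOneSpectrum (𝓞 K), v ∈ T → (Sum.inr v : Pl K) ∈ S ∪ R := by
    intro v hv
    rw [hR, Finset.union_sdiff_self_eq_union, Finset.mem_union, Finset.mem_map]
    exact Or.inr ⟨v, hv, rfl⟩
  have h1 := height_S hc (S ∪ R) (fun v => Finset.mem_union_left _ (hS v)) (fun v hv => hmem v (by
    rw [hT, Finset.mem_union, Set.Finite.mem_toFinset]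
    exact Or.inl hv))
  have h2 := prod_S hD (S ∪ R) (fun v => Finset.mem_union_left _ (hS v)) (fun v hv => hmem v (by
    rw [hT, Finset.mem_union, Set.Finite.mem_toFinset, Set.Finite.mem_toFinset]
    exact Or.inr hv))
  have h3 : ∑ᶠ v ∈ {v : HeightOneSpectrum (𝓞 K) | (Sum.inr v : Pl K) ∉ S}, od c v =
      ∑ v ∈ R, (((2 * r - 2 : ℕ) : ℝ) * (wt v * Real.log (nrm (av v) c)) -
      wt v * Real.log (av v (MvPolynomial.eval c (DK K r)))) := by
    have h4 : R = (T.filter fun v => (Sum.inr v : Pl K) ∉ S).map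
        ⟨Sum.inr, Sum.inr_injective⟩ := by
      ext v
      rw [hR, Finset.mem_sdiff, Finset.mem_map, Finset.mem_map]
      constructor
      · rintro ⟨⟨u, hu, rfl⟩, hv⟩
        exact ⟨u, Finset.mem_filter.2 ⟨hu, hv⟩, rfl⟩
      · rintro ⟨u, hu, rfl⟩
        rw [Finset.mem_filter] at hu
        exact ⟨⟨u, hu.1, rfl⟩, hu.2⟩
    rw [h4, Finset.sum_map, finsum_mem_eq_sum_of_subset (t := T.filter fun v =>
      (Sum.inr v : Pl K) ∉ S)]
    · refine Finset.sum_congr rfl fun v _ => ?_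
      show od c v = ((2 * r - 2 : ℕ) : ℝ) * (1 * Real.log (nrm (fv v) c)) -
        1 * Real.log (fv v (MvPolynomial.eval c (DK K r)))
      rw [one_mul, one_mul]
      rfl
    · rintro v ⟨hv1, hv2⟩
      rw [Finset.mem_coe, Finset.mem_filter]
      refine ⟨?_, hv1⟩
      by_contra hvT
      apply hv2
      rw [hT, Finset.mem_union, Set.Finite.mem_toFinset, Set.Finite.mem_toFinset, not_or] at hvT
      exact od_supp c v (not_not.1 hvT.1) (not_not.1 hvT.2)
    · intro v hv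
      exact (Finset.mem_filter.1 (Finset.mem_coe.1 hv)).2
  rw [h3, h1, Finset.mul_sum]
  rw [Finset.sum_union hdis, Finset.sum_sub_distrib, Finset.sum_sub_distrib]
  rw [Finset.sum_union hdis] at h2
  linarith

theorem main_x {r q : ℕ} (hr : 2 ≤ r) (hq : 0 < q) (a : Fin q → K) (ha : Function.Injective a)
    (ε : ℝ) (hε : 0 < ε) :
    ∃ Z : MvPolynomial (Fin (r + 1)) K, Z ≠ 0 ∧ (∃ t, Z.IsHomogeneous t) ∧
      ∀ S : Finset (Pl K), (∀ v : InfinitePlace K, Sum.inl v ∈ S) → ∃ C : ℝ, 0 ≤ C ∧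
        ∀ (L : Type) [Field L] [NumberField L] [Algebra K L],
        finrank K L = r → ∀ x : L, K⟮x⟯ = ⊤ → MvPolynomial.eval (cf (K := K) r x) Z ≠ 0 →
          MvPolynomial.eval (cf (K := K) r x) (DK K r) ≠ 0 ∧
          ∑ v ∈ S, ∑ i, (∑ w ∈ ab L v, nn v w * la v (a i) x w) +
            ((r - 2 : ℝ) / (2 * r - 2)) * ∑ v ∈ S, ∑ i, (∑ w ∈ ab L v, ∑ w' ∈ ab L v,
              nn v w * nn v w' * min (la v (a i) x w) (la v (a i) x w') -
              ∑ w ∈ ab L v, nn v w * la v (a i) x w) ≤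
          (r + ε) * logHeight₁ x +
            (∑ᶠ v ∈ {v : HeightOneSpectrum (𝓞 K) | (Sum.inr v : Pl K) ∉ S},
              od (cf (K := K) r x) v) / (2 * r - 2) + C := by
  classical
  have hr2 : (2 : ℝ) ≤ r := by exact_mod_cast hr
  have hδe : ((2 * r - 2 : ℕ) : ℝ) = 2 * r - 2 := by
    rw [Nat.cast_sub (by omega)]
    push_cast
    ring
  set δ : ℝ := 2 * (r : ℝ) - 2 with hδ
  have hδ2 : 2 ≤ δ := by rw [hδ]; linarith
  have hδ0 : 0 < δ := by linarith
  obtain ⟨J0, hJ0⟩ := exists_nat_ge (2 * ((r : ℝ) + 1) / ε)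
  set J : ℕ := max r J0 with hJ
  have hJr : r ≤ J := le_max_left _ _
  have hJ1 : 2 * ((r : ℝ) + 1) / ε ≤ J := hJ0.trans (by exact_mod_cast le_max_right r J0)
  have hJ2 : 2 * ((r : ℝ) + 1) ≤ ε * (J + 1) := by
    rw [div_le_iff₀ hε] at hJ1
    nlinarith
  set Nd : ℕ := (2 * r - 2) * (J + 1) with hNd
  have hNdR : (Nd : ℝ) = δ * (J + 1) := by
    rw [hNd]
    push_cast
    rw [hδe]
  set D : ℕ := (Ex (r + 1) Nd).card with hD
  have hD1 : 1 ≤ D := by
    rw [hD, card_Ex]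
    exact Nat.choose_pos (by omega)
  have hDR : (1 : ℝ) ≤ D := by exact_mod_cast hD1
  have hD0 : (0 : ℝ) < D := by linarith
  have hr1 : (0 : ℝ) < (r : ℝ) + 1 := by linarith
  have hJp : (0 : ℝ) < (J : ℝ) + 1 := by positivity
  obtain ⟨Z, hZ0, hZh, hZ⟩ := glob_x hr hq a ha J Nd D hJr hNd hD (D * ε / (2 * (r + 1)))
    (by positivity)
  refine ⟨Z, hZ0, hZh, fun S hS => ?_⟩
  obtain ⟨C, hC0, hC⟩ := hZ S
  obtain ⟨Ch, hCh0, hCh⟩ := ht_up (K := K) r hr
  set S1 : ℝ := Nd * D / (r + 1) with hS1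
  have hS1p : 0 < S1 := by
    rw [hS1, hNdR]
    positivity
  have hrε : (0 : ℝ) ≤ r + ε := by linarith
  refine ⟨C / S1 + 2 * (S.card * (q * C)) + (r + ε) * Ch, add_nonneg (add_nonneg
    (div_nonneg hC0 hS1p.le) (mul_nonneg zero_le_two (mul_nonneg (Nat.cast_nonneg _)
      (mul_nonneg (Nat.cast_nonneg _) hC0)))) (mul_nonneg hrε hCh0), ?_⟩
  intro L _ _ _ hrL x hx hZx
  obtain ⟨hDx, Λ, hΛ0, hl1, hl2, hmain⟩ := hC L hrL x hx hZx
  refine ⟨hDx, ?_⟩
  set c := cf (K := K) r x with hc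
  have hcn : c ≠ 0 := cf_ne hrL hx
  set R : ℝ := ∑ᶠ v ∈ {v : HeightOneSpectrum (𝓞 K) | (Sum.inr v : Pl K) ∉ S}, od c v with hR
  have hR0 : 0 ≤ R := finsum_mem_induction (p := fun y : ℝ => 0 ≤ y) le_rfl
    (fun _ _ h1 h2 => add_nonneg h1 h2) fun v _ => od_nonneg hr c hDx v
  have hE := prod_disc c hcn hDx S hS
  rw [← hR] at hE
  rw [hδe] at hE hmain
  set E : Pl K → ℝ := fun v => δ * (wt v * Real.log (nrm (av v) c)) -
      wt v * Real.log (av v (MvPolynomial.eval c (DK K r))) with hEd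
  set A : Pl K → ℝ := fun v => ∑ i, ∑ l ∈ range r, ((l : ℝ) + 1) * Λ v i l with hA
  set B : Pl K → ℝ := fun v => ∑ i, ∑ l ∈ range r, 2 * (l : ℝ) * Λ v i l with hB
  set G : Pl K → ℝ := fun v => ∑ i, ∑ l ∈ range r, Λ v i l with hG
  have hm1 : ∑ v ∈ S, (S1 * A v + ((Nd : ℝ) / (r + 1) - δ) * D / δ * (E v - B v)) ≤
      (D + D * ε / (2 * (r + 1))) * (Nd * logHeight c) + C := hmain
  have hE' : ∑ v ∈ S, E v = δ * logHeight c - R := hE
  have hAG : ∀ v, A v = G v + B v / 2 := by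
    intro v
    simp only [hA, hG, hB]
    rw [Finset.sum_div, ← Finset.sum_add_distrib]
    refine Finset.sum_congr rfl fun i _ => ?_
    rw [Finset.sum_div, ← Finset.sum_add_distrib]
    refine Finset.sum_congr rfl fun l _ => ?_
    ring
  have hB0 : ∀ v, 0 ≤ B v := fun v => Finset.sum_nonneg fun i _ => Finset.sum_nonneg fun l _ =>
    mul_nonneg (by positivity) (hΛ0 v i l)
  have hh0 : 0 ≤ logHeight c := logHeight_nonneg c
  rw [Finset.sum_add_distrib, ← Finset.mul_sum, ← Finset.mul_sum, Finset.sum_sub_distrib, hE']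
    at hm1
  have hκ : ((Nd : ℝ) / (r + 1) - δ) * D / δ = S1 / δ - D := by
    rw [hS1]
    field_simp
  rw [hκ] at hm1
  have hBs : 0 ≤ ∑ v ∈ S, B v := Finset.sum_nonneg fun v _ => hB0 v
  have hND : (Nd : ℝ) * D = (r + 1) * S1 := by
    rw [hS1]
    field_simp
  have h1 : (D + D * ε / (2 * (r + 1))) * (Nd * logHeight c) =
      S1 * ((r + 1 + ε / 2) * logHeight c) := by
    have : (D + D * ε / (2 * (r + 1))) * (Nd * logHeight c) =
        (Nd * D) * (1 + ε / (2 * (r + 1))) * logHeight c := by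
      field_simp
    rw [this, hND]
    field_simp
  have h2 : (δ : ℝ) * D ≤ S1 * (ε / 2) := by
    have h3 : S1 = δ * D * ((J + 1) / (r + 1)) := by
      rw [hS1, hNdR]
      field_simp
    rw [h3, mul_assoc]
    refine le_mul_of_one_le_right (mul_nonneg hδ0.le hD0.le) ?_
    rw [div_mul_div_comm, one_le_div (mul_pos hr1 two_pos)]
    linarith
  have h3 : S1 * (∑ v ∈ S, A v - (∑ v ∈ S, B v) / δ) ≤
      S1 * ((r + ε) * logHeight c + R / δ) + C := by
    rw [h1] at hm1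
    have e1 : (S1 / δ - D) * (δ * logHeight c - R - ∑ v ∈ S, B v) =
        S1 * logHeight c - δ * D * logHeight c - S1 * (R / δ) + D * R -
          S1 * ((∑ v ∈ S, B v) / δ) + D * ∑ v ∈ S, B v := by
      have e0 : S1 / δ * δ = S1 := div_mul_cancel₀ _ hδ0.ne'
      linear_combination (logHeight c) * e0
    rw [e1] at hm1
    have e2 := mul_le_mul_of_nonneg_right h2 hh0
    have e3 := mul_nonneg hD0.le hR0
    have e4 := mul_nonneg hD0.le hBs
    have e5 : S1 * ((r + 1 + ε / 2) * logHeight c) =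
      S1 * ((r + ε) * logHeight c) + S1 * logHeight c - S1 * (ε / 2) * logHeight c := by ring
    rw [e5] at hm1
    have e6 : S1 * (∑ v ∈ S, A v - (∑ v ∈ S, B v) / δ) = S1 * ∑ v ∈ S, A v -
      S1 * ((∑ v ∈ S, B v) / δ) := by ring
    have e7 : S1 * ((r + ε) * logHeight c + R / δ) = S1 * ((r + ε) * logHeight c) +
      S1 * (R / δ) := by ring
    rw [e6, e7]
    linarith
  have h4 : ∑ v ∈ S, A v - (∑ v ∈ S, B v) / δ ≤ (r + ε) * logHeight c + R / δ + C / S1 := by
    have e1 : S1 * ((r + ε) * logHeight c + R / δ) + C =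
        S1 * ((r + ε) * logHeight c + R / δ + C / S1) := by
      field_simp
    rw [e1] at h3
    exact le_of_mul_le_mul_left h3 hS1p
  have h5 : ∑ v ∈ S, A v - (∑ v ∈ S, B v) / δ =
      ∑ v ∈ S, G v + ((r - 2 : ℝ) / δ) * ∑ v ∈ S, B v := by
    have : ∑ v ∈ S, A v = ∑ v ∈ S, G v + (∑ v ∈ S, B v) / 2 := by
      rw [Finset.sum_div, ← Finset.sum_add_distrib]
      exact Finset.sum_congr rfl fun v _ => hAG v
    rw [this]
    have e0 : (r - 2 : ℝ) / δ = 1 / 2 - 1 / δ := by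
      rw [div_sub_div _ _ two_ne_zero hδ0.ne', div_eq_div_iff hδ0.ne' (by positivity)]
      rw [hδ]
      ring
    rw [e0]
    ring
  set c2 : ℝ := (r - 2 : ℝ) / δ with hc2
  have hc20 : 0 ≤ c2 := div_nonneg (by linarith) hδ0.le
  have hc21 : c2 ≤ 1 := by
    rw [hc2, div_le_one hδ0, hδ]
    linarith
  have hX : ∑ v ∈ S, ∑ i, (∑ w ∈ ab L v, nn v w * la v (a i) x w) ≤
      ∑ v ∈ S, G v + S.card * (q * C) := by
    rw [← nsmul_eq_mul (S.card) ((q : ℝ) * C), ← Finset.sum_const, ← Finset.sum_add_distrib]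
    refine Finset.sum_le_sum fun v hv => ?_
    have e1 : (q : ℝ) * C = ∑ _i : Fin q, C := by
      rw [Finset.sum_const, Finset.card_univ, Fintype.card_fin, nsmul_eq_mul]
    rw [e1, ← Finset.sum_add_distrib]
    exact Finset.sum_le_sum fun i _ => hl1 v hv i
  have hY : ∑ v ∈ S, ∑ i, (∑ w ∈ ab L v, ∑ w' ∈ ab L v,
              nn v w * nn v w' * min (la v (a i) x w) (la v (a i) x w') -
              ∑ w ∈ ab L v, nn v w * la v (a i) x w) ≤
      ∑ v ∈ S, B v + S.card * (q * C) := by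
    rw [← nsmul_eq_mul (S.card) ((q : ℝ) * C), ← Finset.sum_const, ← Finset.sum_add_distrib]
    refine Finset.sum_le_sum fun v hv => ?_
    have e1 : (q : ℝ) * C = ∑ _i : Fin q, C := by
      rw [Finset.sum_const, Finset.card_univ, Fintype.card_fin, nsmul_eq_mul]
    rw [e1, ← Finset.sum_add_distrib]
    exact Finset.sum_le_sum fun i _ => hl2 v hv i
  have hY2 := mul_le_mul_of_nonneg_left hY hc20
  have hK : 0 ≤ (S.card : ℝ) * (q * C) :=
    mul_nonneg (Nat.cast_nonneg _) (mul_nonneg (Nat.cast_nonneg _) hC0)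
  have hY3 : c2 * (S.card * (q * C)) ≤ S.card * (q * C) := mul_le_of_le_one_left hK hc21
  rw [mul_add] at hY2
  have h6 := mul_le_mul_of_nonneg_left (hCh L hrL x hx) hrε
  rw [← hc] at h6
  rw [h5] at h4
  linarith

end Pool.Agent.H85.X
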