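import Mathlib

/-!
Bases of the forms of a given degree which are adapted to a weight and to the powers of a form.
-/

set_option autoImplicit false

namespace Pool.Agent.H85.X

open MvPolynomial Finset

variable {n : ℕ}

/-- the weight of an exponent -/
noncomputable def bw (b : Fin n → ℝ) (α : Fin n →₀ ℕ) : ℝ := ∑ j, (α j : ℝ) * b j

lemma bw_add (b : Fin n → ℝ) (α β : Fin n →₀ ℕ) : bw b (α + β) = bw b α + bw b β := by
  unfold bw
  rw [← Finset.sum_add_distrib]
  refine Finset.sum_congr rfl fun j _ => ?_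
  rw [Finsupp.add_apply]
  push_cast
  ring

lemma bw_smul (b : Fin n → ℝ) (m : ℕ) (α : Fin n →₀ ℕ) : bw b (m • α) = m * bw b α := by
  unfold bw
  rw [Finset.mul_sum]
  refine Finset.sum_congr rfl fun j _ => ?_
  rw [Finsupp.smul_apply, smul_eq_mul]
  push_cast
  ring

/-- the order: by weight, then lexicographic -/
def Le (b : Fin n → ℝ) (α β : Fin n →₀ ℕ) : Prop :=
  bw b α < bw b β ∨ (bw b α = bw b β ∧ toLex α ≤ toLex β)

lemma Le.bw {b : Fin n → ℝ} {α β : Fin n →₀ ℕ} (h : Le b α β) : bw b α ≤ bw b β := by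
  rcases h with h | h
  · exact h.le
  · exact h.1.le

lemma Le.refl (b : Fin n → ℝ) (α : Fin n →₀ ℕ) : Le b α α := Or.inr ⟨rfl, le_rfl⟩

lemma Le.total (b : Fin n → ℝ) (α β : Fin n →₀ ℕ) : Le b α β ∨ Le b β α := by
  rcases lt_trichotomy (Pool.Agent.H85.X.bw b α) (Pool.Agent.H85.X.bw b β) with h | h | h
  · exact Or.inl (Or.inl h)
  · rcases le_total (toLex α) (toLex β) with h2 | h2
    · exact Or.inl (Or.inr ⟨h, h2⟩)
    · exact Or.inr (Or.inr ⟨h.symm, h2⟩)
  · exact Or.inr (Or.inl h)

lemma Le.trans {b : Fin n → ℝ} {α β γ : Fin n →₀ ℕ} (h : Le b α β) (h' : Le b β γ) : Le b α γ := by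
  rcases h with h | h <;> rcases h' with h' | h'
  · exact Or.inl (h.trans h')
  · exact Or.inl (h'.1 ▸ h)
  · exact Or.inl (h.1 ▸ h')
  · exact Or.inr ⟨h.1.trans h'.1, h.2.trans h'.2⟩

lemma Le.antisymm {b : Fin n → ℝ} {α β : Fin n →₀ ℕ} (h : Le b α β) (h' : Le b β α) : α = β := by
  rcases h with h | h
  · exact absurd h'.bw (not_le.2 h)
  · rcases h' with h' | h'
    · exact absurd h.1.symm.le (not_le.2 (h.1 ▸ h'))
    · exact toLex.injective (le_antisymm h.2 h'.2)

lemma Le.add {b : Fin n → ℝ} {α β α' β' : Fin n →₀ ℕ} (h : Le b α β) (h' : Le b α' β') :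
    Le b (α + α') (β + β') := by
  unfold Le
  rw [bw_add, bw_add]
  rcases h with h | h
  · left
    have := h'.bw
    linarith
  · rcases h' with h' | h'
    · left
      linarith [h.1]
    · right
      refine ⟨by rw [h.1, h'.1], ?_⟩
      exact add_le_add h.2 h'.2

lemma Le.add_eq {b : Fin n → ℝ} {α β α' β' : Fin n →₀ ℕ} (h : Le b α β) (h' : Le b α' β')
    (he : α + α' = β + β') : α = β ∧ α' = β' := by
  have h1 : Pool.Agent.H85.X.bw b α + Pool.Agent.H85.X.bw b α' =
      Pool.Agent.H85.X.bw b β + Pool.Agent.H85.X.bw b β' := by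
    rw [← bw_add, he, bw_add]
  have h2 := h.bw
  have h3 := h'.bw
  have h4 : Pool.Agent.H85.X.bw b β ≤ Pool.Agent.H85.X.bw b α := by linarith
  have h5 : Pool.Agent.H85.X.bw b β' ≤ Pool.Agent.H85.X.bw b α' := by linarith
  have h6 : toLex α ≤ toLex β := by
    rcases h with h | h
    · linarith
    · exact h.2
  have h7 : toLex α' ≤ toLex β' := by
    rcases h' with h' | h'
    · linarith
    · exact h'.2
  have h8 : toLex α = toLex β := by
    by_contra hne
    have h9 : toLex α < toLex β := lt_of_le_of_ne h6 hne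
    have h10 : toLex α + toLex α' < toLex β + toLex β' := add_lt_add_of_lt_of_le h9 h7
    have h11 : toLex α + toLex α' = toLex β + toLex β' := congrArg toLex he
    exact absurd h11 h10.ne
  have h9 : α = β := toLex.injective h8
  subst h9
  exact ⟨rfl, add_left_cancel he⟩

lemma exists_min (b : Fin n → ℝ) (s : Finset (Fin n →₀ ℕ)) (hs : s.Nonempty) :
    ∃ μ ∈ s, ∀ ν ∈ s, Le b μ ν := by
  classical
  induction hs using Finset.Nonempty.cons_induction with
  | singleton a => exact ⟨a, Finset.mem_singleton_self a, fun ν hν => by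
      rw [Finset.mem_singleton.1 hν]
      exact Le.refl b a⟩
  | cons a s ha hs ih =>
    obtain ⟨μ, hμ, h⟩ := ih
    rcases Le.total b a μ with h1 | h1
    · refine ⟨a, Finset.mem_cons_self a s, fun ν hν => ?_⟩
      rcases Finset.mem_cons.1 hν with h2 | h2
      · rw [h2]
        exact Le.refl b a
      · exact h1.trans (h ν h2)
    · refine ⟨μ, Finset.mem_cons.2 (Or.inr hμ), fun ν hν => ?_⟩
      rcases Finset.mem_cons.1 hν with h2 | h2
      · rw [h2]
        exact h1
      · exact h ν h2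

variable {K : Type} [Field K]

/-- `p` is the lowest exponent of `A` -/
def Low (b : Fin n → ℝ) (p : Fin n →₀ ℕ) (A : MvPolynomial (Fin n) K) : Prop :=
  coeff p A ≠ 0 ∧ ∀ ν, coeff ν A ≠ 0 → Le b p ν

lemma Low.mul {b : Fin n → ℝ} {p p' : Fin n →₀ ℕ} {A A' : MvPolynomial (Fin n) K}
    (h : Low b p A) (h' : Low b p' A') : Low b (p + p') (A * A') := by
  classical
  constructor
  · rw [coeff_mul, Finset.sum_eq_single (p, p')]
    · exact mul_ne_zero h.1 h'.1
    · rintro ⟨x, y⟩ hxy hne
      rw [HasAntidiagonal.mem_antidiagonal] at hxy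
      by_contra hc
      have h1 : coeff x A ≠ 0 := left_ne_zero_of_mul hc
      have h2 : coeff y A' ≠ 0 := right_ne_zero_of_mul hc
      have h3 := (h.2 x h1).add_eq (h'.2 y h2) hxy.symm
      exact hne (by rw [h3.1, h3.2])
    · intro hn
      exact absurd (by rw [HasAntidiagonal.mem_antidiagonal]) hn
  · intro ν hν
    rw [coeff_mul] at hν
    obtain ⟨⟨x, y⟩, hxy, hc⟩ := Finset.exists_ne_zero_of_sum_ne_zero hν
    rw [HasAntidiagonal.mem_antidiagonal] at hxy
    have h1 : coeff x A ≠ 0 := left_ne_zero_of_mul hc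
    have h2 : coeff y A' ≠ 0 := right_ne_zero_of_mul hc
    have h3 := (h.2 x h1).add (h'.2 y h2)
    simp only at hxy
    rwa [hxy] at h3

lemma Low.one (b : Fin n → ℝ) : Low b 0 (1 : MvPolynomial (Fin n) K) := by
  classical
  constructor
  · rw [coeff_zero_one]
    exact one_ne_zero
  · intro ν hν
    rw [coeff_one] at hν
    split_ifs at hν with h
    · rw [← h]
      exact Le.refl b 0
    · exact absurd rfl hν

lemma Low.pow {b : Fin n → ℝ} {p : Fin n →₀ ℕ} {A : MvPolynomial (Fin n) K}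
    (h : Low b p A) (m : ℕ) : Low b (m • p) (A ^ m) := by
  induction m with
  | zero =>
    rw [zero_smul, pow_zero]
    exact Low.one b
  | succ m ih =>
    rw [succ_nsmul, pow_succ]
    exact ih.mul h

lemma Low.monomial (b : Fin n → ℝ) (p : Fin n →₀ ℕ) :
    Low b p (MvPolynomial.monomial p (1 : K)) := by
  classical
  constructor
  · rw [coeff_monomial, if_pos rfl]
    exact one_ne_zero
  · intro ν hν
    rw [coeff_monomial] at hν
    split_ifs at hν with h
    · rw [← h]
      exact Le.refl b p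
    · exact absurd rfl hν

/-- polynomials with different lowest exponents are linearly independent -/
theorem indep_low {ι : Type} (b : Fin n → ℝ) (e : ι → Fin n →₀ ℕ) (he : Function.Injective e)
    (G : ι → MvPolynomial (Fin n) K) (hG : ∀ i, Low b (e i) (G i)) : LinearIndependent K G := by
  classical
  rw [linearIndependent_iff']
  intro s g hg
  by_contra hcon
  push Not at hcon
  obtain ⟨i1, hi1, hgi1⟩ := hcon
  set s' := (s.filter fun i => g i ≠ 0) with hs'
  have hne : (s'.image e).Nonempty := ⟨e i1, Finset.mem_image.2 ⟨i1, by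
    rw [hs', Finset.mem_filter]
    exact ⟨hi1, hgi1⟩, rfl⟩⟩
  obtain ⟨μ, hμ, hmin⟩ := exists_min b _ hne
  obtain ⟨i0, hi0, rfl⟩ := Finset.mem_image.1 hμ
  rw [hs', Finset.mem_filter] at hi0
  have h1 := congrArg (coeff (e i0)) hg
  rw [coeff_sum, coeff_zero, Finset.sum_eq_single i0] at h1
  · rw [coeff_smul, smul_eq_mul] at h1
    exact (mul_ne_zero hi0.2 (hG i0).1) h1
  · intro i hi hne'
    rw [coeff_smul, smul_eq_mul]
    by_contra hc
    have h2 : g i ≠ 0 := left_ne_zero_of_mul hc
    have h3 : coeff (e i0) (G i) ≠ 0 := right_ne_zero_of_mul hc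
    have h4 := (hG i).2 _ h3
    have h5 := hmin (e i) (Finset.mem_image.2 ⟨i, by
      rw [hs', Finset.mem_filter]
      exact ⟨hi, h2⟩, rfl⟩)
    exact hne' (he (h4.antisymm h5))
  · intro hn
    exact absurd hi0.1 hn

/-- the multiplicity of `μ` in `α` -/
noncomputable def mu (μ α : Fin n →₀ ℕ) : ℕ :=
  open Classical in Nat.findGreatest (fun m => m • μ ≤ α) α.degree

lemma mu_le (μ α : Fin n →₀ ℕ) : mu μ α • μ ≤ α := by
  classical
  unfold mu
  exact Nat.findGreatest_spec (P := fun m => m • μ ≤ α) (Nat.zero_le _) (by simp)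

lemma le_mu {μ α : Fin n →₀ ℕ} {k : ℕ} (hk : k ≤ α.degree) (h : k • μ ≤ α) : k ≤ mu μ α := by
  classical
  unfold mu
  exact Nat.le_findGreatest hk h

/-- **adapted basis**: the powers of `P` -/
theorem indep_pow (b : Fin n → ℝ) (P : MvPolynomial (Fin n) K) (μ : Fin n →₀ ℕ) (hμ : Low b μ P) :
    LinearIndependent K (fun α : Fin n →₀ ℕ =>
      MvPolynomial.monomial (α - mu μ α • μ) (1 : K) * P ^ mu μ α) := by
  refine indep_low b id Function.injective_id _ fun α => ?_
  have h1 := (Low.monomial (K := K) b (α - mu μ α • μ)).mul (hμ.pow (mu μ α))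
  rw [tsub_add_cancel_of_le (mu_le μ α)] at h1
  exact h1

end Pool.Agent.H85.X
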