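import Pool.Graph.R_pool_sql_team_seeded_3dad9d7b.NH28.HtSum

/-!
The norm at a place.
-/

set_option autoImplicit false

namespace Pool.Agent.H85.X

open NumberField IsDedekindDomain Finset Module
open Pool.Agent.W180.OP (Pl av wt fv fv_apply wt_nonneg)
open Pool.Agent.NH28

variable {K L : Type} [Field K] [NumberField K] [Field L] [NumberField L] [Algebra K L]

lemma mult_mul {R : Type} [CommRing R] [IsDedekindDomain R] (v : HeightOneSpectrum R) {I J : Ideal R}
    (hI : I ≠ ⊥) (hJ : J ≠ ⊥) :
    multiplicity v.asIdeal (I * J) = multiplicity v.asIdeal I + multiplicity v.asIdeal J := by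
  have hp : Prime v.asIdeal := v.prime
  refine multiplicity_mul hp ?_
  exact FiniteMultiplicity.of_prime_left hp (mul_ne_zero hI hJ)

lemma mult_one {R : Type} [CommRing R] [IsDedekindDomain R] (v : HeightOneSpectrum R) :
    multiplicity v.asIdeal (⊤ : Ideal R) = 0 := by
  rw [multiplicity_eq_zero]
  intro h
  exact v.isPrime.ne_top (top_le_iff.1 (Ideal.le_of_dvd h))

lemma mult_self {R : Type} [CommRing R] [IsDedekindDomain R] (v : HeightOneSpectrum R) (s : ℕ) :
    multiplicity v.asIdeal (v.asIdeal ^ s) = s := by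
  have hp : Prime v.asIdeal := v.prime
  exact multiplicity_pow_self hp.ne_zero hp.not_isUnit s

lemma mult_ne {R : Type} [CommRing R] [IsDedekindDomain R] (v w : HeightOneSpectrum R) (h : v ≠ w)
    (s : ℕ) : multiplicity v.asIdeal (w.asIdeal ^ s) = 0 := by
  rw [multiplicity_eq_zero]
  intro hd
  have h1 : v.asIdeal ∣ w.asIdeal := v.prime.dvd_of_dvd_pow hd
  have h2 : w.asIdeal ≤ v.asIdeal := Ideal.le_of_dvd h1
  have h3 : w.asIdeal = v.asIdeal := w.isMaximal.eq_of_le v.isPrime.ne_top h2
  exact h (HeightOneSpectrum.ext h3.symm)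

lemma relNorm_pow (v : HeightOneSpectrum (𝓞 K)) (w : HeightOneSpectrum (𝓞 L))
    (h : w.asIdeal.LiesOver v.asIdeal) :
    ∃ s : ℕ, Ideal.relNorm (𝓞 K) w.asIdeal = v.asIdeal ^ s ∧ lN w = s * lN v := by
  have := v.isPrime
  obtain ⟨s, hs⟩ := Ideal.exists_relNorm_eq_pow_of_isPrime w.asIdeal v.asIdeal
  refine ⟨s, hs, ?_⟩
  have h1 := Ideal.absNorm_relNorm (𝓞 K) (S := 𝓞 L) w.asIdeal
  rw [hs, map_pow] at h1
  unfold lN
  rw [← h1]
  push_cast
  rw [Real.log_pow]

/-- orders of the relative norm of an ideal -/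
theorem mult_relNorm (v : HeightOneSpectrum (𝓞 K)) (T : Finset (HeightOneSpectrum (𝓞 L)))
    (hT : ∀ w, w ∈ T ↔ w.asIdeal.LiesOver v.asIdeal) (I : Ideal (𝓞 L)) (hI : I ≠ ⊥) :
    (multiplicity v.asIdeal (Ideal.relNorm (𝓞 K) I) : ℝ) * lN v =
      ∑ w ∈ T, (multiplicity w.asIdeal I : ℝ) * lN w := by
  classical
  induction I using UniqueFactorizationMonoid.induction_on_prime with
  | h₁ => exact absurd rfl hI
  | h₂ x hx =>
    have hx' : x = ⊤ := by rwa [Ideal.isUnit_iff] at hx
    subst hx'
    rw [Ideal.relNorm_top, mult_one]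
    simp [mult_one]
  | h₃ a p ha hp ih =>
    have hp0 : p ≠ ⊥ := hp.ne_zero
    have hprime : p.IsPrime := Ideal.isPrime_of_prime hp
    set w0 : HeightOneSpectrum (𝓞 L) := ⟨p, hprime, hp0⟩ with hw0
    obtain ⟨v0', hv0⟩ := exists_below K (Sum.inr w0 : Pl L)
    cases v0' with
    | inl v0' => exact hv0.elim
    | inr v0 =>
      have hv0' : w0.asIdeal.LiesOver v0.asIdeal := hv0
      obtain ⟨s, hs, hl⟩ := relNorm_pow v0 w0 hv0'
      have hR : Ideal.relNorm (𝓞 K) a ≠ ⊥ := fun h => ha (Ideal.relNorm_eq_bot_iff.1 h)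
      have hRp : Ideal.relNorm (𝓞 K) w0.asIdeal ≠ ⊥ := fun h => hp0 (Ideal.relNorm_eq_bot_iff.1 h)
      have e1 : Ideal.relNorm (𝓞 K) (p * a) = Ideal.relNorm (𝓞 K) w0.asIdeal *
        Ideal.relNorm (𝓞 K) a := map_mul _ _ _
      rw [e1, mult_mul v hRp hR]
      push_cast
      rw [add_mul, ih ha]
      have e2 : ∀ w : HeightOneSpectrum (𝓞 L), ((multiplicity w.asIdeal (p * a) : ℕ) : ℝ) =
          (if w = w0 then 1 else 0) + multiplicity w.asIdeal a := by
        intro w
        rw [mult_mul w hp0 ha]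
        push_cast
        congr 1
        split_ifs with h
        · subst h
          have := mult_self w0 1
          rw [pow_one] at this
          rw [this, Nat.cast_one]
        · have := mult_ne w w0 h 1
          rw [pow_one] at this
          rw [this, Nat.cast_zero]
      simp only [e2, add_mul, Finset.sum_add_distrib]
      congr 1
      by_cases hv : v0 = v
      · subst hv
        rw [hs, mult_self]
        simp only [ite_mul, one_mul, zero_mul, Finset.sum_ite_eq', (hT w0).2 hv0', if_true]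
        exact hl.symm
      · rw [hs, mult_ne v v0 (Ne.symm hv)]
        have hnot : w0 ∉ T := by
          intro h
          have h1 := (hT w0).1 h
          have h2 := ov_unique (v := Sum.inr v) (v' := Sum.inr v0) (w := (Sum.inr w0 : Pl L)) h1 hv0
          exact hv (Sum.inr.inj h2).symm
        simp only [ite_mul, one_mul, zero_mul, Finset.sum_ite_eq', hnot, if_false]
        simp

theorem norm_int (v : HeightOneSpectrum (𝓞 K)) (T : Finset (HeightOneSpectrum (𝓞 L)))
    (hT : ∀ w, w ∈ T ↔ w.asIdeal.LiesOver v.asIdeal) (y : 𝓞 L) (hy : y ≠ 0) :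
    Real.log (fv v (Algebra.norm K (y : L))) = ∑ w ∈ T, Real.log (fv w (y : L)) := by
  have h1 : Algebra.norm K (y : L) = ((Algebra.intNorm (𝓞 K) (𝓞 L) y : 𝓞 K) : K) := by
    exact (Algebra.algebraMap_intNorm (A := 𝓞 K) (K := K) (L := L) (B := 𝓞 L) y).symm
  have hn : Algebra.intNorm (𝓞 K) (𝓞 L) y ≠ 0 := by
    intro h
    rw [h] at h1
    have h2 : Algebra.norm K (y : L) = 0 := by simpa using h1
    rw [Algebra.norm_eq_zero_iff] at h2
    exact hy (by exact_mod_cast h2)
  have h2 := mult_relNorm v T hT (Ideal.span {y}) (by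
    rw [Ne, Ideal.span_singleton_eq_bot]; exact hy)
  rw [Ideal.relNorm_singleton] at h2
  rw [h1, log_fv_int v hn]
  unfold om
  rw [neg_mul, h2, ← Finset.sum_neg_distrib]
  refine Finset.sum_congr rfl fun w _ => ?_
  rw [log_fv_int w hy]
  unfold om
  ring

theorem norm_fin (v : HeightOneSpectrum (𝓞 K)) (T : Finset (HeightOneSpectrum (𝓞 L)))
    (hT : ∀ w, w ∈ T ↔ w.asIdeal.LiesOver v.asIdeal) (y : L) (hy : y ≠ 0) :
    Real.log (fv v (Algebra.norm K y)) = ∑ w ∈ T, Real.log (fv w y) := by
  obtain ⟨a, b, hb, rfl⟩ := IsFractionRing.div_surjective (A := 𝓞 L) y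
  have hb0 : b ≠ 0 := nonZeroDivisors.ne_zero hb
  have ha0 : a ≠ 0 := by
    rintro rfl
    exact hy (by simp)
  have ha' : (algebraMap (𝓞 L) L a) ≠ 0 := by
    simpa using ha0
  have hb' : (algebraMap (𝓞 L) L b) ≠ 0 := by
    simpa using hb0
  have hNa : Algebra.norm K (algebraMap (𝓞 L) L a) ≠ 0 := by
    rw [Ne, Algebra.norm_eq_zero_iff]; exact ha'
  have hNb : Algebra.norm K (algebraMap (𝓞 L) L b) ≠ 0 := by
    rw [Ne, Algebra.norm_eq_zero_iff]; exact hb'
  have h1 := norm_int v T hT a ha0
  have h2 := norm_int v T hT b hb0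
  have hdiv : Algebra.norm K (algebraMap (𝓞 L) L a / algebraMap (𝓞 L) L b) =
      Algebra.norm K (algebraMap (𝓞 L) L a) / Algebra.norm K (algebraMap (𝓞 L) L b) := by
    rw [eq_div_iff hNb, ← map_mul, div_mul_cancel₀ _ hb']
  rw [hdiv, map_div₀, Real.log_div ((fv v).pos hNa).ne' ((fv v).pos hNb).ne']
  have e1 : Real.log (fv v (Algebra.norm K (algebraMap (𝓞 L) L a))) = ∑ w ∈ T,
    Real.log (fv w (algebraMap (𝓞 L) L a)) := h1
  have e2 : Real.log (fv v (Algebra.norm K (algebraMap (𝓞 L) L b))) = ∑ w ∈ T,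
    Real.log (fv w (algebraMap (𝓞 L) L b)) := h2
  rw [e1, e2, ← Finset.sum_sub_distrib]
  refine Finset.sum_congr rfl fun w _ => ?_
  rw [map_div₀, Real.log_div ((fv w).pos ha').ne' ((fv w).pos hb').ne']

open scoped Classical in
theorem norm_inf (v : InfinitePlace K) (y : L) (hy : y ≠ 0) :
    (v.mult : ℝ) * Real.log (v (Algebra.norm K y)) =
      ∑ w ∈ (Finset.univ : Finset (InfinitePlace L)).filter fun w =>
        w.comap (algebraMap K L) = v, (w.mult : ℝ) * Real.log (w y) := by
  -- both sides are sums over embeddings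
  have h1 : ∀ w : InfinitePlace L, (w.mult : ℝ) * Real.log (w y) =
      ∑ φ ∈ (Finset.univ : Finset (L →+* ℂ)).filter fun φ => InfinitePlace.mk φ = w,
        Real.log ‖φ y‖ := by
    intro w
    rw [Finset.sum_congr rfl (g := fun _ => Real.log (w y)), Finset.sum_const,
      InfinitePlace.card_filter_mk_eq, nsmul_eq_mul]
    intro φ hφ
    rw [← (Finset.mem_filter.1 hφ).2]
    rfl
  have h2 : ∀ ψ : K →+* ℂ, InfinitePlace.mk ψ = v → Real.log (v (Algebra.norm K y)) =
      ∑ φ ∈ (Finset.univ : Finset (L →+* ℂ)).filter fun φ => φ.comp (algebraMap K L) = ψ,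
        Real.log ‖φ y‖ := by
    intro ψ hψ
    let _ : Algebra K ℂ := ψ.toAlgebra
    have h3 : algebraMap K ℂ (Algebra.norm K y) = ∏ σ : L →ₐ[K] ℂ, σ y :=
      Algebra.norm_eq_prod_embeddings K ℂ y
    have h4 : v (Algebra.norm K y) = ‖∏ σ : L →ₐ[K] ℂ, σ y‖ := by
      rw [← h3, ← hψ]
      rfl
    rw [h4, norm_prod, Real.log_prod (fun σ _ => by
      rw [Ne, norm_eq_zero, map_eq_zero]; exact hy)]
    symm
    refine Finset.sum_bij' (fun φ hφ => ({ φ with
      commutes' := fun x => by
        have := (Finset.mem_filter.1 hφ).2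
        exact congrArg (fun g : K →+* ℂ => g x) this } : L →ₐ[K] ℂ))
      (fun σ _ => σ.toRingHom) ?_ ?_ ?_ ?_ ?_
    · intro a _
      exact Finset.mem_univ _
    · intro σ _
      rw [Finset.mem_filter]
      refine ⟨Finset.mem_univ _, ?_⟩
      ext x
      exact σ.commutes x
    · intro φ _
      rfl
    · intro σ _
      rfl
    · intro φ _
      rfl
  rw [Finset.sum_congr rfl fun w _ => h1 w]
  have h5 : ∑ w ∈ (Finset.univ : Finset (InfinitePlace L)).filter fun w =>
      w.comap (algebraMap K L) = v, ∑ φ ∈ (Finset.univ : Finset (L →+* ℂ)).filter fun φ =>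
        InfinitePlace.mk φ = w, Real.log ‖φ y‖ =
      ∑ φ ∈ (Finset.univ : Finset (L →+* ℂ)).filter fun φ =>
        InfinitePlace.mk (φ.comp (algebraMap K L)) = v, Real.log ‖φ y‖ := by
    rw [← Finset.sum_fiberwise_of_maps_to (s := (Finset.univ : Finset (L →+* ℂ)).filter fun φ =>
        InfinitePlace.mk (φ.comp (algebraMap K L)) = v)
      (t := (Finset.univ : Finset (InfinitePlace L)).filter fun w =>
      w.comap (algebraMap K L) = v) (g := fun φ : L →+* ℂ => InfinitePlace.mk φ)]
    · refine Finset.sum_congr rfl fun w hw => ?_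
      refine Finset.sum_congr ?_ fun _ _ => rfl
      ext φ
      simp only [Finset.mem_filter, Finset.mem_univ, true_and]
      constructor
      · intro h
        refine ⟨?_, h⟩
        rw [← InfinitePlace.comap_mk, h]
        exact (Finset.mem_filter.1 hw).2
      · exact fun h => h.2
    · intro φ hφ
      have := (Finset.mem_filter.1 hφ).2
      rw [Finset.mem_filter]
      exact ⟨Finset.mem_univ _, by rw [InfinitePlace.comap_mk]; exact this⟩
  rw [h5, ← Finset.sum_fiberwise_of_maps_to (s := (Finset.univ : Finset (L →+* ℂ)).filter fun φ =>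
        InfinitePlace.mk (φ.comp (algebraMap K L)) = v)
    (t := (Finset.univ : Finset (K →+* ℂ)).filter fun ψ => InfinitePlace.mk ψ = v)
    (g := fun φ : L →+* ℂ => φ.comp (algebraMap K L))]
  · have h6 : ∀ ψ ∈ (Finset.univ : Finset (K →+* ℂ)).filter fun ψ => InfinitePlace.mk ψ = v,
        ∑ φ ∈ ((Finset.univ : Finset (L →+* ℂ)).filter fun φ =>
          InfinitePlace.mk (φ.comp (algebraMap K L)) = v).filter fun φ =>
            φ.comp (algebraMap K L) = ψ, Real.log ‖φ y‖ = Real.log (v (Algebra.norm K y)) := by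
      intro ψ hψ
      have hψ' := (Finset.mem_filter.1 hψ).2
      rw [h2 ψ hψ']
      refine Finset.sum_congr ?_ fun _ _ => rfl
      ext φ
      simp only [Finset.mem_filter, Finset.mem_univ, true_and]
      constructor
      · exact fun h => h.2
      · intro h
        refine ⟨?_, h⟩
        rw [h]
        exact hψ'
    rw [Finset.sum_congr rfl h6, Finset.sum_const, InfinitePlace.card_filter_mk_eq, nsmul_eq_mul]
  · intro φ hφ
    have := (Finset.mem_filter.1 hφ).2
    rw [Finset.mem_filter]
    exact ⟨Finset.mem_univ _, this⟩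

/-- **the norm at a place** -/
theorem norm_pl (v : Pl K) (y : L) (hy : y ≠ 0) :
    wt v * Real.log (av v (Algebra.norm K y)) = ∑ w ∈ ab L v, wt w * Real.log (av w y) := by
  classical
  cases v with
  | inl v =>
    have h1 := norm_inf v y hy
    have h2 : ab L (Sum.inl v : Pl K) = ((Finset.univ : Finset (InfinitePlace L)).filter fun w =>
      w.comap (algebraMap K L) = v).map ⟨Sum.inl, Sum.inl_injective⟩ := by
      ext w
      rw [mem_ab]
      cases w with
      | inl w =>
        simp only [Finset.mem_map, Finset.mem_filter, Finset.mem_univ, true_and,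
          Function.Embedding.coeFn_mk, Sum.inl.injEq, exists_eq_right]
        exact Iff.rfl
      | inr w =>
        simp only [Finset.mem_map, Finset.mem_filter, Finset.mem_univ, true_and,
          Function.Embedding.coeFn_mk, reduceCtorEq, and_false, exists_false, iff_false]
        exact fun h => h
    rw [h2, Finset.sum_map]
    exact h1
  | inr v =>
    obtain ⟨T, hT, -⟩ := exists_over L v
    have h1 := norm_fin v T hT y hy
    have h2 : ab L (Sum.inr v : Pl K) = T.map ⟨Sum.inr, Sum.inr_injective⟩ := by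
      ext w
      rw [mem_ab]
      cases w with
      | inl w =>
        simp only [Finset.mem_map, Function.Embedding.coeFn_mk, reduceCtorEq, and_false,
          exists_false, iff_false]
        exact fun h => h
      | inr w =>
        simp only [Finset.mem_map, Function.Embedding.coeFn_mk, Sum.inr.injEq, exists_eq_right]
        exact (hT w).symm
    rw [h2, Finset.sum_map]
    show (1 : ℝ) * Real.log (fv v (Algebra.norm K y)) = ∑ w ∈ T, (1 : ℝ) * Real.log (fv w y)
    simp only [one_mul]
    exact h1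

end Pool.Agent.H85.X
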