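import Pool.Agent.H85.X.ProfX

/-!
The estimates at one place.
-/

set_option autoImplicit false

namespace Pool.Agent.H85.X

open NumberField IsDedekindDomain Finset Module IntermediateField
open Pool.Agent.W180.OP (Pl av wt wt_nonneg nrm le_nrm nrm_pos nrm_nonneg exists_nrm)
open Pool.Agent.W180.TP (wt_pos)
open Pool.Agent.NH28

/-- the types -/
abbrev Idx (q r : ℕ) : Type := Σ m : Fin q → Fin (r + 2), (Fin (r + 1) ≃ Σ i, Fin (m i : ℕ))

variable {K : Type} [Field K] {q r : ℕ}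

/-- the coordinates of a type -/
noncomputable def AM (a : Fin q → K) (τ : Idx q r) : Matrix (Fin (r + 1)) (Fin (r + 1)) K :=
  HM a (fun i => (τ.1 i : ℕ)) τ.2

/-- the discriminant in the coordinates of a type -/
noncomputable def PM (a : Fin q → K) (τ : Idx q r) : MvPolynomial (Fin (r + 1)) K :=
  sub (AM a τ)⁻¹ (DK K r)

/-- the weights of a type -/
noncomputable def bt (τ : Idx q r) (Λ : Fin q → ℕ → ℝ) (k : Fin (r + 1)) : ℝ :=
  bb (m := fun i => (τ.1 i : ℕ)) τ.2 Λ k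

lemma idx_card (τ : Idx q r) : ∑ i, (τ.1 i : ℕ) = r + 1 := by
  have := Fintype.card_congr τ.2
  rw [Fintype.card_fin, Fintype.card_sigma] at this
  simpa using this.symm

lemma exists_idx (m : Fin q → ℕ) (hm : ∑ i, m i = r + 1) :
    ∃ τ : Idx q r, ∀ i, (τ.1 i : ℕ) = m i := by
  classical
  have h1 : ∀ i, m i < r + 2 := by
    intro i
    have := Finset.single_le_sum (f := m) (fun _ _ => Nat.zero_le _) (Finset.mem_univ i)
    omega
  set m' : Fin q → Fin (r + 2) := fun i => ⟨m i, h1 i⟩ with hm'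
  have hcard : Fintype.card (Fin (r + 1)) = Fintype.card (Σ i, Fin (m' i : ℕ)) := by
    rw [Fintype.card_fin, Fintype.card_sigma]
    simp only [Fintype.card_fin, hm']
    exact hm.symm
  exact ⟨⟨m', Fintype.equivOfCardEq hcard⟩, fun i => rfl⟩

lemma gen_idx (σ : K →+* ℂ) (hr : 2 ≤ r) (a : Fin q → K) (ha : Function.Injective a) :
    ∃ C : ℝ, 0 ≤ C ∧ ∀ (τ : Idx q r) (N : Fin q → ℕ), ∑ i, N i ≤ r → ∀ Λ : Fin q → ℕ → ℝ,
      (∀ i, Antitone (Λ i)) → (∀ i k, 0 ≤ Λ i k) → (∀ i k, N i ≤ k → Λ i k = 0) →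
        ∀ μ : Fin (r + 1) →₀ ℕ, (∀ ν ∈ (PM a τ).support, bw (bt τ Λ) μ ≤ bw (bt τ Λ) ν) →
          bw (bt τ Λ) μ ≤ ∑ i, ∑ l ∈ range r, 2 * (l : ℝ) * Λ i l + C := by
  classical
  have h := fun (τ : Idx q r) (N : Fin q → Fin (r + 1)) (hN : ∑ i, (N i : ℕ) ≤ r) =>
    gen_min σ hr a ha (fun i => (τ.1 i : ℕ)) τ.2 (fun i => (N i : ℕ)) hN
  have h' : ∀ (τ : Idx q r) (N : Fin q → Fin (r + 1)), ∃ C : ℝ, 0 ≤ C ∧ (∑ i, (N i : ℕ) ≤ r →
      ∀ Λ : Fin q → ℕ → ℝ, (∀ i, Antitone (Λ i)) → (∀ i k, 0 ≤ Λ i k) →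
      (∀ i k, (N i : ℕ) ≤ k → Λ i k = 0) → ∀ μ : Fin (r + 1) →₀ ℕ,
        (∀ ν ∈ (PM a τ).support, bw (bt τ Λ) μ ≤ bw (bt τ Λ) ν) →
          bw (bt τ Λ) μ ≤ ∑ i, ∑ l ∈ range r, 2 * (l : ℝ) * Λ i l + C) := by
    intro τ N
    by_cases hN : ∑ i, (N i : ℕ) ≤ r
    · obtain ⟨C, hC0, hC⟩ := h τ N hN
      exact ⟨C, hC0, fun _ => hC⟩
    · exact ⟨0, le_rfl, fun h => absurd h hN⟩
  choose C hC0 hC using h'
  refine ⟨∑ τ, ∑ N, C τ N, Finset.sum_nonneg fun _ _ => Finset.sum_nonneg fun _ _ => hC0 _ _, ?_⟩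
  intro τ N hN Λ h1 h2 h3 μ hμ
  have hNr : ∀ i, N i < r + 1 := by
    intro i
    have := Finset.single_le_sum (f := N) (fun _ _ => Nat.zero_le _) (Finset.mem_univ i)
    omega
  have h4 := hC τ (fun i => ⟨N i, hNr i⟩) hN Λ h1 h2 h3 μ hμ
  have h5 := Finset.single_le_sum (f := fun N => C τ N) (fun _ _ => hC0 _ _)
    (Finset.mem_univ (fun i => (⟨N i, hNr i⟩ : Fin (r + 1))))
  have h6 := Finset.single_le_sum (f := fun τ => ∑ N, C τ N)
    (fun _ _ => Finset.sum_nonneg fun _ _ => hC0 _ _) (Finset.mem_univ τ)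
  have h7 : C τ (fun i => (⟨N i, hNr i⟩ : Fin (r + 1))) ≤ ∑ N, C τ N := h5
  have h8 : ∑ N, C τ N ≤ ∑ τ, ∑ N, C τ N := h6
  linarith

variable [NumberField K]

theorem place_x (v : Pl K) (hr : 2 ≤ r) (hq : 0 < q) (a : Fin q → K) (ha : Function.Injective a) :
    ∃ C : ℝ, 0 ≤ C ∧ ∀ (L : Type) [Field L] [NumberField L] [Algebra K L], finrank K L = r →
      ∀ x : L, K⟮x⟯ = ⊤ → ∃ (τ : Idx q r) (Λ : Fin q → ℕ → ℝ), (∀ i, Antitone (Λ i)) ∧
        (∀ i k, 0 ≤ Λ i k) ∧ (∀ i k, (τ.1 i : ℕ) ≤ k → Λ i k = 0) ∧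
        (∀ i j, j ≤ r → av v ((Polynomial.taylor (a i) (minpoly K x)).coeff j) ≤
          Real.exp ((wt v * Real.log (nrm (av v) (cf (K := K) r x)) -
            ∑ l ∈ Ico j r, Λ i l + C) / wt v)) ∧
        (∀ μ : Fin (r + 1) →₀ ℕ, (∀ ν ∈ (PM a τ).support, bw (bt τ Λ) μ ≤ bw (bt τ Λ) ν) →
          bw (bt τ Λ) μ ≤ ∑ i, ∑ l ∈ range r, 2 * (l : ℝ) * Λ i l + C) ∧
        (∀ i, ∑ w ∈ ab L v, nn v w * la v (a i) x w ≤ ∑ l ∈ range r, Λ i l + C) ∧
        ∀ i, ∑ w ∈ ab L v, ∑ w' ∈ ab L v, nn v w * nn v w' *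
            min (la v (a i) x w) (la v (a i) x w') - ∑ w ∈ ab L v, nn v w * la v (a i) x w ≤
          ∑ l ∈ range r, 2 * (l : ℝ) * Λ i l + C := by
  classical
  obtain ⟨σ⟩ : Nonempty (K →+* ℂ) := inferInstance
  obtain ⟨Cg, hCg0, hCg⟩ := gen_idx σ hr a ha
  obtain ⟨c0, c1, hc0, hc1, hfar⟩ := far v r hr a ha
  choose Cu hCu0 hCu using fun i => loc_up v r hr (a i)
  obtain ⟨Cl, hCl0, hCl⟩ := loc_low v r hr
  have hwv := wt_pos v
  have hr0 : (0 : ℝ) ≤ r := Nat.cast_nonneg r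
  have hCus : 0 ≤ ∑ i, Cu i := Finset.sum_nonneg fun i _ => hCu0 i
  set C : ℝ := Cg + (∑ i, Cu i) + Cl + r * c0 + r * c1 + r ^ 2 * c0 + r * c1 with hC
  refine ⟨C, by positivity, ?_⟩
  intro L _ _ _ hrL x hx
  -- natural multiplicities
  have hnat : ∀ w : Pl L, ∃ n : ℕ, w ∈ ab L v → nn v w = n := by
    intro w
    by_cases hw : w ∈ ab L v
    · obtain ⟨n, hn⟩ := Pool.Agent.H85.V.nn_nat (mem_ab.1 hw)
      exact ⟨n, fun _ => hn⟩
    · exact ⟨0, fun h => absurd h hw⟩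
  choose n hn using hnat
  have hnsum : ∑ w ∈ ab L v, n w = r := by
    have h1 := sum_nn L v
    rw [hrL, Finset.sum_congr rfl fun w hw => hn w hw] at h1
    exact_mod_cast h1
  set t : Fin q → Pl L → ℝ := fun i w => max (la v (a i) x w - c0) 0 with ht
  have ht0 : ∀ i w, 0 ≤ t i w := fun i w => le_max_right _ _
  have hone : ∀ w ∈ ab L v, ∀ i i', 0 < t i w → 0 < t i' w → i = i' := by
    intro w hw i i' h1 h2
    have h3 : ∀ i, 0 < t i w → c0 < la v (a i) x w := by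
      intro i hi
      rcases lt_max_iff.1 hi with h | h
      · linarith
      · exact absurd h (lt_irrefl _)
    exact (hfar L hrL x hx w hw).2 i i' (h3 i h1) (h3 i' h2)
  obtain ⟨Λ, N, hanti, hΛ0, hΛN, hNr, hsum, hmin⟩ := profile (ab L v) n r hnsum t ht0 hone
  obtain ⟨m, hm1, hm2⟩ := exists_type hq N hNr
  obtain ⟨τ, hτ⟩ := exists_idx m hm1
  -- comparison of `t` and `la`
  have hlt : ∀ i w, la v (a i) x w ≤ t i w + c0 := by
    intro i w
    have := le_max_left (la v (a i) x w - c0) 0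
    simp only [ht]
    linarith
  have htl : ∀ i, ∀ w ∈ ab L v, t i w - c1 ≤ la v (a i) x w := by
    intro i w hw
    have h1 := (hfar L hrL x hx w hw).1 i
    simp only [ht]
    rcases le_total (la v (a i) x w - c0) 0 with h | h
    · rw [max_eq_right h]
      linarith
    · rw [max_eq_left h]
      linarith
  have hS1 : ∀ i, ∑ l ∈ range r, Λ i l = ∑ w ∈ ab L v, nn v w * t i w := by
    intro i
    rw [hsum i (fun y => y)]
    exact Finset.sum_congr rfl fun w hw => by rw [hn w hw]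
  have hnnr : ∑ w ∈ ab L v, nn v w = r := by rw [sum_nn L v, hrL]
  refine ⟨τ, Λ, hanti, hΛ0, ?_, ?_, ?_, ?_, ?_⟩
  · intro i k hk
    rw [hτ i] at hk
    exact hΛN i k ((hm2 i).trans hk)
  · intro i j hj
    have h1 := hCu i L hrL x hx (Λ i j) (hΛ0 i j) j hj
    refine h1.trans ?_
    rw [Real.exp_le_exp]
    refine div_le_div_of_nonneg_right ?_ hwv.le
    have h2 := lemT (Λ i) (hanti i) hj
    have h3 : ∑ l ∈ range r, min (Λ i l) (Λ i j) ≤
        ∑ w ∈ ab L v, nn v w * min (la v (a i) x w) (Λ i j) + r * c1 := by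
      rw [hsum i (fun y => min y (Λ i j)), ← hnnr, Finset.sum_mul, ← Finset.sum_add_distrib]
      refine Finset.sum_le_sum fun w hw => ?_
      rw [← hn w hw, ← mul_add]
      refine mul_le_mul_of_nonneg_left ?_ (nn_nonneg v w)
      have h4 := htl i w hw
      rcases le_total (la v (a i) x w) (Λ i j) with h | h
      · rw [min_eq_left h]
        have := min_le_left (t i w) (Λ i j)
        linarith
      · rw [min_eq_right h]
        have := min_le_right (t i w) (Λ i j)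
        linarith
    have h4 := hCl L hrL x hx
    have h5 : Cu i ≤ ∑ i, Cu i := Finset.single_le_sum (f := Cu) (fun i _ => hCu0 i)
      (Finset.mem_univ i)
    have h6 : 0 ≤ r * c0 := by positivity
    have h7 : 0 ≤ (r : ℝ) ^ 2 * c0 := by positivity
    have h8 : 0 ≤ r * c1 := by positivity
    rw [hC]
    linarith
  · intro μ hμ
    have h1 := hCg τ N hNr Λ hanti hΛ0 hΛN μ hμ
    have h6 : 0 ≤ r * c0 := by positivity
    have h7 : 0 ≤ (r : ℝ) ^ 2 * c0 := by positivity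
    have h8 : 0 ≤ r * c1 := by positivity
    rw [hC]
    linarith
  · intro i
    have h1 : ∑ w ∈ ab L v, nn v w * la v (a i) x w ≤ ∑ w ∈ ab L v, nn v w * t i w + r * c0 := by
      rw [← hnnr, Finset.sum_mul, ← Finset.sum_add_distrib]
      refine Finset.sum_le_sum fun w _ => ?_
      rw [← mul_add]
      exact mul_le_mul_of_nonneg_left (hlt i w) (nn_nonneg v w)
    rw [hS1 i]
    have h7 : 0 ≤ (r : ℝ) ^ 2 * c0 := by positivity
    have h8 : 0 ≤ r * c1 := by positivity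
    rw [hC]
    linarith
  · intro i
    have h1 : ∑ w ∈ ab L v, ∑ w' ∈ ab L v, nn v w * nn v w' *
        min (la v (a i) x w) (la v (a i) x w') ≤
        ∑ w ∈ ab L v, ∑ w' ∈ ab L v, (n w : ℝ) * (n w' : ℝ) * min (t i w) (t i w') +
          r ^ 2 * c0 := by
      have e1 : (r : ℝ) ^ 2 * c0 = ∑ w ∈ ab L v, ∑ w' ∈ ab L v, nn v w * nn v w' * c0 := by
        have e2 : ∀ w : Pl L, ∑ w' ∈ ab L v, nn v w * nn v w' * c0 = nn v w * (r * c0) := by
          intro w
          rw [← hnnr, Finset.sum_mul, Finset.mul_sum]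
          exact Finset.sum_congr rfl fun w' _ => by ring
        rw [Finset.sum_congr rfl fun w _ => e2 w, ← Finset.sum_mul, hnnr]
        ring
      rw [e1, ← Finset.sum_add_distrib]
      refine Finset.sum_le_sum fun w hw => ?_
      rw [← Finset.sum_add_distrib]
      refine Finset.sum_le_sum fun w' hw' => ?_
      rw [← hn w hw, ← hn w' hw', ← mul_add]
      refine mul_le_mul_of_nonneg_left ?_ (mul_nonneg (nn_nonneg v w) (nn_nonneg v w'))
      have h2 := hlt i w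
      have h3 := hlt i w'
      rcases le_total (t i w) (t i w') with h | h
      · rw [min_eq_left h]
        exact (min_le_left _ _).trans h2
      · rw [min_eq_right h]
        exact (min_le_right _ _).trans h3
    have h2 : ∑ w ∈ ab L v, nn v w * t i w - r * c1 ≤ ∑ w ∈ ab L v, nn v w * la v (a i) x w := by
      have e1 : r * c1 = ∑ w ∈ ab L v, nn v w * c1 := by
        rw [← Finset.sum_mul, hnnr]
      rw [e1, ← Finset.sum_sub_distrib]
      refine Finset.sum_le_sum fun w hw => ?_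
      rw [← mul_sub]
      exact mul_le_mul_of_nonneg_left (htl i w hw) (nn_nonneg v w)
    rw [hmin i] at h1
    rw [← hS1 i] at h2
    have h3 : ∑ k ∈ range r, (2 * (k : ℝ) + 1) * Λ i k =
        ∑ l ∈ range r, 2 * (l : ℝ) * Λ i l + ∑ l ∈ range r, Λ i l := by
      rw [← Finset.sum_add_distrib]
      exact Finset.sum_congr rfl fun k _ => by ring
    rw [h3] at h1
    have h6 : 0 ≤ r * c0 := by positivity
    have h8 : 0 ≤ r * c1 := by positivity
    rw [hC]
    linarith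

end Pool.Agent.H85.X
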