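import Pool.Agent.H85.X.Glob

/-!
The sum over the basis at one place.
-/

set_option autoImplicit false

namespace Pool.Agent.H85.X

open NumberField IsDedekindDomain Finset Module IntermediateField Height
open Pool.Agent.W180.OP (Pl av wt wt_nonneg nrm le_nrm nrm_pos nrm_nonneg exists_nrm)
open Pool.Agent.W180.TP (wt_pos)
open Pool.Agent.NH28

variable {K : Type} [Field K] [NumberField K]

lemma mu_le_deg {n : ℕ} (μ α : Fin n →₀ ℕ) : mu μ α ≤ α.degree := by
  classical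
  unfold mu
  exact Nat.findGreatest_le _

theorem place_sum (v : Pl K) {r q : ℕ} (hr : 2 ≤ r) (hq : 0 < q) (a : Fin q → K)
    (ha : Function.Injective a) (J Nd D : ℕ) (hJ : r ≤ J) (hNd : Nd = (2 * r - 2) * (J + 1))
    (hDd : D = (Ex (r + 1) Nd).card) :
    ∃ C : ℝ, 0 ≤ C ∧ ∀ (L : Type) [Field L] [NumberField L] [Algebra K L], finrank K L = r →
      ∀ x : L, K⟮x⟯ = ⊤ → MvPolynomial.eval (cf (K := K) r x) (DK K r) ≠ 0 →
        (∀ τ : Idx q r, ∀ μ ∈ (PM a τ).support, ∀ α ∈ Ex (r + 1) Nd,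
          MvPolynomial.eval (cf (K := K) r x) (sf (AM a τ) (DK K r) μ α) ≠ 0) →
        ∃ (τ : Idx q r) (μ : Fin (r + 1) →₀ ℕ) (Λ : Fin q → ℕ → ℝ), μ ∈ (PM a τ).support ∧
          LinearIndependent K (fun α : Fin (r + 1) →₀ ℕ => sf (AM a τ) (DK K r) μ α) ∧
          (∀ i k, 0 ≤ Λ i k) ∧
          (∀ i, ∑ w ∈ ab L v, nn v w * la v (a i) x w ≤ ∑ l ∈ range r, Λ i l + C) ∧
          (∀ i, ∑ w ∈ ab L v, ∑ w' ∈ ab L v, nn v w * nn v w' *
            min (la v (a i) x w) (la v (a i) x w') - ∑ w ∈ ab L v, nn v w * la v (a i) x w ≤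
            ∑ l ∈ range r, 2 * (l : ℝ) * Λ i l + C) ∧
          (Nd * D / (r + 1) : ℝ) * ∑ i, ∑ l ∈ range r, ((l : ℝ) + 1) * Λ i l +
            (((Nd : ℝ) / (r + 1) - ((2 * r - 2 : ℕ) : ℝ)) * D / ((2 * r - 2 : ℕ) : ℝ)) *
              (((2 * r - 2 : ℕ) : ℝ) * (wt v * Real.log (nrm (av v) (cf (K := K) r x))) -
                wt v * Real.log (av v (MvPolynomial.eval (cf (K := K) r x) (DK K r))) -
                ∑ i, ∑ l ∈ range r, 2 * (l : ℝ) * Λ i l) ≤
            ∑ α ∈ Ex (r + 1) Nd, wt v * (Real.log (nrm (av v) (ver Nd (cf (K := K) r x))) -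
              Real.log (av v (MvPolynomial.eval (cf (K := K) r x)
                (sf (AM a τ) (DK K r) μ α)))) + C := by
  classical
  have hwv := wt_pos v
  obtain ⟨C0, hC00, hC0⟩ := place_x v hr hq a ha
  obtain ⟨C1, hC10, hC1⟩ := disc_size v hr a ha C0 hC00
  set δ : ℕ := 2 * r - 2 with hδ
  have hδ1 : 1 ≤ δ := by omega
  have hδR : (0 : ℝ) < δ := by exact_mod_cast hδ1
  set S : ℝ := ((Nd : ℝ) / (r + 1) - (δ : ℝ)) * D / (δ : ℝ) with hS
  have hS0 : 0 ≤ S := by
    have h1 : (δ : ℝ) ≤ (Nd : ℝ) / (r + 1) := by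
      rw [le_div_iff₀ (by positivity), hNd]
      push_cast
      have h2 : (r : ℝ) ≤ J := by exact_mod_cast hJ
      exact mul_le_mul_of_nonneg_left (by linarith) hδR.le
    have h2 : 0 ≤ (Nd : ℝ) / (r + 1) - (δ : ℝ) := by linarith
    positivity
  refine ⟨C0 + D * Nd * C0 + Nd * D * C1 + S * C0, by positivity, ?_⟩
  intro L _ _ _ hrL x hx hD hne
  set c := cf (K := K) r x with hc
  obtain ⟨τ, Λ, hanti, hΛ0, hΛm, hup, hgen, hla1, hla2⟩ := hC0 L hrL x hx
  have hPd : (minpoly K x).natDegree ≤ r := by rw [deg_min hx, hrL]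
  set b := bt τ Λ with hb
  set R : ℝ := wt v * Real.log (nrm (av v) c) with hR
  have hcoord : ∀ k, av v ((AM a τ).mulVec c k) ≤ Real.exp ((R - b k + C0) / wt v) := by
    intro k
    unfold AM
    rw [HM_mulVec, hc, PF_cf x hPd]
    have hjr : ((τ.2 k).2 : ℕ) ≤ r := by
      have h1 := (τ.2 k).2.2
      have h2 := idx_card τ
      have h3 := Finset.single_le_sum (f := fun i => (τ.1 i : ℕ)) (fun _ _ => Nat.zero_le _)
        (Finset.mem_univ (τ.2 k).1)
      have h4 : (τ.1 (τ.2 k).1 : ℕ) ≤ ∑ i, (τ.1 i : ℕ) := h3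
      omega
    exact hup (τ.2 k).1 _ hjr
  obtain ⟨μ, hμs, hμl⟩ := exists_low b (PM a τ) (by
    intro h0
    have h1 : sub (AM a τ) (PM a τ) = DK K r := sub_sub (AM a τ) (HM_det a ha _ τ.2) _
    rw [h0, map_zero] at h1
    exact DK_ne r hr h1.symm)
  have hμmin : ∀ ν ∈ (PM a τ).support, bw b μ ≤ bw b ν := fun ν hν =>
    (hμl.2 ν (MvPolynomial.mem_support_iff.1 hν)).bw
  have hPhom : (PM a τ).IsHomogeneous δ := sub_hom _ (DK_hom K hr)
  have hμδ : ∑ j, μ j = δ := mem_Ex.1 (coeff_of_hom hPhom (MvPolynomial.mem_support_iff.1 hμs))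
  refine ⟨τ, μ, Λ, hμs, sf_indep (AM a τ) (HM_det a ha _ τ.2) (DK K r) b μ hμl, hΛ0, ?_, ?_, ?_⟩
  · intro i
    have h1 := hla1 i
    have h2 : 0 ≤ D * Nd * C0 + Nd * D * C1 + S * C0 := by positivity
    linarith
  · intro i
    have h1 := hla2 i
    have h2 : 0 ≤ D * Nd * C0 + Nd * D * C1 + S * C0 := by positivity
    linarith
  · have h1 := hC1 τ c R b hcoord hD μ hμmin
    have h2 := hgen μ hμmin
    have h3 := sum_bt τ Λ hΛm
    rw [← h3]
    set X : ℝ := (δ : ℝ) * R - wt v * Real.log (av v (MvPolynomial.eval c (DK K r))) - bw b μ with hX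
    have hX1 : -C1 ≤ X := by linarith
    set S2 : ℝ := ((∑ α ∈ Ex (r + 1) Nd, mu μ α : ℕ) : ℝ) with hS2
    have hS2low : S ≤ S2 := by
      have h4 := sum_mu r δ J hδ1 μ hμδ
      rw [← hNd, ← hDd] at h4
      rw [hS, div_le_iff₀ hδR]
      have h5 : ((Nd : ℝ) / (r + 1) - (δ : ℝ)) * D ≤ δ * S2 := h4
      linarith
    have hS2up : S2 ≤ Nd * D := by
      rw [hS2]
      have h4 : ∑ α ∈ Ex (r + 1) Nd, mu μ α ≤ ∑ α ∈ Ex (r + 1) Nd, Nd := by
        refine Finset.sum_le_sum fun α hα => ?_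
        have h5 := mu_le_deg μ α
        rw [degree_eq_sum, mem_Ex.1 hα] at h5
        exact h5
      rw [Finset.sum_const, smul_eq_mul, ← hDd, mul_comm] at h4
      exact_mod_cast h4
    have hterm : ∀ α ∈ Ex (r + 1) Nd, bw b α + mu μ α * X - Nd * C0 ≤
        wt v * (Real.log (nrm (av v) (ver Nd c)) -
          Real.log (av v (MvPolynomial.eval c (sf (AM a τ) (DK K r) μ α)))) := by
      intro α hα
      have h4 := form_size v hr a τ c R C0 hC00 b hcoord μ α hμδ hα (hne τ μ hμs α hα) hD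
      have hcn := cf_ne (K := K) hrL hx
      have h5 := ver_nrm (by omega : 0 < r + 1) (av v) c Nd
      have h6 := Real.log_le_log (pow_pos (nrm_pos (av v) hcn) _) h5
      rw [Real.log_pow] at h6
      have h7 := mul_le_mul_of_nonneg_left h6 hwv.le
      have h8 : wt v * (Nd * Real.log (nrm (av v) c)) = Nd * R := by
        rw [hR]
        ring
      rw [h8] at h7
      have h9 : (mu μ α : ℝ) * X = mu μ α * (((2 * r - 2 : ℕ) : ℝ) * R -
        wt v * Real.log (av v (MvPolynomial.eval c (DK K r))) - bw b μ) := rfl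
      have h10 : wt v * (Real.log (nrm (av v) (ver Nd c)) -
          Real.log (av v (MvPolynomial.eval c (sf (AM a τ) (DK K r) μ α)))) =
          wt v * Real.log (nrm (av v) (ver Nd c)) -
          wt v * Real.log (av v (MvPolynomial.eval c (sf (AM a τ) (DK K r) μ α))) := mul_sub _ _ _
      rw [h9, h10]
      linarith
    have hDcast : (((Ex (r + 1) Nd).card : ℕ) : ℝ) = D := by rw [hDd]
    have h4 := Finset.sum_le_sum hterm
    rw [Finset.sum_sub_distrib, Finset.sum_add_distrib, sum_bw, ← Finset.sum_mul,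
      Finset.sum_const, nsmul_eq_mul, hDcast] at h4
    have h5 : ∑ α ∈ Ex (r + 1) Nd, (mu μ α : ℝ) = S2 := by
      rw [hS2]
      push_cast
      rfl
    rw [h5] at h4
    have h6 : S * (X + C1) ≤ S2 * (X + C1) := mul_le_mul_of_nonneg_right hS2low (by linarith)
    have h7 : S2 * C1 ≤ Nd * D * C1 := mul_le_mul_of_nonneg_right hS2up hC10
    have h8 : 0 ≤ S * C1 := by positivity
    have h9 : S * (δ * R - wt v * Real.log (av v (MvPolynomial.eval c (DK K r))) -
        ∑ i, ∑ l ∈ range r, 2 * (l : ℝ) * Λ i l) ≤ S * (X + C0) := by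
      refine mul_le_mul_of_nonneg_left ?_ hS0
      linarith
    have h10 : (D : ℝ) * (Nd * C0) = D * Nd * C0 := by ring
    rw [h10] at h4
    linarith

end Pool.Agent.H85.X
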