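import Pool.Agent.H85.X.Hermite

/-!
Profiles.
-/

set_option autoImplicit false

namespace Pool.Agent.H85.X

open Finset

lemma lemT (Λ : ℕ → ℝ) (hΛ : Antitone Λ) {j r : ℕ} (hj : j ≤ r) :
    j * Λ j - ∑ l ∈ range r, min (Λ l) (Λ j) = -∑ l ∈ Ico j r, Λ l := by
  rw [Finset.range_eq_Ico, ← Finset.sum_Ico_consecutive _ (Nat.zero_le j) hj]
  have h1 : ∑ l ∈ Ico 0 j, min (Λ l) (Λ j) = j * Λ j := by
    rw [Finset.sum_congr rfl (g := fun _ => Λ j), Finset.sum_const, Nat.card_Ico, nsmul_eq_mul]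
    · simp
    · intro l hl
      rw [Finset.mem_Ico] at hl
      exact min_eq_right (hΛ hl.2.le)
  have h2 : ∑ l ∈ Ico j r, min (Λ l) (Λ j) = ∑ l ∈ Ico j r, Λ l := by
    refine Finset.sum_congr rfl fun l hl => ?_
    rw [Finset.mem_Ico] at hl
    exact min_eq_left (hΛ hl.1)
  rw [h1, h2]
  ring

lemma lemS (Λ : ℕ → ℝ) (N : ℕ) :
    ∑ p ∈ range N, ∑ p' ∈ range N, Λ (max p p') = ∑ p ∈ range N, (2 * p + 1) * Λ p := by
  induction N with
  | zero => simp
  | succ N ih =>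
    rw [Finset.sum_range_succ, Finset.sum_range_succ (fun p => (2 * (p : ℝ) + 1) * Λ p), ← ih]
    have h1 : ∀ p ∈ range N, ∑ p' ∈ range (N + 1), Λ (max p p') =
        ∑ p' ∈ range N, Λ (max p p') + Λ N := by
      intro p hp
      rw [Finset.mem_range] at hp
      rw [Finset.sum_range_succ, max_eq_right hp.le]
    rw [Finset.sum_congr rfl h1, Finset.sum_add_distrib, Finset.sum_const, card_range, nsmul_eq_mul]
    have h2 : ∑ p' ∈ range (N + 1), Λ (max N p') = (N + 1) * Λ N := by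
      rw [Finset.sum_congr rfl (g := fun _ => Λ N), Finset.sum_const, card_range, nsmul_eq_mul]
      · push_cast
        ring
      · intro p' hp
        rw [Finset.mem_range] at hp
        rw [max_eq_left (by omega)]
    rw [h2]
    ring

/-- the weights of the coordinates -/
noncomputable def bb {q r : ℕ} {m : Fin q → ℕ} (e : Fin (r + 1) ≃ Σ i, Fin (m i))
    (Λ : Fin q → ℕ → ℝ) (k : Fin (r + 1)) : ℝ := ∑ l ∈ Ico ((e k).2 : ℕ) r, Λ (e k).1 l

end Pool.Agent.H85.X
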