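import Pool.Agent.H85.X.Far
import Pool.Agent.H85.X.GenM

/-!
The profile of a point at a place.
-/

set_option autoImplicit false

namespace Pool.Agent.H85.X

open NumberField IsDedekindDomain Finset Module IntermediateField
open Pool.Agent.W180.OP (Pl av wt wt_nonneg nrm)
open Pool.Agent.W180.TP (wt_pos)
open Pool.Agent.NH28

/-- a sorted enumeration of a finite set with multiplicities -/
theorem enum {W : Type} (T : Finset W) (n : W → ℕ) (r : ℕ) (hn : ∑ w ∈ T, n w = r) (f : W → ℝ) :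
    ∃ p : Fin r → W, (∀ k, p k ∈ T) ∧ Antitone (f ∘ p) ∧
      ∀ g : W → ℝ, ∑ k, g (p k) = ∑ w ∈ T, (n w : ℝ) * g w := by
  classical
  have hcard : Fintype.card (Σ w : {w // w ∈ T}, Fin (n w)) = r := by
    rw [Fintype.card_sigma]
    simp only [Fintype.card_fin]
    rw [Finset.sum_coe_sort T n, hn]
  set e : (Σ w : {w // w ∈ T}, Fin (n w)) ≃ Fin r := Fintype.equivFinOfCardEq hcard with he
  set u : Fin r → W := fun k => (e.symm k).1.1 with hu
  set τ : Equiv.Perm (Fin r) := Tuple.sort (fun k => -f (u k)) with hτ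
  refine ⟨fun k => u (τ k), fun k => (e.symm (τ k)).1.2, ?_, ?_⟩
  · intro k k' hkk
    have h1 := Tuple.monotone_sort (fun k => -f (u k)) hkk
    simp only [Function.comp_apply] at h1 ⊢
    linarith
  · intro g
    rw [Equiv.sum_comp τ (fun k => g (u k))]
    have h1 : ∑ k, g (u k) = ∑ x : (Σ w : {w // w ∈ T}, Fin (n w)), g x.1.1 :=
      Equiv.sum_comp e.symm (fun x => g x.1.1)
    rw [h1, Fintype.sum_sigma, ← Finset.sum_coe_sort T]
    refine Finset.sum_congr rfl fun w _ => ?_
    show ∑ _y : Fin (n w), g w.1 = _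
    rw [Finset.sum_const, Finset.card_univ, Fintype.card_fin, nsmul_eq_mul]

/-- the abstract profiles -/
theorem profile {W : Type} (T : Finset W) (n : W → ℕ) (r : ℕ) (hn : ∑ w ∈ T, n w = r) {q : ℕ}
    (t : Fin q → W → ℝ) (ht : ∀ i w, 0 ≤ t i w)
    (hone : ∀ w ∈ T, ∀ i i', 0 < t i w → 0 < t i' w → i = i') :
    ∃ (Λ : Fin q → ℕ → ℝ) (N : Fin q → ℕ), (∀ i, Antitone (Λ i)) ∧ (∀ i k, 0 ≤ Λ i k) ∧
      (∀ i k, N i ≤ k → Λ i k = 0) ∧ ∑ i, N i ≤ r ∧
      (∀ i (g : ℝ → ℝ), ∑ k ∈ range r, g (Λ i k) = ∑ w ∈ T, (n w : ℝ) * g (t i w)) ∧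
      ∀ i, ∑ w ∈ T, ∑ w' ∈ T, (n w : ℝ) * (n w' : ℝ) * min (t i w) (t i w') =
        ∑ k ∈ range r, (2 * (k : ℝ) + 1) * Λ i k := by
  classical
  choose p hp1 hp2 hp3 using fun i : Fin q => enum T n r hn (t i)
  set Λ : Fin q → ℕ → ℝ := fun i k => if h : k < r then t i (p i ⟨k, h⟩) else 0 with hΛ
  have hΛ1 : ∀ i k (h : k < r), Λ i k = t i (p i ⟨k, h⟩) := by
    intro i k h
    simp only [hΛ, dif_pos h]
  have hΛ2 : ∀ i k, r ≤ k → Λ i k = 0 := by
    intro i k h
    simp only [hΛ, dif_neg (not_lt.2 h)]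
  have hΛ0 : ∀ i k, 0 ≤ Λ i k := by
    intro i k
    by_cases h : k < r
    · rw [hΛ1 i k h]
      exact ht _ _
    · rw [hΛ2 i k (not_lt.1 h)]
  have hanti : ∀ i, Antitone (Λ i) := by
    intro i k k' hkk
    by_cases h : k' < r
    · rw [hΛ1 i k' h, hΛ1 i k (by omega)]
      exact hp2 i (by simpa using hkk : (⟨k, by omega⟩ : Fin r) ≤ ⟨k', h⟩)
    · rw [hΛ2 i k' (not_lt.1 h)]
      exact hΛ0 i k
  have hsum : ∀ i (g : ℝ → ℝ), ∑ k ∈ range r, g (Λ i k) = ∑ w ∈ T, (n w : ℝ) * g (t i w) := by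
    intro i g
    rw [← hp3 i (fun w => g (t i w)), Finset.sum_range]
    refine Finset.sum_congr rfl fun k _ => ?_
    rw [hΛ1 i k k.2]
  -- the number of positive entries
  set N : Fin q → ℕ := fun i => ((range r).filter fun k => 0 < Λ i k).card with hN
  have hNc : ∀ i, (N i : ℝ) = ∑ w ∈ T, (n w : ℝ) * (if 0 < t i w then 1 else 0) := by
    intro i
    rw [← hsum i (fun y => if 0 < y then 1 else 0)]
    simp only [hN]
    rw [Finset.card_filter]
    push_cast
    rfl
  refine ⟨Λ, N, hanti, hΛ0, ?_, ?_, hsum, ?_⟩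
  · intro i k hk
    by_contra hne
    have hpos : 0 < Λ i k := lt_of_le_of_ne (hΛ0 i k) (Ne.symm hne)
    have hkr : k < r := by
      by_contra h
      exact hne (hΛ2 i k (not_lt.1 h))
    have h1 : range (k + 1) ⊆ (range r).filter fun k => 0 < Λ i k := by
      intro k' hk'
      rw [Finset.mem_range] at hk'
      rw [Finset.mem_filter, Finset.mem_range]
      exact ⟨by omega, hpos.trans_le (hanti i (by omega))⟩
    have h2 := Finset.card_le_card h1
    rw [Finset.card_range] at h2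
    have h3 : N i = ((range r).filter fun k => 0 < Λ i k).card := rfl
    omega
  · have h1 : ((∑ i, N i : ℕ) : ℝ) ≤ r := by
      push_cast
      rw [Finset.sum_congr rfl fun i _ => hNc i, Finset.sum_comm]
      have h2 : ∀ w ∈ T, ∑ i, (n w : ℝ) * (if 0 < t i w then 1 else 0) ≤ n w := by
        intro w hw
        rw [← Finset.mul_sum]
        have h3 : ∑ i, (if 0 < t i w then (1 : ℝ) else 0) ≤ 1 := by
          have h4 : ∑ i, (if 0 < t i w then (1 : ℝ) else 0) =
              ((Finset.univ.filter fun i => 0 < t i w).card : ℝ) := by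
            rw [Finset.card_filter]
            push_cast
            rfl
          rw [h4]
          have h5 : (Finset.univ.filter fun i => 0 < t i w).card ≤ 1 := by
            rw [Finset.card_le_one]
            intro i hi i' hi'
            rw [Finset.mem_filter] at hi hi'
            exact hone w hw i i' hi.2 hi'.2
          exact_mod_cast h5
        calc (n w : ℝ) * ∑ i, (if 0 < t i w then (1 : ℝ) else 0) ≤ n w * 1 :=
              mul_le_mul_of_nonneg_left h3 (Nat.cast_nonneg _)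
          _ = n w := mul_one _
      refine (Finset.sum_le_sum h2).trans ?_
      rw [← hn]
      push_cast
      exact le_rfl
    exact_mod_cast h1
  · intro i
    have h1 : ∀ w, ∑ w' ∈ T, (n w : ℝ) * (n w' : ℝ) * min (t i w) (t i w') =
        (n w : ℝ) * ∑ k ∈ range r, min (t i w) (Λ i k) := by
      intro w
      rw [hsum i (fun y => min (t i w) y), Finset.mul_sum]
      exact Finset.sum_congr rfl fun w' _ => by ring
    rw [Finset.sum_congr rfl fun w _ => h1 w,
      ← hsum i (fun y => ∑ k ∈ range r, min y (Λ i k)), ← lemS]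
    refine Finset.sum_congr rfl fun k _ => Finset.sum_congr rfl fun k' _ => ?_
    rcases le_total k k' with h | h
    · rw [max_eq_right h, min_eq_right (hanti i h)]
    · rw [max_eq_left h, min_eq_left (hanti i h)]

variable {K : Type} [Field K] [NumberField K]

lemma exists_type {q r : ℕ} (hq : 0 < q) (N : Fin q → ℕ) (hN : ∑ i, N i ≤ r) :
    ∃ m : Fin q → ℕ, ∑ i, m i = r + 1 ∧ ∀ i, N i ≤ m i := by
  classical
  refine ⟨fun i => N i + if i = ⟨0, hq⟩ then r + 1 - ∑ i, N i else 0, ?_, fun i => by simp⟩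
  rw [Finset.sum_add_distrib, Finset.sum_ite_eq' Finset.univ]
  simp only [Finset.mem_univ, if_true]
  omega

end Pool.Agent.H85.X
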