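import Pool.Agent.H85.X.Mono

/-!
The sums of the exponents and of the multiplicities in the adapted bases.
-/

set_option autoImplicit false

namespace Pool.Agent.H85.X

open Finset

/-- the exponents of degree `N` -/
noncomputable def Ex (n N : ℕ) : Finset (Fin n →₀ ℕ) := (univ : Finset (Fin n)).finsuppAntidiag N

lemma mem_Ex {n N : ℕ} {α : Fin n →₀ ℕ} : α ∈ Ex n N ↔ ∑ j, α j = N := by
  unfold Ex
  rw [mem_finsuppAntidiag]
  constructor
  · exact fun h => h.1
  · exact fun h => ⟨h, Finset.subset_univ _⟩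

lemma card_Ex (r N : ℕ) : (Ex (r + 1) N).card = (N + r).choose r := by
  unfold Ex
  rw [card_finsuppAntidiag_nat_eq_choose, card_univ, Fintype.card_fin]
  have h1 : r + 1 + N - 1 = N + r := by omega
  rw [h1]
  exact (Nat.choose_symm_add)

lemma sum_coord_swap (n N : ℕ) (j j' : Fin n) :
    ∑ α ∈ Ex n N, α j = ∑ α ∈ Ex n N, α j' := by
  classical
  refine Finset.sum_bij' (fun α _ => α.equivMapDomain (Equiv.swap j j'))
    (fun α _ => α.equivMapDomain (Equiv.swap j j')) ?_ ?_ ?_ ?_ ?_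
  · intro α hα
    rw [mem_Ex] at hα ⊢
    rw [← hα]
    simp only [Finsupp.equivMapDomain_apply, Equiv.symm_swap]
    exact Equiv.sum_comp (Equiv.swap j j') (fun k => α k)
  · intro α hα
    rw [mem_Ex] at hα ⊢
    rw [← hα]
    simp only [Finsupp.equivMapDomain_apply, Equiv.symm_swap]
    exact Equiv.sum_comp (Equiv.swap j j') (fun k => α k)
  · intro α _
    ext k
    simp [Finsupp.equivMapDomain_apply]
  · intro α _
    ext k
    simp [Finsupp.equivMapDomain_apply]
  · intro α _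
    simp [Finsupp.equivMapDomain_apply]

/-- the sum of a coordinate -/
lemma sum_coord (r N : ℕ) (j : Fin (r + 1)) :
    ((∑ α ∈ Ex (r + 1) N, α j : ℕ) : ℝ) = N * (Ex (r + 1) N).card / (r + 1) := by
  have h1 : ∑ j' : Fin (r + 1), ∑ α ∈ Ex (r + 1) N, α j' = N * (Ex (r + 1) N).card := by
    rw [Finset.sum_comm, Finset.sum_congr rfl (g := fun _ => N), Finset.sum_const, smul_eq_mul,
      mul_comm]
    intro α hα
    exact mem_Ex.1 hα
  have h2 : ∑ j' : Fin (r + 1), ∑ α ∈ Ex (r + 1) N, α j' =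
      (r + 1) * ∑ α ∈ Ex (r + 1) N, α j := by
    rw [Finset.sum_congr rfl fun j' _ => sum_coord_swap (r + 1) N j' j, Finset.sum_const,
      Finset.card_univ, Fintype.card_fin, smul_eq_mul]
  rw [h1] at h2
  rw [eq_div_iff (by positivity)]
  have h3 : ((N * (Ex (r + 1) N).card : ℕ) : ℝ) = (((r + 1) * ∑ α ∈ Ex (r + 1) N, α j : ℕ) : ℝ) := by
    rw [h2]
  push_cast at h3
  push_cast
  linarith

/-- the weighted sum -/
lemma sum_bw (r N : ℕ) (b : Fin (r + 1) → ℝ) :
    ∑ α ∈ Ex (r + 1) N, bw b α = N * (Ex (r + 1) N).card / (r + 1) * ∑ j, b j := by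
  unfold bw
  rw [Finset.sum_comm, Finset.mul_sum]
  refine Finset.sum_congr rfl fun j _ => ?_
  rw [← sum_coord r N j, ← Finset.sum_mul]
  push_cast
  rfl

lemma choose_diff (m s k : ℕ) :
    (m + (s + 1)).choose (k + 1) ≤ m.choose (k + 1) + (s + 1) * (m + s).choose k := by
  induction s with
  | zero =>
    rw [zero_add, add_zero, Nat.choose_succ_succ]
    simp only [Nat.succ_eq_add_one]
    omega
  | succ s ih =>
    have e1 : (m + (s + 1 + 1)).choose (k + 1) = (m + (s + 1)).choose k +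
        (m + (s + 1)).choose (k + 1) := by
      rw [← add_assoc m (s + 1) 1, Nat.choose_succ_succ]
    have h1 : (m + s).choose k ≤ (m + (s + 1)).choose k := Nat.choose_le_choose k (by omega)
    have h2 : (s + 1) * (m + s).choose k ≤ (s + 1) * (m + (s + 1)).choose k :=
      Nat.mul_le_mul_left _ h1
    have e2 : (s + 1 + 1) * (m + (s + 1)).choose k = (s + 1) * (m + (s + 1)).choose k +
        (m + (s + 1)).choose k := by ring
    rw [e1, e2]
    omega

/-- the multiples of a degree -/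
lemma sum_mult (r δ J : ℕ) (hδ : 1 ≤ δ) :
    (δ * J + (r + 1)).choose (r + 1) ≤ δ * ∑ j ∈ range (J + 1), (δ * j + r).choose r := by
  obtain ⟨s, rfl⟩ : ∃ s, δ = s + 1 := ⟨δ - 1, by omega⟩
  induction J with
  | zero =>
    simp
  | succ J ih =>
    rw [Finset.sum_range_succ,
      Nat.mul_add (s + 1) (∑ j ∈ range (J + 1), ((s + 1) * j + r).choose r)]
    have h1 := choose_diff ((s + 1) * J + (r + 1)) s r
    have e1 : (s + 1) * J + (r + 1) + (s + 1) = (s + 1) * (J + 1) + (r + 1) := by ring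
    have e2 : (s + 1) * J + (r + 1) + s = (s + 1) * (J + 1) + r := by ring
    rw [e1, e2] at h1
    omega

lemma shift_card (n N k δ : ℕ) (μ : Fin n →₀ ℕ) (hμ : ∑ j, μ j = δ) (hk : k * δ ≤ N) :
    (Ex n (N - k * δ)).card ≤ ((Ex n N).filter fun α => k • μ ≤ α).card := by
  classical
  refine Finset.card_le_card_of_injOn (fun β => β + k • μ) ?_ ?_
  · intro β hβ
    rw [Finset.mem_coe] at hβ ⊢
    rw [mem_Ex] at hβ
    rw [Finset.mem_filter, mem_Ex]
    refine ⟨?_, by simp⟩
    simp only [Finsupp.add_apply, Finsupp.smul_apply, smul_eq_mul]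
    rw [Finset.sum_add_distrib, hβ, ← Finset.mul_sum, hμ]
    omega
  · intro β _ β' _ h
    exact add_right_cancel h

lemma degree_eq_sum {n : ℕ} (α : Fin n →₀ ℕ) : α.degree = ∑ j, α j := by
  rw [Finsupp.degree_eq_sum]

lemma sum_mu_ge (n N δ J : ℕ) (μ : Fin n →₀ ℕ) (hμ : ∑ j, μ j = δ) (hδ : 1 ≤ δ)
    (hJ : (J + 1) * δ ≤ N) :
    ∑ k ∈ Finset.Icc 1 (J + 1), (Ex n (N - k * δ)).card ≤ ∑ α ∈ Ex n N, mu μ α := by
  classical
  have h1 : ∀ α ∈ Ex n N, ∑ k ∈ Finset.Icc 1 (J + 1), (if k • μ ≤ α then 1 else 0) ≤ mu μ α := by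
    intro α hα
    rw [← Finset.card_filter]
    have h2 : ((Finset.Icc 1 (J + 1)).filter fun k => k • μ ≤ α) ⊆ Finset.Icc 1 (mu μ α) := by
      intro k hk
      rw [Finset.mem_filter, Finset.mem_Icc] at hk
      rw [Finset.mem_Icc]
      refine ⟨hk.1.1, le_mu ?_ hk.2⟩
      rw [degree_eq_sum, mem_Ex.1 hα]
      have h3 : k * 1 ≤ (J + 1) * δ := Nat.mul_le_mul hk.1.2 hδ
      omega
    have h3 := Finset.card_le_card h2
    rwa [Nat.card_Icc, Nat.add_sub_cancel] at h3
  refine le_trans ?_ (Finset.sum_le_sum h1)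
  rw [Finset.sum_comm]
  refine Finset.sum_le_sum fun k hk => ?_
  rw [← Finset.card_filter]
  refine shift_card n N k δ μ hμ ?_
  rw [Finset.mem_Icc] at hk
  exact (Nat.mul_le_mul_right δ hk.2).trans hJ

/-- **the sum of the multiplicities** -/
theorem sum_mu (r δ J : ℕ) (hδ : 1 ≤ δ) (μ : Fin (r + 1) →₀ ℕ) (hμ : ∑ j, μ j = δ) :
    (((δ * (J + 1) : ℕ) : ℝ) / (r + 1) - δ) * (Ex (r + 1) (δ * (J + 1))).card ≤
      δ * ((∑ α ∈ Ex (r + 1) (δ * (J + 1)), mu μ α : ℕ) : ℝ) := by
  set N := δ * (J + 1) with hN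
  have h1 := sum_mu_ge (r + 1) N δ J μ hμ hδ (by rw [hN, mul_comm])
  have h2 : ∑ k ∈ Finset.Icc 1 (J + 1), (Ex (r + 1) (N - k * δ)).card =
      ∑ j ∈ range (J + 1), (δ * j + r).choose r := by
    refine Finset.sum_bij' (fun k _ => J + 1 - k) (fun j _ => J + 1 - j) ?_ ?_ ?_ ?_ ?_
    · intro k hk
      rw [Finset.mem_Icc] at hk
      rw [Finset.mem_range]
      omega
    · intro j hj
      rw [Finset.mem_range] at hj
      rw [Finset.mem_Icc]
      omega
    · intro k hk
      rw [Finset.mem_Icc] at hk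
      omega
    · intro j hj
      rw [Finset.mem_range] at hj
      omega
    · intro k hk
      rw [Finset.mem_Icc] at hk
      rw [card_Ex]
      have : N - k * δ = δ * (J + 1 - k) := by
        rw [hN, Nat.mul_sub, mul_comm k δ]
      rw [this]
  rw [h2] at h1
  have h3 := sum_mult r δ J hδ
  obtain ⟨s, rfl⟩ : ∃ s, δ = s + 1 := ⟨δ - 1, by omega⟩
  have h4 : (N + r).choose (r + 1) ≤ ((s + 1) * J + (r + 1)).choose (r + 1) +
      (s + 1) * (N + r).choose r := by
    rcases Nat.eq_zero_or_pos s with h0 | h0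
    · subst h0
      have : N + r = (0 + 1) * J + (r + 1) := by rw [hN]; ring
      rw [this]
      exact Nat.le_add_right _ _
    · obtain ⟨t, rfl⟩ : ∃ t, s = t + 1 := ⟨s - 1, by omega⟩
      have h5 := choose_diff ((t + 1 + 1) * J + (r + 1)) t r
      have e1 : (t + 1 + 1) * J + (r + 1) + (t + 1) = N + r := by rw [hN]; ring
      rw [e1] at h5
      have h6 : ((t + 1 + 1) * J + (r + 1) + t).choose r ≤ (N + r).choose r :=
        Nat.choose_le_choose r (by omega)
      have h7 : (t + 1) * ((t + 1 + 1) * J + (r + 1) + t).choose r ≤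
        (t + 1 + 1) * (N + r).choose r := Nat.mul_le_mul (by omega) h6
      omega
  have h5 : (N + r).choose (r + 1) * (r + 1) = (N + r).choose r * N := by
    have := Nat.choose_succ_right_eq (N + r) r
    rw [this]
    congr 1
    omega
  rw [card_Ex]
  have h6 : ((N + r).choose (r + 1) : ℝ) ≤ (s + 1 : ℕ) * ((∑ α ∈ Ex (r + 1) N, mu μ α : ℕ) : ℝ) +
      (s + 1 : ℕ) * ((N + r).choose r : ℝ) := by
    have h7 : (N + r).choose (r + 1) ≤ (s + 1) * (∑ α ∈ Ex (r + 1) N, mu μ α) +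
        (s + 1) * (N + r).choose r := by
      have h8 := Nat.mul_le_mul_left (s + 1) h1
      omega
    exact_mod_cast h7
  have h7 : ((N + r).choose (r + 1) : ℝ) * (r + 1) = (N + r).choose r * N := by
    exact_mod_cast h5
  have hr1 : (0 : ℝ) < r + 1 := by positivity
  have h8 : ((N : ℝ) / (r + 1)) * ((N + r).choose r : ℝ) = ((N + r).choose (r + 1) : ℝ) := by
    field_simp
    linarith
  rw [sub_mul, h8]
  linarith

end Pool.Agent.H85.X
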